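import Pool.Agent.OMG.Defs

/-!
# OMG TAY: the Taylor operator

`T c f` is the power series of `f` at `c` in the variable `c - s`.
Proof notes. `T_congr`: iterated derivatives of eventually equal functions agree
(`Filter.EventuallyEq.iteratedDeriv_eq`). `T_mul`: `iteratedDeriv_fun_mul` (Leibniz) and
`PowerSeries.coeff_mul`, see `Mathlib/NumberTheory/ModularForms/QExpansion.lean` line 491 for the
pattern. `T_deriv`: `iteratedDeriv_succ'`. `T_bound`: Cauchy estimate
`Complex.norm_iteratedDeriv_le_of_forall_mem_sphere_norm_le` on the sphere of radius `q`.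
`T_hasSum`: `Complex.hasSum_taylorSeries_on_ball` (for `R` real positive; the ball is empty
otherwise). `T_unique`: both `fun u => f (c - u)` expansions on a small ball, uniqueness of power
series (`HasFPowerSeriesAt.eq_formalMultilinearSeries`); or: `h` makes `f` analytic at `c`
(`HasFPowerSeriesOnBall`), then `T_hasSum` and uniqueness. `T_inv`: geometric series and
`T_unique`: `a/(s-rho) = sum_k a (c-s)^k/(c-rho)^(k+1)` for `|s-c| < |c-rho|`.
-/

set_option autoImplicit false

open Complex Finset Filter Topology MeasureTheory PowerSeries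

namespace Pool.OMG

private theorem hasSum_of_eq {f g : ℕ → ℂ} {a : ℂ} (hg : HasSum g a) (h : ∀ k, f k = g k) :
    HasSum f a := by
  rw [funext h]
  exact hg

private theorem coeff_T (c : ℂ) (f : ℂ → ℂ) (k : ℕ) :
    coeff k (T c f) = (-1) ^ k * iteratedDeriv k f c / (k.factorial : ℂ) := by
  unfold T
  rw [PowerSeries.coeff_mk]

theorem T_congr {c : ℂ} {f g : ℂ → ℂ} (h : f =ᶠ[𝓝 c] g) : T c f = T c g := by
  ext k
  rw [coeff_T, coeff_T, (h.iteratedDeriv k).eq_of_nhds]

theorem T_add {c : ℂ} {f g : ℂ → ℂ} (hf : AnalyticAt ℂ f c) (hg : AnalyticAt ℂ g c) :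
    T c (fun s => f s + g s) = T c f + T c g := by
  ext k
  rw [map_add, coeff_T, coeff_T, coeff_T, iteratedDeriv_fun_add hf.contDiffAt hg.contDiffAt]
  ring

theorem T_mul {c : ℂ} {f g : ℂ → ℂ} (hf : AnalyticAt ℂ f c) (hg : AnalyticAt ℂ g c) :
    T c (fun s => f s * g s) = T c f * T c g := by
  ext k
  rw [coeff_T, PowerSeries.coeff_mul, iteratedDeriv_fun_mul hf.contDiffAt hg.contDiffAt,
    Finset.Nat.sum_antidiagonal_eq_sum_range_succ_mk, Finset.mul_sum, Finset.sum_div]
  refine Finset.sum_congr rfl fun i hi => ?_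
  rw [Finset.mem_range] at hi
  have hik : i ≤ k := by omega
  rw [coeff_T, coeff_T, Nat.cast_choose ℂ hik]
  have h1 : ((-1 : ℂ)) ^ k = (-1) ^ i * (-1) ^ (k - i) := by
    rw [← pow_add]
    congr 1
    omega
  rw [h1]
  have h2 : (k.factorial : ℂ) ≠ 0 := by exact_mod_cast Nat.factorial_ne_zero k
  have h3 : (i.factorial : ℂ) ≠ 0 := by exact_mod_cast Nat.factorial_ne_zero i
  have h4 : ((k - i).factorial : ℂ) ≠ 0 := by exact_mod_cast Nat.factorial_ne_zero (k - i)
  field_simp

theorem T_deriv (c : ℂ) (f : ℂ → ℂ) (k : ℕ) :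
    coeff (k + 1) (T c f) = -coeff k (T c (deriv f)) / ((k : ℂ) + 1) := by
  rw [coeff_T, coeff_T, iteratedDeriv_succ', Nat.factorial_succ]
  have h2 : (k.factorial : ℂ) ≠ 0 := by exact_mod_cast Nat.factorial_ne_zero k
  have h3 : ((k : ℂ) + 1) ≠ 0 := by exact_mod_cast Nat.succ_ne_zero k
  push_cast
  field_simp
  ring

theorem T_const (c a : ℂ) : T c (fun _ => a) = C a := by
  ext k
  rw [coeff_T, iteratedDeriv_const, PowerSeries.coeff_C]
  split_ifs with h
  · subst h
    simp
  · simp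

theorem T_bound {c : ℂ} {f : ℂ → ℂ} {R q : ℝ} (hf : DifferentiableOn ℂ f (Metric.ball c R))
    (hq : 0 < q) (hqR : q < R) : ∃ C : ℝ, ∀ k, ‖coeff k (T c f)‖ ≤ C * (1 / q) ^ k := by
  have hsub : Metric.closedBall c q ⊆ Metric.ball c R := Metric.closedBall_subset_ball hqR
  have hcont : ContinuousOn f (Metric.sphere c q) :=
    hf.continuousOn.mono (Metric.sphere_subset_closedBall.trans hsub)
  obtain ⟨C, hC⟩ := (isCompact_sphere c q).exists_bound_of_continuousOn hcont
  refine ⟨C, fun k => ?_⟩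
  have h1 := Complex.norm_iteratedDeriv_le_of_forall_mem_sphere_norm_le k hq
    (hf.diffContOnCl_ball hsub) hC
  have h2 : (0 : ℝ) < (k.factorial : ℝ) := by exact_mod_cast Nat.factorial_pos k
  rw [coeff_T, norm_div, norm_mul, norm_pow, norm_neg, norm_one, one_pow, one_mul,
    Complex.norm_natCast, div_le_iff₀ h2]
  calc ‖iteratedDeriv k f c‖ ≤ k.factorial * C / q ^ k := h1
    _ = C * (1 / q) ^ k * k.factorial := by
        rw [one_div, inv_pow]
        ring

theorem T_hasSum {c : ℂ} {f : ℂ → ℂ} {R : ℝ} (hf : DifferentiableOn ℂ f (Metric.ball c R))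
    {s : ℂ} (hs : s ∈ Metric.ball c R) :
    HasSum (fun k => coeff k (T c f) * (c - s) ^ k) (f s) := by
  have h1 := Complex.hasSum_taylorSeries_on_ball hf hs
  refine hasSum_of_eq h1 fun k => ?_
  rw [coeff_T, smul_eq_mul, smul_eq_mul]
  have h2 : (s - c) ^ k = (-1) ^ k * (c - s) ^ k := by
    rw [← mul_pow]
    congr 1
    ring
  rw [h2]
  ring

theorem T_unique {c : ℂ} {f : ℂ → ℂ} {r : ℝ} (hr : 0 < r) {a : ℕ → ℂ}
    (h : ∀ s ∈ Metric.ball c r, HasSum (fun k => a k * (c - s) ^ k) (f s)) (k : ℕ) :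
    coeff k (T c f) = a k := by
  set b : ℕ → ℂ := fun n => (-1) ^ n * a n with hb
  set p := FormalMultilinearSeries.ofScalars ℂ b with hp
  have hr2 : (0 : ℝ) < r / 2 := by positivity
  set ρ : NNReal := ⟨r / 2, hr2.le⟩ with hρ
  have hterm : ∀ (n : ℕ) (y : ℂ), b n * y ^ n = a n * (c - (c + y)) ^ n := by
    intro n y
    have h1 : (c - (c + y)) ^ n = (-1) ^ n * y ^ n := by
      rw [← mul_pow]
      congr 1
      ring
    rw [h1, hb]
    ring
  have hsum : ∀ y : ℂ, ‖y‖ < r → HasSum (fun n => b n * y ^ n) (f (c + y)) := by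
    intro y hy
    have h1 := h (c + y) (by simpa [Metric.mem_ball, dist_eq_norm] using hy)
    exact hasSum_of_eq h1 fun n => hterm n y
  have hrad : (ρ : ENNReal) ≤ p.radius := by
    apply FormalMultilinearSeries.le_radius_of_summable
    have h1 := (hsum ((r / 2 : ℝ) : ℂ) (by
      rw [Complex.norm_real, Real.norm_of_nonneg hr2.le]
      linarith)).summable.norm
    refine h1.congr fun n => ?_
    rw [norm_mul, norm_pow, Complex.norm_real, Real.norm_of_nonneg hr2.le, hp,
      FormalMultilinearSeries.ofScalars_norm]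
    rfl
  have hps : HasFPowerSeriesOnBall f p c ρ := by
    refine ⟨hrad, ENNReal.coe_pos.mpr (show (0 : NNReal) < ρ from hr2), ?_⟩
    intro y hy
    have hy2 : ‖y‖ < r := by
      have h1 : ‖y‖ < r / 2 := by
        rw [Metric.eball_coe] at hy
        have h2 : ‖y‖ < (ρ : ℝ) := by simpa using hy
        exact h2
      linarith
    have h1 := hsum y hy2
    refine hasSum_of_eq h1 fun n => ?_
    rw [hp, FormalMultilinearSeries.ofScalars_apply_eq, smul_eq_mul]
  have han : AnalyticAt ℂ f c := hps.analyticAt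
  have h1 := hps.hasFPowerSeriesAt.eq_formalMultilinearSeries han.hasFPowerSeriesAt
  have h2 : p.coeff k = iteratedDeriv k f c / k.factorial := by
    rw [h1, FormalMultilinearSeries.coeff_ofScalars]
  rw [hp, FormalMultilinearSeries.coeff_ofScalars] at h2
  rw [coeff_T, mul_div_assoc, ← h2, hb, ← mul_assoc, ← pow_add, ← two_mul, pow_mul]
  simp

theorem T_sub (c ρ : ℂ) : T c (fun s => s - ρ) = C (c - ρ) - X := by
  ext k
  refine T_unique (c := c) (f := fun s => s - ρ) (r := 1) one_pos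
    (a := fun k => coeff k (C (c - ρ) - X)) ?_ k
  intro s _
  have h1 : ∀ k ∉ Finset.range 2, coeff k (C (c - ρ) - X : PowerSeries ℂ) * (c - s) ^ k = 0 := by
    intro k hk
    rw [Finset.mem_range] at hk
    rw [map_sub, PowerSeries.coeff_C, PowerSeries.coeff_X, if_neg (by omega), if_neg (by omega)]
    simp
  have h2 : HasSum (fun k => coeff k (C (c - ρ) - X : PowerSeries ℂ) * (c - s) ^ k)
      (∑ k ∈ Finset.range 2, coeff k (C (c - ρ) - X : PowerSeries ℂ) * (c - s) ^ k) :=
    hasSum_sum_of_ne_finset_zero h1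
  have h3 : ∑ k ∈ Finset.range 2, coeff k (C (c - ρ) - X : PowerSeries ℂ) * (c - s) ^ k =
      s - ρ := by
    rw [Finset.sum_range_succ, Finset.sum_range_one]
    simp [PowerSeries.coeff_C, PowerSeries.coeff_X]
  rw [h3] at h2
  exact h2

theorem T_inv {c ρ : ℂ} (h : c ≠ ρ) (a : ℂ) (k : ℕ) :
    coeff k (T c (fun s => a / (s - ρ))) = a * (1 / (c - ρ)) ^ (k + 1) := by
  have h0 : c - ρ ≠ 0 := sub_ne_zero.mpr h
  have h1 : 0 < ‖c - ρ‖ := norm_pos_iff.mpr h0
  refine T_unique h1 (a := fun k => a * (1 / (c - ρ)) ^ (k + 1)) ?_ k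
  intro s hs
  have h2 : ‖(c - s) / (c - ρ)‖ < 1 := by
    rw [norm_div, div_lt_one h1, ← dist_eq_norm, dist_comm]
    exact hs
  have h3 := (hasSum_geometric_of_norm_lt_one h2).mul_left (a / (c - ρ))
  have h4 : s - ρ ≠ 0 := by
    intro h5
    have h6 : s = ρ := sub_eq_zero.mp h5
    rw [h6, div_self h0] at h2
    simp at h2
  have h5 : a / (c - ρ) * (1 - (c - s) / (c - ρ))⁻¹ = a / (s - ρ) := by
    have h6 : 1 - (c - s) / (c - ρ) = (s - ρ) / (c - ρ) := by
      field_simp
      ring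
    rw [h6]
    field_simp
  rw [h5] at h3
  refine hasSum_of_eq h3 fun k => ?_
  rw [pow_succ, div_pow, one_div, div_pow, one_pow]
  field_simp

end Pool.OMG
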