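import Pool.Agent.OMG.Prod
import Pool.Agent.OMG.Tay

/-!
# OMG INT: the Gamma-weighted averages are Taylor coefficients of `F(s)/s`

For `Re s > 1`: `F s / s = int_1^oo A(t) t^(-s-1) dt` (`LSeries_eq_mul_integral` with `r` between
`1` and `Re s`, using `A_eq` and `A_bound`, or `LSeries_eq_mul_integral'`), `= int_0^oo A(e^y)
e^(-s y) dy` (`t = e^y`). With `s = s0 - u`, `|u| < (s0-1)/2`: `e^(uy) = sum (uy)^k/k!`, and the
sum and the integral can be exchanged (`MeasureTheory.hasSum_integral_of_summable_integral_norm`),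
because `|A(e^y)| <= 2 (1+y) e^y` makes `int |A(e^y)| e^(-s0 y) e^(|u| y) dy` finite. So
`F s / s = sum_k J_k (s0 - s)^k` near `s0`; conclude with `T_unique`.
-/

set_option autoImplicit false

open Complex Finset Filter Topology MeasureTheory

namespace Pool.OMG

theorem A_measurable : Measurable A := by
  have h : A = (fun n : ℕ => A (n : ℝ)) ∘ (fun x : ℝ => ⌊x⌋₊) := by
    funext x
    exact A_floor x
  rw [h]
  exact measurable_from_nat.comp Nat.measurable_floor

private theorem pow_exp_integrable {b : ℝ} (hb : 0 < b) (k : ℕ) :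
    IntegrableOn (fun y : ℝ => y ^ k * Real.exp (-b * y)) (Set.Ioi 0) := by
  have h := integrableOn_rpow_mul_exp_neg_mul_rpow (p := 1) (s := (k : ℝ)) (b := b)
    (by have : (0 : ℝ) ≤ k := Nat.cast_nonneg k
        linarith) one_pos hb
  refine h.congr_fun ?_ measurableSet_Ioi
  intro y _
  simp only [Real.rpow_natCast, Real.rpow_one]

/-- the bound `|A(e^y)| e^(-s0 y) e^(v y)` has a finite integral for `v < s0 - 1` -/
private theorem A_exp_integrable {s0 v : ℝ} (h : v < s0 - 1) (k : ℕ) :
    IntegrableOn (fun y : ℝ => A (Real.exp y) * Real.exp (-s0 * y) * Real.exp (v * y) * y ^ k)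
      (Set.Ioi 0) := by
  have hb : 0 < s0 - 1 - v := by linarith
  have h1 := ((pow_exp_integrable hb k).add (pow_exp_integrable hb (k + 1))).const_mul 2
  refine Integrable.mono' h1 ?_ ?_
  · refine Measurable.aestronglyMeasurable ?_
    exact (((A_measurable.comp Real.measurable_exp).mul
      (Real.measurable_exp.comp (measurable_const.mul measurable_id))).mul
      (Real.measurable_exp.comp (measurable_const.mul measurable_id))).mul
      (measurable_id.pow_const k)
  · refine (ae_restrict_iff' measurableSet_Ioi).2 (Filter.Eventually.of_forall ?_)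
    intro y hy
    have hy0 : 0 < y := hy
    have hA := A_bound hy0.le
    rw [Real.norm_eq_abs, abs_mul, abs_mul, abs_mul, Real.abs_exp, Real.abs_exp,
      abs_of_nonneg (pow_nonneg hy0.le k)]
    have e : Real.exp y * Real.exp (-s0 * y) * Real.exp (v * y) =
        Real.exp (-(s0 - 1 - v) * y) := by
      rw [← Real.exp_add, ← Real.exp_add]
      congr 1
      ring
    calc |A (Real.exp y)| * Real.exp (-s0 * y) * Real.exp (v * y) * y ^ k
        ≤ 2 * (1 + y) * Real.exp y * Real.exp (-s0 * y) * Real.exp (v * y) * y ^ k := by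
          gcongr
      _ = 2 * (1 + y) * (Real.exp y * Real.exp (-s0 * y) * Real.exp (v * y)) * y ^ k := by ring
      _ = 2 * (y ^ k * Real.exp (-(s0 - 1 - v) * y) +
            y ^ (k + 1) * Real.exp (-(s0 - 1 - v) * y)) := by
          rw [e]
          ring

/-- integrability of the integrand of `J` -/
theorem J_integrable {s0 : ℝ} (h : 1 < s0) (k : ℕ) :
    IntegrableOn (fun y : ℝ => A (Real.exp y) * Real.exp (-s0 * y) * y ^ k / (k.factorial : ℝ))
      (Set.Ioi 0) := by
  have h1 := (A_exp_integrable (s0 := s0) (v := 0) (by linarith) k).div_const (k.factorial : ℝ)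
  simp only [zero_mul, Real.exp_zero, mul_one] at h1
  exact h1

private theorem chiw_isBigO {r : ℝ} (hr : 1 < r) :
    (fun n ↦ ∑ k ∈ Icc 1 n, chiw k) =O[atTop] fun n : ℕ ↦ (n : ℝ) ^ r := by
  have h1 : (fun x : ℝ => 2 * (1 + Real.log x) * x) =O[atTop] fun x : ℝ => x ^ r := by
    have hl : Real.log =O[atTop] fun x : ℝ => x ^ (r - 1) :=
      (isLittleO_log_rpow_atTop (by linarith)).isBigO
    have hc : (fun _ : ℝ => (1 : ℝ)) =O[atTop] fun x : ℝ => x ^ (r - 1) := by
      refine Asymptotics.IsBigO.of_bound 1 ?_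
      filter_upwards [eventually_ge_atTop 1] with x hx
      rw [norm_one, one_mul, Real.norm_of_nonneg (by positivity)]
      exact Real.one_le_rpow hx (by linarith)
    have h2 := ((hc.add hl).const_mul_left 2).mul (Asymptotics.isBigO_refl (fun x : ℝ => x) atTop)
    refine h2.congr' (Filter.EventuallyEq.refl _ _) ?_
    filter_upwards [eventually_gt_atTop 0] with x hx
    rw [← Real.rpow_add_one hx.ne']
    congr 1
    ring
  have h3 : (fun n ↦ ∑ k ∈ Icc 1 n, chiw k) =O[atTop]
      fun n : ℕ ↦ 2 * (1 + Real.log (n : ℝ)) * (n : ℝ) := by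
    refine Asymptotics.IsBigO.of_bound 1 ?_
    filter_upwards [eventually_ge_atTop 1] with n hn
    have hn1 : (1 : ℝ) ≤ n := by exact_mod_cast hn
    have hn0 : (0 : ℝ) < n := by linarith
    have hA := A_bound (y := Real.log n) (Real.log_nonneg hn1)
    rw [Real.exp_log hn0] at hA
    have hAe := A_eq (n : ℝ)
    rw [Nat.floor_natCast] at hAe
    rw [← hAe, Complex.norm_real, Real.norm_eq_abs, one_mul]
    exact hA.trans (le_abs_self _)
  exact h3.trans (h1.comp_tendsto tendsto_natCast_atTop_atTop)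

theorem F_div_eq_integral {s : ℂ} (hs : 1 < s.re) :
    F s / s = ∫ y in Set.Ioi (0 : ℝ), (A (Real.exp y) : ℂ) * Complex.exp (-s * y) := by
  have hs0 : s ≠ 0 := by
    intro h
    rw [h] at hs
    norm_num at hs
  have h := LSeries_eq_mul_integral chiw (r := (1 + s.re) / 2) (by linarith) (s := s)
    (by linarith) (chiw_summable hs) (chiw_isBigO (by linarith))
  have hF : F s / s = ∫ t in Set.Ioi (1 : ℝ), (A t : ℂ) * (t : ℂ) ^ (-(s + 1)) := by
    unfold F
    rw [h, mul_div_assoc, mul_comm, div_mul_cancel₀ _ hs0]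
    simp only [A_eq]
  have himg : Real.exp '' Set.Ioi 0 = Set.Ioi 1 := by
    ext t
    constructor
    · rintro ⟨y, hy, rfl⟩
      exact Real.one_lt_exp_iff.2 hy
    · intro ht
      have ht1 : (1 : ℝ) < t := ht
      exact ⟨Real.log t, Real.log_pos ht1, Real.exp_log (by linarith)⟩
  rw [hF, ← himg, integral_image_eq_integral_abs_deriv_smul measurableSet_Ioi
    (fun x _ => (Real.hasDerivAt_exp x).hasDerivWithinAt) (Real.exp_injective.injOn)]
  refine setIntegral_congr_fun measurableSet_Ioi ?_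
  intro y _
  simp only
  rw [Real.abs_exp, Complex.real_smul, Complex.cpow_def_of_ne_zero
    (by exact_mod_cast (Real.exp_pos y).ne'), ← Complex.ofReal_log (Real.exp_pos y).le,
    Real.log_exp, Complex.ofReal_exp, mul_left_comm, ← Complex.exp_add]
  congr 2
  ring

private theorem summable_aux {s0 v : ℝ} (hv0 : 0 ≤ v) (hv : v < s0 - 1) (u : ℂ) (hu : ‖u‖ = v) :
    Summable fun k : ℕ => ∫ y in Set.Ioi (0 : ℝ),
      ‖((A (Real.exp y) * Real.exp (-s0 * y) * y ^ k / (k.factorial : ℝ) : ℝ) : ℂ) * u ^ k‖ := by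
  have hint : ∀ k : ℕ, IntegrableOn (fun y : ℝ =>
      ‖((A (Real.exp y) * Real.exp (-s0 * y) * y ^ k / (k.factorial : ℝ) : ℝ) : ℂ) * u ^ k‖)
      (Set.Ioi 0) := by
    intro k
    exact (((J_integrable (s0 := s0) (by linarith) k).ofReal (𝕜 := ℂ)).mul_const (u ^ k)).norm
  have hI := (A_exp_integrable (s0 := s0) (v := v) hv 0).norm
  refine summable_of_sum_le (c := ∫ y in Set.Ioi (0 : ℝ),
    ‖A (Real.exp y) * Real.exp (-s0 * y) * Real.exp (v * y) * y ^ 0‖)
    (fun k => integral_nonneg fun y => norm_nonneg _) ?_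
  intro S
  rw [← integral_finsetSum S (fun k _ => hint k)]
  refine setIntegral_mono_on (integrable_finsetSum S fun k _ => hint k) hI measurableSet_Ioi ?_
  intro y hy
  have hy0 : 0 < y := hy
  have hterm : ∀ k : ℕ,
      ‖((A (Real.exp y) * Real.exp (-s0 * y) * y ^ k / (k.factorial : ℝ) : ℝ) : ℂ) * u ^ k‖ =
      |A (Real.exp y)| * Real.exp (-s0 * y) * ((v * y) ^ k / (k.factorial : ℝ)) := by
    intro k
    rw [norm_mul, norm_pow, hu, Complex.norm_real, Real.norm_eq_abs, abs_div, abs_mul, abs_mul,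
      Real.abs_exp, abs_of_nonneg (pow_nonneg hy0.le k), Nat.abs_cast, mul_pow]
    ring
  simp only [hterm]
  rw [← Finset.mul_sum, pow_zero, mul_one, Real.norm_eq_abs, abs_mul, abs_mul, Real.abs_exp,
    Real.abs_exp]
  refine mul_le_mul_of_nonneg_left ?_ (by positivity)
  have hs := NormedSpace.expSeries_div_hasSum_exp (v * y)
  rw [← Real.exp_eq_exp_ℝ] at hs
  exact sum_le_hasSum S (fun k _ => by positivity) hs

theorem J_eq {s0 : ℝ} (h : 1 < s0) (k : ℕ) :
    (J s0 k : ℂ) = PowerSeries.coeff k (T (s0 : ℂ) (fun s => F s / s)) := by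
  symm
  refine T_unique (r := (s0 - 1) / 2) (by linarith) (a := fun k => (J s0 k : ℂ)) ?_ k
  intro s hs
  obtain ⟨u, hu⟩ : ∃ u : ℂ, u = (s0 : ℂ) - s := ⟨_, rfl⟩
  have hnorm : ‖u‖ < (s0 - 1) / 2 := by
    rw [hu, ← dist_eq_norm, dist_comm]
    exact hs
  have hre : 1 < s.re := by
    have h1 : |u.re| ≤ ‖u‖ := Complex.abs_re_le_norm u
    have h2 : u.re = s0 - s.re := by rw [hu]; simp
    rw [h2] at h1
    have := (abs_le.1 h1).2
    linarith
  have hFint : ∀ k : ℕ, Integrable (fun y : ℝ =>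
      ((A (Real.exp y) * Real.exp (-s0 * y) * y ^ k / (k.factorial : ℝ) : ℝ) : ℂ) * u ^ k)
      (volume.restrict (Set.Ioi 0)) := fun k =>
    ((J_integrable h k).ofReal (𝕜 := ℂ)).mul_const (u ^ k)
  have hsum := hasSum_integral_of_summable_integral_norm hFint
    (summable_aux (norm_nonneg u) (by linarith [norm_nonneg u]) u rfl)
  have e1 : ∀ k : ℕ, ∫ y in Set.Ioi (0 : ℝ),
      ((A (Real.exp y) * Real.exp (-s0 * y) * y ^ k / (k.factorial : ℝ) : ℝ) : ℂ) * u ^ k =
      (J s0 k : ℂ) * ((s0 : ℂ) - s) ^ k := by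
    intro k
    rw [integral_mul_const, ← hu]
    congr 1
    unfold J
    exact integral_ofReal
  have e2 : ∫ y in Set.Ioi (0 : ℝ), (∑' k : ℕ,
      ((A (Real.exp y) * Real.exp (-s0 * y) * y ^ k / (k.factorial : ℝ) : ℝ) : ℂ) * u ^ k) =
      F s / s := by
    rw [F_div_eq_integral hre]
    refine setIntegral_congr_fun measurableSet_Ioi ?_
    intro y _
    simp only
    have h3 : ∀ k : ℕ,
        ((A (Real.exp y) * Real.exp (-s0 * y) * y ^ k / (k.factorial : ℝ) : ℝ) : ℂ) * u ^ k =
        (A (Real.exp y) : ℂ) * Complex.exp (-(s0 : ℂ) * y) *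
          ((u * y) ^ k / (k.factorial : ℂ)) := by
      intro k
      push_cast
      rw [mul_pow]
      ring
    simp only [h3]
    rw [tsum_mul_left]
    have h4 := (NormedSpace.expSeries_div_hasSum_exp (u * (y : ℂ))).tsum_eq
    rw [← Complex.exp_eq_exp_ℂ] at h4
    rw [h4, mul_assoc, ← Complex.exp_add, hu]
    congr 2
    ring
  rw [e2] at hsum
  simp only [e1] at hsum
  exact hsum

end Pool.OMG
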