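import Pool.Agent.OMG.Ser

/-!
# OMG FACT: factor out a pair of conjugate zeros

`Lf` is entire, not identically zero, so its order `m` at `rho` is finite
(`AnalyticAt.analyticOrderAt_eq_top`, identity theorem; `Lf 1 != 0` by `Lf_real_ne`). Let
`q(s) = (s-rho)(s-conj rho)`. If `f` is entire and vanishes at `rho` and at `conj rho != rho`, then
`f = q g` with `g` entire (twice `dslope`: `dslope f rho` is entire and vanishes at `conj rho`).
Iterate while `g(rho) = 0`: `g(conj s) = conj (g s)` is preserved (for `s` off the two points, then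
by continuity), so `g(rho) = 0` iff `g(conj rho) = 0`; the iteration stops after at most `order`
many steps since each step lowers the order at `rho` by one. At the end both values are nonzero,
and `m >= 1` because `Lf rho = 0`.
-/

set_option autoImplicit false

open Complex Finset Filter Topology MeasureTheory

namespace Pool.OMG

/-- One step: an entire function with real coefficients which vanishes at the non-real point `ρ` is
divisible by `(s - ρ)(s - conj ρ)`. -/
private theorem factor_step {ρ : ℂ} (him : ρ.im ≠ 0) {f : ℂ → ℂ} (hf : Differentiable ℂ f)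
    (hc : ∀ s, f ((starRingEnd ℂ) s) = (starRingEnd ℂ) (f s)) (h0 : f ρ = 0) :
    ∃ g : ℂ → ℂ, Differentiable ℂ g ∧
      (∀ s, f s = ((s - ρ) * (s - (starRingEnd ℂ) ρ)) * g s) ∧
      ∀ s, g ((starRingEnd ℂ) s) = (starRingEnd ℂ) (g s) := by
  have hne : (starRingEnd ℂ) ρ ≠ ρ := fun h => him (Complex.conj_eq_iff_im.1 h)
  have hd : ∀ (u : ℂ → ℂ) (a : ℂ), Differentiable ℂ u → Differentiable ℂ (dslope u a) := by
    intro u a hu
    have h1 := (Complex.differentiableOn_dslope (f := u) (s := Set.univ) (c := a)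
      Filter.univ_mem).2 hu.differentiableOn
    exact differentiableOn_univ.1 h1
  set g1 := dslope f ρ with hg1
  have e1 : ∀ s, f s = (s - ρ) * g1 s := by
    intro s
    have h1 := sub_smul_dslope f ρ s
    rw [h0, sub_zero, smul_eq_mul] at h1
    exact h1.symm
  have h0' : g1 ((starRingEnd ℂ) ρ) = 0 := by
    have h1 := e1 ((starRingEnd ℂ) ρ)
    rw [hc ρ, h0, map_zero] at h1
    exact (mul_eq_zero.1 h1.symm).resolve_left (sub_ne_zero.2 hne)
  set g := dslope g1 ((starRingEnd ℂ) ρ) with hg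
  have hgd : Differentiable ℂ g := hd _ _ (hd _ _ hf)
  have e2 : ∀ s, f s = ((s - ρ) * (s - (starRingEnd ℂ) ρ)) * g s := by
    intro s
    have h1 := sub_smul_dslope g1 ((starRingEnd ℂ) ρ) s
    rw [h0', sub_zero, smul_eq_mul] at h1
    rw [e1 s, ← h1, mul_assoc]
  refine ⟨g, hgd, e2, ?_⟩
  have hdense : Dense (({ρ, (starRingEnd ℂ) ρ} : Set ℂ)ᶜ) :=
    Set.Countable.dense_compl ℂ (Set.toFinite _).countable
  have hcont1 : Continuous (fun s : ℂ => g ((starRingEnd ℂ) s)) :=
    hgd.continuous.comp Complex.continuous_conj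
  have hcont2 : Continuous (fun s : ℂ => (starRingEnd ℂ) (g s)) :=
    Complex.continuous_conj.comp hgd.continuous
  have heq : (fun s : ℂ => g ((starRingEnd ℂ) s)) = fun s : ℂ => (starRingEnd ℂ) (g s) := by
    refine Continuous.ext_on hdense hcont1 hcont2 fun s hs => ?_
    have hs1 : s ≠ ρ := fun h => hs (by simp [h])
    have hs2 : s ≠ (starRingEnd ℂ) ρ := fun h => hs (by simp [h])
    have h1 := e2 ((starRingEnd ℂ) s)
    rw [hc s, e2 s, map_mul, map_mul, map_sub, map_sub, Complex.conj_conj] at h1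
    have h2 : (starRingEnd ℂ) s - (starRingEnd ℂ) ρ ≠ 0 := by
      rw [← map_sub]
      exact (map_ne_zero _).2 (sub_ne_zero.2 hs1)
    have h3 : (starRingEnd ℂ) s - ρ ≠ 0 := by
      intro h
      apply hs2
      rw [← sub_eq_zero.1 h, Complex.conj_conj]
    have h4 : ((starRingEnd ℂ) s - ρ) * ((starRingEnd ℂ) s - (starRingEnd ℂ) ρ) ≠ 0 :=
      mul_ne_zero h3 h2
    have h5 : ((starRingEnd ℂ) s - ρ) * ((starRingEnd ℂ) s - (starRingEnd ℂ) ρ)
        * g ((starRingEnd ℂ) s)
        = ((starRingEnd ℂ) s - ρ) * ((starRingEnd ℂ) s - (starRingEnd ℂ) ρ)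
        * (starRingEnd ℂ) (g s) := by
      rw [← h1]; ring
    exact mul_left_cancel₀ h4 h5
  intro s
  exact congrFun heq s

theorem factor {ρ : ℂ} (him : ρ.im ≠ 0) (h0 : Lf ρ = 0) : ∃ (m : ℕ) (g : ℂ → ℂ), 1 ≤ m ∧
    Differentiable ℂ g ∧ (∀ s, Lf s = ((s - ρ) * (s - (starRingEnd ℂ) ρ)) ^ m * g s) ∧
    (∀ s, g ((starRingEnd ℂ) s) = (starRingEnd ℂ) (g s)) ∧
    g ρ ≠ 0 ∧ g ((starRingEnd ℂ) ρ) ≠ 0 := by
  classical
  have han : AnalyticOnNhd ℂ Lf Set.univ := fun z _ =>
    Lf_differentiable.analyticAt z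
  have htop : analyticOrderAt Lf ρ ≠ ⊤ := by
    rw [Ne, analyticOrderAt_eq_top]
    intro h
    have h1 := han.eqOn_zero_of_preconnected_of_eventuallyEq_zero isPreconnected_univ
      (Set.mem_univ ρ) h
    have h2 : Lf ((1 : ℝ) : ℂ) = 0 := h1 (Set.mem_univ _)
    exact Lf_real_ne one_pos h2
  obtain ⟨N, hN⟩ := ENat.ne_top_iff_exists.1 htop
  let Q : ℕ → Prop := fun m => ∃ g : ℂ → ℂ, Differentiable ℂ g ∧
    (∀ s, Lf s = ((s - ρ) * (s - (starRingEnd ℂ) ρ)) ^ m * g s) ∧
    (∀ s, g ((starRingEnd ℂ) s) = (starRingEnd ℂ) (g s))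
  have hQ0 : Q 0 := ⟨Lf, Lf_differentiable, fun s => by simp, Lf_conj⟩
  have hstep : ∀ m, ∀ g : ℂ → ℂ, Differentiable ℂ g →
      (∀ s, Lf s = ((s - ρ) * (s - (starRingEnd ℂ) ρ)) ^ m * g s) →
      (∀ s, g ((starRingEnd ℂ) s) = (starRingEnd ℂ) (g s)) → g ρ = 0 → Q (m + 1) := by
    intro m g hg h1 h2 h3
    obtain ⟨g', hg', h4, h5⟩ := factor_step him hg h2 h3
    refine ⟨g', hg', fun s => ?_, h5⟩
    rw [h1 s, h4 s, pow_succ]
    ring
  have hbound : ∀ m, Q m → m ≤ N := by
    rintro m ⟨g, hg, h1, -⟩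
    have h2 : (m : ℕ∞) ≤ analyticOrderAt Lf ρ := by
      rw [natCast_le_analyticOrderAt (han ρ (Set.mem_univ ρ))]
      refine ⟨fun s => (s - (starRingEnd ℂ) ρ) ^ m * g s, ?_, ?_⟩
      · exact (((differentiable_id.sub_const _).pow m).mul hg).analyticAt ρ
      · refine Filter.Eventually.of_forall fun s => ?_
        rw [h1 s, mul_pow, smul_eq_mul, mul_assoc]
    rw [← hN] at h2
    exact_mod_cast h2
  set m := Nat.findGreatest Q N with hm
  have hQm : Q m := Nat.findGreatest_spec (P := Q) (Nat.zero_le N) hQ0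
  have hmax : ¬ Q (m + 1) := by
    intro h
    have h1 : m + 1 ≤ m := Nat.le_findGreatest (hbound _ h) h
    omega
  obtain ⟨g, hg, h1, h2⟩ := hQm
  have hgρ : g ρ ≠ 0 := fun h => hmax (hstep m g hg h1 h2 h)
  refine ⟨m, g, ?_, hg, h1, h2, hgρ, ?_⟩
  · by_contra hlt
    have hm0 : m = 0 := by omega
    have h3 := h1 ρ
    rw [hm0, pow_zero, one_mul, h0] at h3
    exact hgρ h3.symm
  · rw [h2 ρ]
    exact (map_ne_zero _).2 hgρ

end Pool.OMG
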