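import Pool.Agent.OMG.CaseA
import Pool.Agent.OMG.Fact
import Pool.Agent.OMG.Int

/-!
# OMG CASE B: the nearest singularities are one pair of zeros `rho, conj rho`

Write `c = s0`, `u1 = c - rho`, `w = 1/u1`, `R0 = |u1| < r = s0 - 1/2`, and `m, g` from `factor`.
`rho' = conj rho`, `w' = conj w = 1/(c - rho')`, `|w'| = |w| = 1/R0`.

`pB`: on `ball c R1` (contained in `Re s > 1/2`, since `R1 <= s0 - 1/2`), `g != 0` (by `factor` and
the definition of Case B), so `L'/L = m/(s-rho) + m/(s-rho') + g'/g` there (off the two points),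
and `P' = m/(s-rho) + m/(s-rho') + a(s)` near `c` with `a = g'/g + (1/2)/(s-1/2) + K` holomorphic
on `ball c R1`. Hence (`T_deriv`, `T_inv`) `coeff (k+1) (T c P) = -(m w^(k+1) + m w'^(k+1) +
a_k)/(k+1)`, i.e. `T c P = m rescale w (lam 0) + m rescale w' (lam 0) + h`, where `h_0 = P(c)`,
`h_(k+1) = -a_k/(k+1)`, `|h_k| <= C (1/q)^k` for some `q` with `R0 < q < R1`.

`caseB_asy`: `J = T(F/s) = T(Lf/s) T(P)` (`J_eq`, `F_eq`, `T_congr`, `T_mul`), and
`T(Lf/s) = T(s-rho)^m T(s-rho')^m T(g/s)`, `T(s-rho) = C u1 - X = C u1 (1 - w X)`. So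
`J = m T(G1) rescale w (lam m) + m T(G2) rescale w' (lam m) + T(Lf/s) h` with
`G1(s) = u1^m (s-rho')^m g(s)/s`, `G2(s) = u1'^m (s-rho)^m g(s)/s`
(`rescale w ((1-X)^m) = (1-wX)^m`), `G1, G2` holomorphic on `ball c c`, `G1(rho) != 0` since
`rho != rho'`, `g(rho) != 0`. `asy_conv` (with `m+1`, `lam_rescale_asy`, `T_hasSum` at `rho`, `w⁻¹ =
u1 = c - rho`): the first product is `w^k k^(-m-1) ((-1)^(m+1) m! G1(rho) + o(1))`, the second the
same with `w', G2(rho') = conj G1(rho)`, the third is negligible (`bd_mul`, `negl`; `T(Lf/s)` is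
bounded by `C (1/q)^k` for any `q < c`, `R0 < c`). Multiply by `k^(m+1) R0^k`:
`k^(m+1) J_k R0^k = 2 Re(m (-1)^(m+1) m! G1(rho) (w R0)^k) + o(1)`. So take exponent `m+1`,
`C = 2 m (-1)^(m+1) m! G1(rho)`, `om = w R0`; `|om| = 1`, `om^2 != 1` since `u1` is neither real
(`Im rho != 0`). The limit statement is about reals: take real parts, `J` is real.
-/

set_option autoImplicit false

open Complex Finset Filter Topology MeasureTheory PowerSeries

namespace Pool.OMG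

private theorem logderiv_aux {ρ ρ' : ℂ} {m : ℕ} {g : ℂ → ℂ} (hg : Differentiable ℂ g)
    (hfac : ∀ s, Lf s = ((s - ρ) * (s - ρ')) ^ m * g s) {s : ℂ} (h1 : s ≠ ρ) (h2 : s ≠ ρ')
    (h3 : g s ≠ 0) :
    deriv Lf s / Lf s = (m : ℂ) / (s - ρ) + (m : ℂ) / (s - ρ') + deriv g s / g s := by
  have e1 : s - ρ ≠ 0 := sub_ne_zero.mpr h1
  have e2 : s - ρ' ≠ 0 := sub_ne_zero.mpr h2
  have hL : Lf = fun s => ((s - ρ) * (s - ρ')) ^ m * g s := funext hfac
  have d1 : HasDerivAt (fun s : ℂ => s - ρ) 1 s := (hasDerivAt_id s).sub_const ρ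
  have d2 : HasDerivAt (fun s : ℂ => s - ρ') 1 s := (hasDerivAt_id s).sub_const ρ'
  have d3 : HasDerivAt g (deriv g s) s := (hg s).hasDerivAt
  have d4 : HasDerivAt Lf ((m : ℂ) * ((s - ρ) * (s - ρ')) ^ (m - 1) *
      (1 * (s - ρ') + (s - ρ) * 1) * g s + ((s - ρ) * (s - ρ')) ^ m * deriv g s) s := by
    rw [hL]
    exact ((d1.mul d2).pow m).mul d3
  rw [d4.deriv, hfac s]
  rcases Nat.eq_zero_or_pos m with hm | hm
  · subst hm
    simp
  · obtain ⟨n, rfl⟩ : ∃ n, m = n + 1 := ⟨m - 1, by omega⟩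
    have : (n + 1 - 1) = n := by omega
    rw [this]
    field_simp
    ring

theorem pB {s0 : ℝ} (h1 : 1 < s0) {ρ : ℂ} {R1 : ℝ} (him : ρ.im ≠ 0)
    (hd : dist ρ (s0 : ℂ) < R1) (hR1 : R1 ≤ s0 - 1 / 2) (h0 : Lf ρ = 0)
    (hz : ∀ s ∈ Metric.ball (s0 : ℂ) R1, Lf s = 0 → s = ρ ∨ s = (starRingEnd ℂ) ρ)
    {m : ℕ} {g : ℂ → ℂ} (hm : 1 ≤ m) (hg : Differentiable ℂ g)
    (hfac : ∀ s, Lf s = ((s - ρ) * (s - (starRingEnd ℂ) ρ)) ^ m * g s)
    (hgρ : g ρ ≠ 0) (hgρ' : g ((starRingEnd ℂ) ρ) ≠ 0) :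
    ∃ (h : PowerSeries ℂ) (C q : ℝ), dist ρ (s0 : ℂ) < q ∧ (∀ k, ‖coeff k h‖ ≤ C * (1 / q) ^ k) ∧
      T (s0 : ℂ) P = (m : PowerSeries ℂ) * rescale (1 / ((s0 : ℂ) - ρ)) (lam 0) +
        (m : PowerSeries ℂ) * rescale (1 / ((s0 : ℂ) - (starRingEnd ℂ) ρ)) (lam 0) + h := by
  obtain ⟨U, hUo, hU, K, hK, hP⟩ := P_deriv_rep
  set ρ' := (starRingEnd ℂ) ρ with hρ'
  have him' : ρ'.im ≠ 0 := by
    rw [hρ', Complex.conj_im]; exact neg_ne_zero.mpr him
  have hcρ : (s0 : ℂ) ≠ ρ := by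
    intro h; apply him; rw [← h]; simp
  have hcρ' : (s0 : ℂ) ≠ ρ' := by
    intro h; apply him'; rw [← h]; simp
  have hre : ∀ s ∈ Metric.ball (s0 : ℂ) R1, 1 / 2 < s.re := by
    intro s hs
    rw [Metric.mem_ball, Complex.dist_eq] at hs
    have := Complex.abs_re_le_norm (s - s0)
    rw [Complex.sub_re, Complex.ofReal_re] at this
    have h2 := abs_le.mp this
    linarith [h2.1]
  have hgne : ∀ s ∈ Metric.ball (s0 : ℂ) R1, g s ≠ 0 := by
    intro s hs h
    have hL : Lf s = 0 := by rw [hfac, h, mul_zero]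
    rcases hz s hs hL with h' | h'
    · rw [h'] at h; exact hgρ h
    · rw [h'] at h; exact hgρ' h
  set a : ℂ → ℂ := fun s => deriv g s / g s + (1 / 2) / (s - 1 / 2) + K s with ha
  have hda : DifferentiableOn ℂ a (Metric.ball (s0 : ℂ) R1) := by
    have hdg : Differentiable ℂ (deriv g) := fun z => (hg.analyticAt z).deriv.differentiableAt
    refine DifferentiableOn.add (DifferentiableOn.add ?_ ?_) ?_
    · exact hdg.differentiableOn.div hg.differentiableOn hgne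
    · refine DifferentiableOn.div (differentiableOn_const _) (by fun_prop) ?_
      intro s hs h
      have h2 : s = 1 / 2 := by linear_combination h
      have h3 := hre s hs
      rw [h2] at h3
      norm_num at h3
    · refine hK.mono ?_
      intro s hs
      exact hU (le_of_lt (hre s hs))
  have hR1pos : 0 < R1 := lt_of_le_of_lt dist_nonneg hd
  have hcball : (s0 : ℂ) ∈ Metric.ball (s0 : ℂ) R1 := Metric.mem_ball_self hR1pos
  have haa : AnalyticAt ℂ a s0 := hda.analyticAt (Metric.isOpen_ball.mem_nhds hcball)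
  have hev : deriv P =ᶠ[𝓝 (s0 : ℂ)] fun s => ((m : ℂ) / (s - ρ) + (m : ℂ) / (s - ρ')) + a s := by
    have e1 : ∀ᶠ s in 𝓝 (s0 : ℂ), 1 < s.re :=
      (isOpen_lt continuous_const Complex.continuous_re).mem_nhds (by simpa using h1)
    have e2 : ∀ᶠ s in 𝓝 (s0 : ℂ), s ∈ Metric.ball (s0 : ℂ) R1 :=
      Metric.isOpen_ball.mem_nhds hcball
    have e3 : ∀ᶠ s in 𝓝 (s0 : ℂ), s ≠ ρ := isOpen_ne.mem_nhds hcρ
    have e4 : ∀ᶠ s in 𝓝 (s0 : ℂ), s ≠ ρ' := isOpen_ne.mem_nhds hcρ'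
    filter_upwards [e1, e2, e3, e4] with s h1 h2 h3 h4
    rw [hP s h1, logderiv_aux hg hfac h3 h4 (hgne s h2), ha]
    ring
  have hT : ∀ k, coeff k (T (s0 : ℂ) (deriv P)) =
      (m : ℂ) * (1 / ((s0 : ℂ) - ρ)) ^ (k + 1) + (m : ℂ) * (1 / ((s0 : ℂ) - ρ')) ^ (k + 1) +
        coeff k (T (s0 : ℂ) a) := by
    intro k
    have A1 : AnalyticAt ℂ (fun s : ℂ => (m : ℂ) / (s - ρ)) s0 :=
      analyticAt_const.div (analyticAt_id.sub analyticAt_const) (sub_ne_zero.mpr hcρ)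
    have A2 : AnalyticAt ℂ (fun s : ℂ => (m : ℂ) / (s - ρ')) s0 :=
      analyticAt_const.div (analyticAt_id.sub analyticAt_const) (sub_ne_zero.mpr hcρ')
    have A3 : AnalyticAt ℂ (fun s : ℂ => (m : ℂ) / (s - ρ) + (m : ℂ) / (s - ρ')) s0 := A1.add A2
    rw [T_congr hev, T_add A3 haa, T_add A1 A2, map_add, map_add, T_inv hcρ, T_inv hcρ']
  obtain ⟨q, hq1, hq2⟩ := exists_between hd
  have hqpos : 0 < q := lt_of_le_of_lt dist_nonneg hq1
  obtain ⟨C, hC⟩ := T_bound hda hqpos hq2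
  have hC0 : 0 ≤ C := by
    have := hC 0
    simp only [pow_zero, mul_one] at this
    exact le_trans (norm_nonneg _) this
  set h : PowerSeries ℂ := T (s0 : ℂ) P - (m : PowerSeries ℂ) * rescale (1 / ((s0 : ℂ) - ρ)) (lam 0) -
        (m : PowerSeries ℂ) * rescale (1 / ((s0 : ℂ) - ρ')) (lam 0) with hh
  have hmc : (m : PowerSeries ℂ) = PowerSeries.C (m : ℂ) := by simp
  have hcoef : ∀ k, coeff (k + 1) h = - coeff k (T (s0 : ℂ) a) / ((k : ℂ) + 1) := by
    intro k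
    have hk : ((k : ℂ) + 1) ≠ 0 := by exact_mod_cast Nat.succ_ne_zero k
    rw [hh, map_sub, map_sub, T_deriv, hT k, hmc, coeff_C_mul, coeff_C_mul, coeff_rescale,
      coeff_rescale]
    have hl : coeff (k + 1) (lam 0) = -1 / ((k : ℂ) + 1) := by
      rw [lam, pow_zero, one_mul, coeff_mk]
      push_cast
      ring
    rw [hl]
    field_simp
    ring
  refine ⟨h, max ‖coeff 0 h‖ (C * q), q, hq1, ?_, ?_⟩
  · intro k
    rcases k with _ | k
    · simp
    · rw [hcoef, norm_div, norm_neg]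
      have hk1 : (1 : ℝ) ≤ ‖((k : ℂ) + 1)‖ := by
        have : ((k : ℂ) + 1) = ((k + 1 : ℕ) : ℂ) := by push_cast; ring
        rw [this, Complex.norm_natCast]
        exact_mod_cast Nat.succ_le_succ (Nat.zero_le k)
      calc ‖coeff k (T (s0 : ℂ) a)‖ / ‖((k : ℂ) + 1)‖ ≤ ‖coeff k (T (s0 : ℂ) a)‖ :=
            div_le_self (norm_nonneg _) hk1
        _ ≤ C * (1 / q) ^ k := hC k
        _ = (C * q) * (1 / q) ^ (k + 1) := by
            rw [pow_succ]; field_simp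
        _ ≤ _ := mul_le_mul_of_nonneg_right (le_max_right _ _) (by positivity)
  · rw [hh]; ring

private theorem rescale_lam (m : ℕ) {u : ℂ} (hu : u ≠ 0) :
    (C u - X) ^ m * rescale (1 / u) (lam 0) = C (u ^ m) * rescale (1 / u) (lam m) := by
  have h1 : (C u - X : PowerSeries ℂ) = C u * rescale (1 / u) (1 - X) := by
    ext k
    rw [coeff_C_mul, coeff_rescale, map_sub, map_sub, coeff_C, coeff_one, coeff_X]
    rcases k with _ | _ | k
    · simp
    · simp [hu]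
    · simp
  have h2 : lam m = (1 - X) ^ m * lam 0 := by
    rw [lam, lam, pow_zero, one_mul]
  rw [h2, h1, map_mul, mul_pow, map_pow (rescale (1 / u)), map_pow PowerSeries.C, mul_assoc]

private theorem main_term {c ρ : ℂ} {G : ℂ → ℂ} {R : ℝ} (m : ℕ) (hcρ : c ≠ ρ)
    (hG : DifferentiableOn ℂ G (Metric.ball c R)) (hR : dist ρ c < R) :
    Tendsto (fun k : ℕ => (k : ℂ) ^ (m + 1) *
        coeff k (T c G * rescale (1 / (c - ρ)) (lam m)) / (1 / (c - ρ)) ^ k) atTop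
      (𝓝 (((-1) ^ (m + 1) * (m.factorial : ℂ)) * G ρ)) := by
  have hne : c - ρ ≠ 0 := sub_ne_zero.mpr hcρ
  have hw : (1 / (c - ρ)) ≠ 0 := one_div_ne_zero hne
  obtain ⟨q, hq1, hq2⟩ := exists_between hR
  have hqpos : 0 < q := lt_of_le_of_lt dist_nonneg hq1
  obtain ⟨C, hC⟩ := T_bound hG hqpos hq2
  have hn : (0 : ℝ) < ‖c - ρ‖ := norm_pos_iff.mpr hne
  have hq3 : ‖c - ρ‖ < q := by
    rw [dist_comm, Complex.dist_eq] at hq1; exact hq1
  refine asy_conv (m + 1) (T c G) _ _ _ hw (lam_rescale_asy m _ hw) C (1 / q) (by positivity) ?_ hC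
    (G ρ) ?_
  · rw [norm_div, norm_one]
    exact one_div_lt_one_div_of_lt hn hq3
  · have := T_hasSum hG (s := ρ) (Metric.mem_ball.mpr hR)
    simpa using this

theorem caseB_asy {s0 : ℝ} (h1 : 1 < s0) (hB : CaseB s0) :
    ∃ (m : ℕ) (R0 : ℝ) (C w : ℂ), 0 < R0 ∧ R0 < s0 - 1 / 2 ∧ C ≠ 0 ∧ ‖w‖ = 1 ∧ w ^ 2 ≠ 1 ∧
      Tendsto (fun k : ℕ => (k : ℝ) ^ m * J s0 k * R0 ^ k - (C * w ^ k).re) atTop (𝓝 0) := by
  obtain ⟨ρ, R1, him, hre, hd, hR1, h0, hz⟩ := hB
  obtain ⟨m, g, hm, hg, hfac, hconj, hgρ, hgρ'⟩ := factor him h0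
  obtain ⟨h, B, q, hq, hB, hTP⟩ := pB h1 him hd hR1 h0 hz hm hg hfac hgρ hgρ'
  set ρ' := (starRingEnd ℂ) ρ with hρ'
  have him' : ρ'.im ≠ 0 := by
    rw [hρ', Complex.conj_im]; exact neg_ne_zero.mpr him
  have hcρ : (s0 : ℂ) ≠ ρ := by
    intro h; apply him; rw [← h]; simp
  have hcρ' : (s0 : ℂ) ≠ ρ' := by
    intro h; apply him'; rw [← h]; simp
  have hρρ' : ρ ≠ ρ' := by
    intro h
    have := congrArg Complex.im h
    rw [hρ', Complex.conj_im] at this
    apply him; linarith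
  have hne1 : (s0 : ℂ) - ρ ≠ 0 := sub_ne_zero.mpr hcρ
  have hne1' : (s0 : ℂ) - ρ' ≠ 0 := sub_ne_zero.mpr hcρ'
  have hρ0 : ρ ≠ 0 := by
    intro h; apply him; rw [h]; simp
  have hρ'0 : ρ' ≠ 0 := by
    intro h; apply him'; rw [h]; simp
  set R0 : ℝ := ‖(s0 : ℂ) - ρ‖ with hR0
  have hR0pos : 0 < R0 := norm_pos_iff.mpr hne1
  have hdR0 : dist ρ (s0 : ℂ) = R0 := by rw [dist_comm, Complex.dist_eq]
  have hconjc : (starRingEnd ℂ) ((s0 : ℂ) - ρ) = (s0 : ℂ) - ρ' := by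
    rw [map_sub, Complex.conj_ofReal]
  have hR0' : ‖(s0 : ℂ) - ρ'‖ = R0 := by
    rw [← hconjc, Complex.norm_conj]
  have hdR0' : dist ρ' (s0 : ℂ) = R0 := by rw [dist_comm, Complex.dist_eq, hR0']
  have hs0R : R0 < s0 := by rw [hdR0] at hd; linarith
  -- the ball `ball c c` avoids zero
  have hball : ∀ s ∈ Metric.ball (s0 : ℂ) s0, s ≠ 0 := by
    intro s hs h
    rw [h, Metric.mem_ball, Complex.dist_eq, zero_sub, norm_neg, Complex.norm_real,
      Real.norm_eq_abs, abs_of_pos (by linarith)] at hs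
    exact lt_irrefl _ hs
  set G1 : ℂ → ℂ := fun s => (s - ρ') ^ m * g s / s with hG1
  set G2 : ℂ → ℂ := fun s => (s - ρ) ^ m * g s / s with hG2
  have dG1 : DifferentiableOn ℂ G1 (Metric.ball (s0 : ℂ) s0) :=
    ((((differentiable_id.sub_const ρ').pow m).mul hg).differentiableOn).div differentiableOn_id hball
  have dG2 : DifferentiableOn ℂ G2 (Metric.ball (s0 : ℂ) s0) :=
    ((((differentiable_id.sub_const ρ).pow m).mul hg).differentiableOn).div differentiableOn_id hball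
  have dL : DifferentiableOn ℂ (fun s => Lf s / s) (Metric.ball (s0 : ℂ) s0) :=
    Lf_differentiable.differentiableOn.div differentiableOn_id hball
  have hcb : (s0 : ℂ) ∈ Metric.ball (s0 : ℂ) s0 := Metric.mem_ball_self (by linarith)
  have aG1 : AnalyticAt ℂ G1 s0 := dG1.analyticAt (Metric.isOpen_ball.mem_nhds hcb)
  have aG2 : AnalyticAt ℂ G2 s0 := dG2.analyticAt (Metric.isOpen_ball.mem_nhds hcb)
  have aL : AnalyticAt ℂ (fun s => Lf s / s) s0 := dL.analyticAt (Metric.isOpen_ball.mem_nhds hcb)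
  have aP : AnalyticAt ℂ P s0 :=
    P_differentiable.analyticAt
      ((isOpen_lt continuous_const Complex.continuous_re).mem_nhds (by simpa using h1))
  -- powers
  have Tpow : ∀ (σ : ℂ) (n : ℕ), T (s0 : ℂ) (fun s => (s - σ) ^ n) = (PowerSeries.C ((s0 : ℂ) - σ) - X) ^ n := by
    intro σ n
    induction n with
    | zero => simp only [pow_zero]; rw [T_const]; simp
    | succ n ih =>
      have e : (fun s : ℂ => (s - σ) ^ (n + 1)) = fun s => (s - σ) ^ n * (s - σ) := by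
        funext s; rw [pow_succ]
      rw [e, T_mul (by fun_prop) (by fun_prop), ih, T_sub, pow_succ]
  have TL1 : T (s0 : ℂ) (fun s => Lf s / s) = (PowerSeries.C ((s0 : ℂ) - ρ) - X) ^ m * T (s0 : ℂ) G1 := by
    have e : (fun s => Lf s / s) = fun s => (s - ρ) ^ m * G1 s := by
      funext s; rw [hfac, hG1]; simp only [mul_pow]; ring
    rw [e, T_mul (by fun_prop) aG1, Tpow]
  have TL2 : T (s0 : ℂ) (fun s => Lf s / s) = (PowerSeries.C ((s0 : ℂ) - ρ') - X) ^ m * T (s0 : ℂ) G2 := by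
    have e : (fun s => Lf s / s) = fun s => (s - ρ') ^ m * G2 s := by
      funext s; rw [hfac, hG2]; simp only [mul_pow]; ring
    rw [e, T_mul (by fun_prop) aG2, Tpow]
  have hJ : ∀ k, (J s0 k : ℂ) = coeff k (T (s0 : ℂ) (fun s => Lf s / s) * T (s0 : ℂ) P) := by
    intro k
    rw [J_eq h1]
    have hev : (fun s => F s / s) =ᶠ[𝓝 (s0 : ℂ)] fun s => (Lf s / s) * P s := by
      have e1 : ∀ᶠ s in 𝓝 (s0 : ℂ), 1 < s.re :=
        (isOpen_lt continuous_const Complex.continuous_re).mem_nhds (by simpa using h1)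
      filter_upwards [e1] with s hs
      rw [F_eq hs]; ring
    rw [T_congr hev, T_mul aL aP]
  have hdec : T (s0 : ℂ) (fun s => Lf s / s) * T (s0 : ℂ) P =
      PowerSeries.C ((m : ℂ) * ((s0 : ℂ) - ρ) ^ m) *
          (T (s0 : ℂ) G1 * rescale (1 / ((s0 : ℂ) - ρ)) (lam m)) +
        PowerSeries.C ((m : ℂ) * ((s0 : ℂ) - ρ') ^ m) *
          (T (s0 : ℂ) G2 * rescale (1 / ((s0 : ℂ) - ρ')) (lam m)) +
        T (s0 : ℂ) (fun s => Lf s / s) * h := by
    have hmc : (m : PowerSeries ℂ) = PowerSeries.C (m : ℂ) := by simp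
    have r1 := rescale_lam m hne1
    have r2 := rescale_lam m hne1'
    have x1 : T (s0 : ℂ) (fun s => Lf s / s) *
        ((m : PowerSeries ℂ) * rescale (1 / ((s0 : ℂ) - ρ)) (lam 0)) =
        PowerSeries.C ((m : ℂ) * ((s0 : ℂ) - ρ) ^ m) *
          (T (s0 : ℂ) G1 * rescale (1 / ((s0 : ℂ) - ρ)) (lam m)) := by
      rw [TL1, hmc, map_mul]
      linear_combination (T (s0 : ℂ) G1 * PowerSeries.C (m : ℂ)) * r1
    have x2 : T (s0 : ℂ) (fun s => Lf s / s) *
        ((m : PowerSeries ℂ) * rescale (1 / ((s0 : ℂ) - ρ')) (lam 0)) =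
        PowerSeries.C ((m : ℂ) * ((s0 : ℂ) - ρ') ^ m) *
          (T (s0 : ℂ) G2 * rescale (1 / ((s0 : ℂ) - ρ')) (lam m)) := by
      rw [TL2, hmc, map_mul]
      linear_combination (T (s0 : ℂ) G2 * PowerSeries.C (m : ℂ)) * r2
    rw [← x1, ← x2, hTP]
    ring
  -- the three limits
  have L1 := main_term (c := (s0 : ℂ)) (ρ := ρ) m hcρ dG1 (by rw [hdR0]; exact hs0R)
  have L2 := main_term (c := (s0 : ℂ)) (ρ := ρ') m hcρ' dG2 (by rw [hdR0']; exact hs0R)
  have hB0 : 0 ≤ B := by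
    have := hB 0
    simp only [pow_zero, mul_one] at this
    exact le_trans (norm_nonneg _) this
  set q2 : ℝ := min q ((R0 + s0) / 2) with hq2
  have hq2a : R0 < q2 := by
    rw [hdR0] at hq
    exact lt_min hq (by linarith)
  have hq2b : q2 < s0 := lt_of_le_of_lt (min_le_right _ _) (by linarith)
  have hq2pos : 0 < q2 := lt_trans hR0pos hq2a
  have hqpos : 0 < q := lt_of_lt_of_le hq2pos (min_le_left _ _)
  have hB2 : ∀ k, ‖coeff k h‖ ≤ B * (1 / q2) ^ k := by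
    intro k
    refine (hB k).trans (mul_le_mul_of_nonneg_left ?_ hB0)
    exact pow_le_pow_left₀ (by positivity) (one_div_le_one_div_of_le hq2pos (min_le_left _ _)) k
  set q1 : ℝ := (q2 + s0) / 2 with hq1
  have hq1a : q2 < q1 := by rw [hq1]; linarith
  have hq1b : q1 < s0 := by rw [hq1]; linarith
  have hq1pos : 0 < q1 := lt_trans hq2pos hq1a
  obtain ⟨D, hD⟩ := T_bound dL hq1pos hq1b
  obtain ⟨D2, hD2⟩ := bd_mul (T (s0 : ℂ) (fun s => Lf s / s)) h D (1 / q1) B (1 / q2)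
    (by positivity) (one_div_lt_one_div_of_lt hq2pos hq1a) hD hB2
  have hw0 : (1 / ((s0 : ℂ) - ρ)) ≠ 0 := one_div_ne_zero hne1
  have L3 := negl (m + 1) (T (s0 : ℂ) (fun s => Lf s / s) * h) (1 / ((s0 : ℂ) - ρ)) D2 (1 / q2)
    (by positivity) (by
      rw [norm_div, norm_one]
      exact one_div_lt_one_div_of_lt hR0pos hq2a) hD2
  -- the constants
  set w : ℂ := 1 / ((s0 : ℂ) - ρ) with hw
  set w' : ℂ := 1 / ((s0 : ℂ) - ρ') with hw'
  have hww' : w' = (starRingEnd ℂ) w := by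
    rw [hw, hw', map_div₀, map_one, hconjc]
  set om : ℂ := w * (R0 : ℂ) with hom
  have hom1 : ‖om‖ = 1 := by
    rw [hom, norm_mul, hw, norm_div, norm_one, Complex.norm_real, Real.norm_eq_abs,
      abs_of_pos hR0pos, ← hR0]
    field_simp
  set om' : ℂ := w' * (R0 : ℂ) with hom'
  have homc : om' = (starRingEnd ℂ) om := by
    rw [hom, hom', map_mul, Complex.conj_ofReal, hww']
  set C0 : ℂ := (-1) ^ (m + 1) * (m.factorial : ℂ) with hC0
  have hC0c : (starRingEnd ℂ) C0 = C0 := by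
    rw [hC0]; simp
  set D0 : ℂ := (m : ℂ) * ((s0 : ℂ) - ρ) ^ m * (C0 * G1 ρ) with hD0
  set D0' : ℂ := (m : ℂ) * ((s0 : ℂ) - ρ') ^ m * (C0 * G2 ρ') with hD0'
  have hGc : G2 ρ' = (starRingEnd ℂ) (G1 ρ) := by
    rw [hG1, hG2]
    simp only [map_div₀, map_mul, map_pow, map_sub]
    rw [← hconj ρ, ← hρ']
    have : (starRingEnd ℂ) ρ' = ρ := by rw [hρ', Complex.conj_conj]
    rw [this]
  have hDc : D0' = (starRingEnd ℂ) D0 := by
    rw [hD0, hD0', hGc]
    simp only [map_mul, map_pow, hconjc, hC0c, map_natCast]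
  have hD0ne : D0 ≠ 0 := by
    have hm0 : (m : ℂ) ≠ 0 := by
      exact_mod_cast (by omega : m ≠ 0)
    have hC0ne : C0 ≠ 0 := by
      rw [hC0]
      exact mul_ne_zero (pow_ne_zero _ (by norm_num)) (by exact_mod_cast Nat.factorial_ne_zero m)
    have hGne : G1 ρ ≠ 0 := by
      rw [hG1]
      exact div_ne_zero (mul_ne_zero (pow_ne_zero _ (sub_ne_zero.mpr hρρ')) hgρ) hρ0
    exact mul_ne_zero (mul_ne_zero hm0 (pow_ne_zero _ hne1)) (mul_ne_zero hC0ne hGne)
  refine ⟨m + 1, R0, 2 * D0, om, hR0pos, ?_, mul_ne_zero two_ne_zero hD0ne, hom1, ?_, ?_⟩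
  · rw [hdR0] at hd; linarith
  · intro h2
    have h3 : (R0 : ℂ) ^ 2 = ((s0 : ℂ) - ρ) ^ 2 := by
      rw [hom, hw] at h2
      field_simp at h2
      exact h2
    have h4 : ((R0 : ℂ) - ((s0 : ℂ) - ρ)) * ((R0 : ℂ) + ((s0 : ℂ) - ρ)) = 0 := by
      linear_combination h3
    rcases mul_eq_zero.mp h4 with h5 | h5
    · have := congrArg Complex.im h5
      simp at this
      exact him this
    · have := congrArg Complex.im h5
      simp at this
      exact him this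
  · -- complex version
    have key : Tendsto (fun k : ℕ => (k : ℂ) ^ (m + 1) * (J s0 k : ℂ) * (R0 : ℂ) ^ k -
        (D0 * om ^ k + D0' * om' ^ k)) atTop (𝓝 0) := by
      have M1 : Tendsto (fun k : ℕ => ((k : ℂ) ^ (m + 1) *
          coeff k (T (s0 : ℂ) G1 * rescale w (lam m)) / w ^ k - C0 * G1 ρ)) atTop (𝓝 0) := by
        have := L1.sub_const (C0 * G1 ρ)
        simpa using this
      have M2 : Tendsto (fun k : ℕ => ((k : ℂ) ^ (m + 1) *
          coeff k (T (s0 : ℂ) G2 * rescale w' (lam m)) / w' ^ k - C0 * G2 ρ')) atTop (𝓝 0) := by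
        have := L2.sub_const (C0 * G2 ρ')
        simpa using this
      have bd : ∀ (a : ℂ) (z : ℂ), ‖z‖ = 1 → ∀ f : ℕ → ℂ, Tendsto f atTop (𝓝 0) →
          Tendsto (fun k => a * z ^ k * f k) atTop (𝓝 0) := by
        intro a z hz f hf
        rw [tendsto_zero_iff_norm_tendsto_zero] at hf ⊢
        have : (fun k => ‖a * z ^ k * f k‖) = fun k => ‖a‖ * ‖f k‖ := by
          funext k
          rw [norm_mul, norm_mul, norm_pow, hz, one_pow, mul_one]
        rw [this]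
        simpa using hf.const_mul ‖a‖
      have hom1' : ‖om'‖ = 1 := by rw [homc, Complex.norm_conj, hom1]
      have N1 := bd ((m : ℂ) * ((s0 : ℂ) - ρ) ^ m) om hom1 _ M1
      have N2 := bd ((m : ℂ) * ((s0 : ℂ) - ρ') ^ m) om' hom1' _ M2
      have N3 := bd 1 om hom1 _ L3
      have N := (N1.add N2).add N3
      simp only [add_zero] at N
      refine N.congr ?_
      intro k
      rw [hJ k, hdec, map_add, map_add, coeff_C_mul, coeff_C_mul]
      have hwk : w ^ k ≠ 0 := pow_ne_zero _ hw0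
      have hw0' : w' ≠ 0 := by rw [hw']; exact one_div_ne_zero hne1'
      have hwk' : w' ^ k ≠ 0 := pow_ne_zero _ hw0'
      have e1 : om ^ k = w ^ k * (R0 : ℂ) ^ k := by rw [hom, mul_pow]
      have e2 : om' ^ k = w' ^ k * (R0 : ℂ) ^ k := by rw [hom', mul_pow]
      rw [e1, e2, hD0, hD0']
      field_simp
      ring
    have key2 := (Complex.continuous_re.tendsto (0 : ℂ)).comp key
    rw [Complex.zero_re] at key2
    refine key2.congr ?_
    intro k
    simp only [Function.comp]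
    rw [Complex.sub_re]
    have e1 : D0 * om ^ k + D0' * om' ^ k = ((2 * (D0 * om ^ k).re : ℝ) : ℂ) := by
      rw [hDc, homc, ← map_pow, ← map_mul, Complex.add_conj]
    have e2 : (k : ℂ) ^ (m + 1) * (J s0 k : ℂ) * (R0 : ℂ) ^ k =
        (((k : ℝ) ^ (m + 1) * J s0 k * R0 ^ k : ℝ) : ℂ) := by push_cast; ring
    rw [e1, e2, Complex.ofReal_re, Complex.ofReal_re]
    have e3 : (2 * D0 * om ^ k).re = 2 * (D0 * om ^ k).re := by
      rw [mul_assoc]
      simp
    rw [e3]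

end Pool.OMG
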