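import Pool.Agent.OMG.Defs

/-!
# OMG WIN: Chernoff bounds for Gamma weights

Put `I = [(1-δ)k/z, (1+δ)k/z]`, `0 < δ <= 1/2`, `z >= 8/δ^2` (so `z >= 32`),
`W_k(y) = y^k e^(-z y)/k!`.
Upper tail, `y >= y1 = (1+δ)k/z`: `1 <= e^(τ(y-y1))` with `τ = zδ/4`, so
`int (1+y) e^(y/2) W_k <= e^(-τ y1) int_0^oo (1+y) y^k e^(-(z-1/2-τ)y)/k! dy
= e^(-τ y1) [ B^(-k-1) + (k+1) B^(-k-2) ]`, `B = z - 1/2 - τ` (Gamma integral
`integral_rpow_mul_exp_neg_mul_Ioi` or `Real.Gamma`), and `z^k e^(-τ y1) B^(-k) = q1^k` with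
`log q1 = -(δ/4)(1+δ) - log(1 - a - δ/4)`, `a = 1/(2z) <= δ^2/16`. Since `-log(1-x) <= x + x^2` for
`0 <= x <= 1/2`: `log q1 <= -δ²/4 + a + (a+δ/4)² <= -δ²/8 + a + 2a² < 0`.
Lower tail, `y <= y1' = (1-δ)k/z`: `1 <= e^(τ(y1'-y))`, base `q2`:
`log q2 = (δ/4)(1-δ) - log(1 - a + δ/4) <= -δ²/4 + a + δ²/32 < 0` (`log(1+x) >= x - x²/2`).
The factor `k+1` is absorbed in a slightly larger `q < 1`.
Second integral: `y^(k-1) e^(-zy)/k!`: same computation (`int y^(k-1) e^(-By) dy/k! = B^(-k)/k`).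
`gam_int`: `int_0^oo y^(k-1) e^(-zy)/k! dy = 1/(k z^k)`.
-/

set_option autoImplicit false

open Complex Finset Filter Topology MeasureTheory

namespace Pool.OMG

/-- The Gamma integral with a natural exponent. -/
theorem win_gam {B : ℝ} (hB : 0 < B) (n : ℕ) :
    IntegrableOn (fun y : ℝ => y ^ n * Real.exp (-(B * y))) (Set.Ioi 0) ∧
    ∫ y in Set.Ioi (0 : ℝ), y ^ n * Real.exp (-(B * y)) = (n.factorial : ℝ) / B ^ (n + 1) := by
  have key := Real.integral_rpow_mul_exp_neg_mul_Ioi (a := (n : ℝ) + 1) (r := B)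
    (by positivity) hB
  have hval : ∫ y in Set.Ioi (0 : ℝ), y ^ n * Real.exp (-(B * y))
      = (n.factorial : ℝ) / B ^ (n + 1) := by
    have h1 : ∀ y : ℝ, y ^ ((n : ℝ) + 1 - 1) * Real.exp (-(B * y))
        = y ^ n * Real.exp (-(B * y)) := by
      intro y
      rw [add_sub_cancel_right, Real.rpow_natCast]
    simp only [h1] at key
    rw [key, Real.Gamma_nat_eq_factorial, one_div, Real.inv_rpow hB.le,
      show (n : ℝ) + 1 = ((n + 1 : ℕ) : ℝ) by push_cast; ring, Real.rpow_natCast]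
    field_simp
  refine ⟨?_, hval⟩
  refine Integrable.of_integral_ne_zero ?_
  rw [hval]
  positivity

theorem gam_int {z : ℝ} (hz : 0 < z) (k : ℕ) (hk : 1 ≤ k) :
    IntegrableOn (fun y : ℝ => y ^ (k - 1) * Real.exp (-z * y) / (k.factorial : ℝ)) (Set.Ioi 0) ∧
    ∫ y in Set.Ioi (0 : ℝ), y ^ (k - 1) * Real.exp (-z * y) / (k.factorial : ℝ) =
      1 / ((k : ℝ) * z ^ k) := by
  obtain ⟨m, rfl⟩ : ∃ m, k = m + 1 := ⟨k - 1, by omega⟩
  obtain ⟨h1, h2⟩ := win_gam hz m
  have h3 : ∀ y : ℝ, -z * y = -(z * y) := fun y => by ring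
  simp only [h3, Nat.add_sub_cancel]
  refine ⟨h1.div_const _, ?_⟩
  rw [integral_div, h2, Nat.factorial_succ]
  have hm : ((m.factorial : ℕ) : ℝ) ≠ 0 := Nat.cast_ne_zero.2 (Nat.factorial_ne_zero m)
  push_cast
  field_simp

/-- The first integrand with an arbitrary exponential rate. -/
theorem win_gam2 {B : ℝ} (hB : 0 < B) (k : ℕ) :
    IntegrableOn (fun y : ℝ => (1 + y) * y ^ k * Real.exp (-(B * y)) / (k.factorial : ℝ))
      (Set.Ioi 0) ∧
    ∫ y in Set.Ioi (0 : ℝ), (1 + y) * y ^ k * Real.exp (-(B * y)) / (k.factorial : ℝ) =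
      1 / B ^ (k + 1) + ((k : ℝ) + 1) / B ^ (k + 2) := by
  obtain ⟨h1, h2⟩ := win_gam hB k
  obtain ⟨h3, h4⟩ := win_gam hB (k + 1)
  have h5 : ∀ y : ℝ, (1 + y) * y ^ k * Real.exp (-(B * y)) / (k.factorial : ℝ)
      = (y ^ k * Real.exp (-(B * y)) + y ^ (k + 1) * Real.exp (-(B * y))) / (k.factorial : ℝ) := by
    intro y
    ring
  simp only [h5]
  refine ⟨(h1.add h3).div_const _, ?_⟩
  rw [integral_div, integral_add h1 h3, h2, h4, Nat.factorial_succ]
  have hm : ((k.factorial : ℕ) : ℝ) ≠ 0 := Nat.cast_ne_zero.2 (Nat.factorial_ne_zero k)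
  push_cast
  field_simp

theorem win_integrable {z : ℝ} (hz : 1 / 2 < z) (k : ℕ) :
    IntegrableOn (fun y : ℝ => (1 + y) * Real.exp (y / 2) * Real.exp (-z * y) * y ^ k /
      (k.factorial : ℝ)) (Set.Ioi 0) := by
  have h := (win_gam2 (B := z - 1 / 2) (by linarith) k).1
  refine h.congr_fun (fun y _ => ?_) measurableSet_Ioi
  have h1 : Real.exp (-((z - 1 / 2) * y)) = Real.exp (y / 2) * Real.exp (-z * y) := by
    rw [← Real.exp_add]
    congr 1
    ring
  simp only [h1]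
  ring

/-- Comparison with the exponentially weighted integral. -/
theorem win_tail {f : ℝ → ℝ} {lo hi τ : ℝ} (hτ : 0 ≤ τ) (hf : ∀ y ∈ Set.Ioi (0 : ℝ), 0 ≤ f y)
    (hfI : IntegrableOn f (Set.Ioi 0))
    (hI : IntegrableOn (fun y => f y * (Real.exp (τ * (y - hi)) + Real.exp (τ * (lo - y))))
      (Set.Ioi 0)) :
    ∫ y in Set.Ioi (0 : ℝ) \ Set.Icc lo hi, f y ≤
      ∫ y in Set.Ioi (0 : ℝ), f y * (Real.exp (τ * (y - hi)) + Real.exp (τ * (lo - y))) := by
  have hms : MeasurableSet (Set.Ioi (0 : ℝ) \ Set.Icc lo hi) :=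
    measurableSet_Ioi.diff measurableSet_Icc
  calc ∫ y in Set.Ioi (0 : ℝ) \ Set.Icc lo hi, f y
      ≤ ∫ y in Set.Ioi (0 : ℝ) \ Set.Icc lo hi,
        f y * (Real.exp (τ * (y - hi)) + Real.exp (τ * (lo - y))) := by
        refine setIntegral_mono_on (hfI.mono_set Set.sdiff_subset) (hI.mono_set Set.sdiff_subset)
          hms fun y hy => ?_
        have h0 := hf y hy.1
        have hw : 1 ≤ Real.exp (τ * (y - hi)) + Real.exp (τ * (lo - y)) := by
          have e1 := Real.exp_pos (τ * (y - hi))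
          have e2 := Real.exp_pos (τ * (lo - y))
          by_cases hlo : lo ≤ y
          · have hhi : hi < y := by
              by_contra hcon
              exact hy.2 ⟨hlo, not_lt.1 hcon⟩
            have := Real.one_le_exp (mul_nonneg hτ (sub_nonneg.2 hhi.le))
            linarith
          · have := Real.one_le_exp (mul_nonneg hτ (sub_nonneg.2 (not_le.1 hlo).le))
            linarith
        exact le_mul_of_one_le_right h0 hw
    _ ≤ ∫ y in Set.Ioi (0 : ℝ), f y * (Real.exp (τ * (y - hi)) + Real.exp (τ * (lo - y))) := by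
        refine setIntegral_mono_set hI ?_ (Filter.Eventually.of_forall fun y hy => hy.1)
        refine (ae_restrict_iff' measurableSet_Ioi).2 (Filter.Eventually.of_forall fun y hy => ?_)
        have h0 := hf y hy
        positivity

theorem win_base1 {δ z : ℝ} (hδ : 0 < δ) (hδ1 : δ ≤ 1 / 2) (hz : 8 ≤ z * δ ^ 2) (hz0 : 0 < z) :
    Real.exp (-(δ * (1 + δ) / 4)) * z < z - 1 / 2 - z * δ / 4 := by
  set u := δ * (1 + δ) / 4 with hu
  have hu0 : 0 ≤ u := by positivity
  have hu1 : u ≤ 3 * δ / 8 := by nlinarith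
  have hu2 : |(-u)| ≤ 1 := by
    rw [abs_neg, abs_of_nonneg hu0]
    linarith
  have h1 := Real.abs_exp_sub_one_sub_id_le hu2
  have h2 := (abs_le.1 h1).2
  have h3 : Real.exp (-u) ≤ 1 - u + u ^ 2 := by
    have : (-u) ^ 2 = u ^ 2 := by ring
    linarith
  have h4 : u ^ 2 ≤ 9 / 64 * δ ^ 2 := by nlinarith
  have h5 : Real.exp (-u) * z ≤ (1 - u + 9 / 64 * δ ^ 2) * z :=
    mul_le_mul_of_nonneg_right (by linarith) hz0.le
  have h6 : (1 - u + 9 / 64 * δ ^ 2) * z = z - z * δ / 4 - 7 / 64 * (z * δ ^ 2) := by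
    rw [hu]
    ring
  linarith

theorem win_base2 {δ z : ℝ} (hδ : 0 < δ) (hδ1 : δ ≤ 1 / 2) (hz : 8 ≤ z * δ ^ 2) (hz0 : 0 < z) :
    Real.exp (δ * (1 - δ) / 4) * z < z - 1 / 2 + z * δ / 4 := by
  set v := δ * (1 - δ) / 4 with hv
  have hv0 : 0 ≤ v := by
    have : 0 ≤ 1 - δ := by linarith
    positivity
  have hv1 : v ≤ δ / 4 := by nlinarith
  have hv2 : |v| ≤ 1 := by
    rw [abs_of_nonneg hv0]
    linarith
  have h1 := Real.abs_exp_sub_one_sub_id_le hv2
  have h2 := (abs_le.1 h1).2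
  have h4 : v ^ 2 ≤ 1 / 16 * δ ^ 2 := by nlinarith
  have h5 : Real.exp v * z ≤ (1 + v + 1 / 16 * δ ^ 2) * z :=
    mul_le_mul_of_nonneg_right (by linarith) hz0.le
  have h6 : (1 + v + 1 / 16 * δ ^ 2) * z = z + z * δ / 4 - 3 / 16 * (z * δ ^ 2) := by
    rw [hv]
    ring
  linarith

theorem win {δ z : ℝ} (hδ : 0 < δ) (hδ1 : δ ≤ 1 / 2) (hz : 8 / δ ^ 2 ≤ z) :
    ∃ C q : ℝ, 0 < C ∧ 0 < q ∧ q < 1 ∧ ∀ k : ℕ, 1 ≤ k →
      ∫ y in Set.Ioi (0 : ℝ) \ Set.Icc ((1 - δ) * k / z) ((1 + δ) * k / z),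
        (1 + y) * Real.exp (y / 2) * Real.exp (-z * y) * y ^ k / (k.factorial : ℝ) ≤
          C * q ^ k / z ^ k ∧
      ∫ y in Set.Ioi (0 : ℝ) \ Set.Icc ((1 - δ) * k / z) ((1 + δ) * k / z),
        y ^ (k - 1) * Real.exp (-z * y) / (k.factorial : ℝ) ≤ C * q ^ k / z ^ k := by
  have hδ2 : 0 < δ ^ 2 := by positivity
  have hz8 : 8 ≤ z * δ ^ 2 := (div_le_iff₀ hδ2).1 hz
  have hz32 : 32 ≤ z := by nlinarith
  have hz0 : 0 < z := by linarith
  set τ := z * δ / 4 with hτ
  have hτ0 : 0 ≤ τ := by positivity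
  have hτz : τ ≤ z / 8 := by rw [hτ]; nlinarith
  set B1 := z - 1 / 2 - τ with hB1
  set B2 := z - 1 / 2 + τ with hB2
  have hB1' : 1 ≤ B1 := by rw [hB1]; linarith
  have hB2' : 1 ≤ B2 := by rw [hB2]; linarith
  set E1 := Real.exp (-(δ * (1 + δ) / 4)) with hE1
  set E2 := Real.exp (δ * (1 - δ) / 4) with hE2
  set q1 := E1 * z / B1 with hq1
  set q2 := E2 * z / B2 with hq2
  have hq1p : 0 < q1 := by positivity
  have hq2p : 0 < q2 := by positivity
  have hq1l : q1 < 1 := by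
    rw [hq1, div_lt_one (by linarith)]
    exact win_base1 hδ hδ1 hz8 hz0
  have hq2l : q2 < 1 := by
    rw [hq2, div_lt_one (by linarith)]
    exact win_base2 hδ hδ1 hz8 hz0
  set r := max q1 q2 with hr
  have hr0 : 0 < r := lt_max_of_lt_left hq1p
  have hr1 : r < 1 := max_lt hq1l hq2l
  set q := (1 + r) / 2 with hq
  have hq0 : 0 < q := by positivity
  have hq1' : q < 1 := by rw [hq]; linarith
  have hrq : r < q := by rw [hq]; linarith
  have hrat0 : 0 ≤ r / q := by positivity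
  have hrat1 : r / q < 1 := (div_lt_one hq0).2 hrq
  obtain ⟨C', hC'⟩ : ∃ C' : ℝ, ∀ k : ℕ, ((k : ℝ) + 2) * (r / q) ^ k ≤ C' := by
    have t1 := tendsto_self_mul_const_pow_of_lt_one hrat0 hrat1
    have t2 := (tendsto_pow_atTop_nhds_zero_of_lt_one hrat0 hrat1).const_mul 2
    have t3 := t1.add t2
    obtain ⟨C', hC'⟩ := t3.bddAbove_range
    refine ⟨C', fun k => ?_⟩
    have := hC' ⟨k, rfl⟩
    simp only at this
    linarith
  have hC'0 : 0 < C' := by
    have := hC' 0
    simp only [Nat.cast_zero, pow_zero] at this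
    linarith
  refine ⟨2 * C', q, by positivity, hq0, hq1', fun k hk => ?_⟩
  have hkR : (1 : ℝ) ≤ k := by exact_mod_cast hk
  set lo := (1 - δ) * k / z with hlo
  set hi := (1 + δ) * k / z with hhi
  have hhiτ : Real.exp (-(τ * hi)) = E1 ^ k := by
    rw [hE1, ← Real.exp_nat_mul]
    congr 1
    rw [hhi, hτ]
    field_simp
  have hloτ : Real.exp (τ * lo) = E2 ^ k := by
    rw [hE2, ← Real.exp_nat_mul]
    congr 1
    rw [hlo, hτ]
    field_simp
  -- the final bound
  have hfin : ((k : ℝ) + 2) * (E1 ^ k / B1 ^ k + E2 ^ k / B2 ^ k) ≤ 2 * C' * q ^ k / z ^ k := by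
    have e1 : E1 ^ k / B1 ^ k = q1 ^ k / z ^ k := by
      rw [hq1, div_pow, mul_pow]
      field_simp
    have e2 : E2 ^ k / B2 ^ k = q2 ^ k / z ^ k := by
      rw [hq2, div_pow, mul_pow]
      field_simp
    have p1 : q1 ^ k ≤ r ^ k := pow_le_pow_left₀ hq1p.le (le_max_left _ _) k
    have p2 : q2 ^ k ≤ r ^ k := pow_le_pow_left₀ hq2p.le (le_max_right _ _) k
    have p3 : ((k : ℝ) + 2) * r ^ k ≤ C' * q ^ k := by
      have h1 := hC' k
      rw [div_pow, ← mul_div_assoc, div_le_iff₀ (by positivity)] at h1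
      exact h1
    rw [e1, e2, ← add_div, ← mul_div_assoc]
    refine div_le_div_of_nonneg_right ?_ (by positivity)
    have h2 : ((k : ℝ) + 2) * (q1 ^ k + q2 ^ k) ≤ ((k : ℝ) + 2) * (2 * r ^ k) :=
      mul_le_mul_of_nonneg_left (by linarith) (by positivity)
    linarith
  have hE1p : 0 < E1 ^ k := by positivity
  have hE2p : 0 < E2 ^ k := by positivity
  have hB1k : 0 < B1 ^ k := by positivity
  have hB2k : 0 < B2 ^ k := by positivity
  constructor
  · -- first integral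
    obtain ⟨i1, v1⟩ := win_gam2 (B := B1) (by linarith) k
    obtain ⟨i2, v2⟩ := win_gam2 (B := B2) (by linarith) k
    have hfun : ∀ y : ℝ, (1 + y) * Real.exp (y / 2) * Real.exp (-z * y) * y ^ k /
        (k.factorial : ℝ) * (Real.exp (τ * (y - hi)) + Real.exp (τ * (lo - y)))
        = E1 ^ k * ((1 + y) * y ^ k * Real.exp (-(B1 * y)) / (k.factorial : ℝ))
          + E2 ^ k * ((1 + y) * y ^ k * Real.exp (-(B2 * y)) / (k.factorial : ℝ)) := by
      intro y
      have x1 : Real.exp (y / 2) * Real.exp (-z * y) * Real.exp (τ * (y - hi))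
          = E1 ^ k * Real.exp (-(B1 * y)) := by
        rw [← hhiτ, ← Real.exp_add, ← Real.exp_add, ← Real.exp_add]
        congr 1
        rw [hB1]
        ring
      have x2 : Real.exp (y / 2) * Real.exp (-z * y) * Real.exp (τ * (lo - y))
          = E2 ^ k * Real.exp (-(B2 * y)) := by
        rw [← hloτ, ← Real.exp_add, ← Real.exp_add, ← Real.exp_add]
        congr 1
        rw [hB2]
        ring
      calc (1 + y) * Real.exp (y / 2) * Real.exp (-z * y) * y ^ k /
          (k.factorial : ℝ) * (Real.exp (τ * (y - hi)) + Real.exp (τ * (lo - y)))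
          = (1 + y) * y ^ k / (k.factorial : ℝ) *
            (Real.exp (y / 2) * Real.exp (-z * y) * Real.exp (τ * (y - hi))) +
            (1 + y) * y ^ k / (k.factorial : ℝ) *
            (Real.exp (y / 2) * Real.exp (-z * y) * Real.exp (τ * (lo - y))) := by ring
        _ = _ := by rw [x1, x2]; ring
    refine (win_tail (hi := hi) (lo := lo) hτ0 (fun y hy => ?_)
      (win_integrable (by linarith) k) ?_).trans ?_
    · have hy' : (0 : ℝ) < y := hy
      positivity
    · simp only [hfun]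
      exact (i1.const_mul _).add (i2.const_mul _)
    · simp only [hfun]
      rw [integral_add (i1.const_mul _) (i2.const_mul _), integral_const_mul, integral_const_mul,
        v1, v2]
      refine le_trans ?_ hfin
      have hb : ∀ B : ℝ, 1 ≤ B → 1 / B ^ (k + 1) + ((k : ℝ) + 1) / B ^ (k + 2)
          ≤ ((k : ℝ) + 2) / B ^ k := by
        intro B hB
        have hBp : 0 < B := by linarith
        have h1 : 1 / B ^ (k + 1) ≤ 1 / B ^ k :=
          one_div_le_one_div_of_le (by positivity) (pow_le_pow_right₀ hB (by omega))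
        have h2 : ((k : ℝ) + 1) / B ^ (k + 2) ≤ ((k : ℝ) + 1) / B ^ k :=
          div_le_div_of_nonneg_left (by positivity) (by positivity)
            (pow_le_pow_right₀ hB (by omega))
        calc 1 / B ^ (k + 1) + ((k : ℝ) + 1) / B ^ (k + 2)
            ≤ 1 / B ^ k + ((k : ℝ) + 1) / B ^ k := add_le_add h1 h2
          _ = ((k : ℝ) + 2) / B ^ k := by rw [← add_div]; ring
      calc E1 ^ k * (1 / B1 ^ (k + 1) + ((k : ℝ) + 1) / B1 ^ (k + 2)) +
          E2 ^ k * (1 / B2 ^ (k + 1) + ((k : ℝ) + 1) / B2 ^ (k + 2))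
          ≤ E1 ^ k * (((k : ℝ) + 2) / B1 ^ k) + E2 ^ k * (((k : ℝ) + 2) / B2 ^ k) :=
            add_le_add (mul_le_mul_of_nonneg_left (hb B1 hB1') hE1p.le)
              (mul_le_mul_of_nonneg_left (hb B2 hB2') hE2p.le)
        _ = ((k : ℝ) + 2) * (E1 ^ k / B1 ^ k + E2 ^ k / B2 ^ k) := by ring
  · -- second integral
    have hz1 : 0 < z - τ := by linarith
    have hz2 : 0 < z + τ := by linarith
    obtain ⟨i1, v1⟩ := gam_int hz1 k hk
    obtain ⟨i2, v2⟩ := gam_int hz2 k hk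
    have hfun : ∀ y : ℝ, y ^ (k - 1) * Real.exp (-z * y) /
        (k.factorial : ℝ) * (Real.exp (τ * (y - hi)) + Real.exp (τ * (lo - y)))
        = E1 ^ k * (y ^ (k - 1) * Real.exp (-(z - τ) * y) / (k.factorial : ℝ))
          + E2 ^ k * (y ^ (k - 1) * Real.exp (-(z + τ) * y) / (k.factorial : ℝ)) := by
      intro y
      have x1 : Real.exp (-z * y) * Real.exp (τ * (y - hi))
          = E1 ^ k * Real.exp (-(z - τ) * y) := by
        rw [← hhiτ, ← Real.exp_add, ← Real.exp_add]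
        congr 1
        ring
      have x2 : Real.exp (-z * y) * Real.exp (τ * (lo - y))
          = E2 ^ k * Real.exp (-(z + τ) * y) := by
        rw [← hloτ, ← Real.exp_add, ← Real.exp_add]
        congr 1
        ring
      calc y ^ (k - 1) * Real.exp (-z * y) /
          (k.factorial : ℝ) * (Real.exp (τ * (y - hi)) + Real.exp (τ * (lo - y)))
          = y ^ (k - 1) / (k.factorial : ℝ) * (Real.exp (-z * y) * Real.exp (τ * (y - hi))) +
            y ^ (k - 1) / (k.factorial : ℝ) * (Real.exp (-z * y) * Real.exp (τ * (lo - y))) := by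
            ring
        _ = _ := by rw [x1, x2]; ring
    refine (win_tail (hi := hi) (lo := lo) hτ0 (fun y hy => ?_)
      (gam_int hz0 k hk).1 ?_).trans ?_
    · have hy' : (0 : ℝ) < y := hy
      positivity
    · simp only [hfun]
      exact (i1.const_mul _).add (i2.const_mul _)
    · simp only [hfun]
      rw [integral_add (i1.const_mul _) (i2.const_mul _), integral_const_mul, integral_const_mul,
        v1, v2]
      refine le_trans ?_ hfin
      have hb : ∀ B Z : ℝ, 0 < B → B ≤ Z → 1 / ((k : ℝ) * Z ^ k) ≤ ((k : ℝ) + 2) / B ^ k := by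
        intro B Z hB hBZ
        have hZ : 0 < Z := by linarith
        have h1 : B ^ k ≤ (k : ℝ) * Z ^ k := by
          have h2 : B ^ k ≤ Z ^ k := pow_le_pow_left₀ hB.le hBZ k
          have h3 : 0 < Z ^ k := by positivity
          nlinarith
        calc 1 / ((k : ℝ) * Z ^ k) ≤ 1 / B ^ k :=
              one_div_le_one_div_of_le (by positivity) h1
          _ ≤ ((k : ℝ) + 2) / B ^ k :=
              div_le_div_of_nonneg_right (by linarith) (by positivity)
      calc E1 ^ k * (1 / ((k : ℝ) * (z - τ) ^ k)) + E2 ^ k * (1 / ((k : ℝ) * (z + τ) ^ k))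
          ≤ E1 ^ k * (((k : ℝ) + 2) / B1 ^ k) + E2 ^ k * (((k : ℝ) + 2) / B2 ^ k) :=
            add_le_add (mul_le_mul_of_nonneg_left (hb B1 _ (by linarith) (by rw [hB1]; linarith))
              hE1p.le)
              (mul_le_mul_of_nonneg_left (hb B2 _ (by linarith) (by rw [hB2]; linarith)) hE2p.le)
        _ = ((k : ℝ) + 2) * (E1 ^ k / B1 ^ k + E2 ^ k / B2 ^ k) := by ring

end Pool.OMG
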