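import Pool.Agent.OMG.Defs

/-!
# OMG ASY: asymptotics of convolutions, and of the coefficients of `(1-X)^m log(1-X)`

* `asy_conv`: `k^m coeff_k(g b)/w^k = sum_{i+j=k} g_i w^(-i) * (k^m b_j/w^j)`. Tannery
(`tendsto_tsum_of_dominated_convergence`) over `i`: the `i`-th term is
`g_i w^(-i) * (k/(k-i))^m * ((k-i)^m b_(k-i)/w^(k-i))` (zero for `i > k`), it tends to
`g_i w^(-i) C0`; domination: `|b_j/w^j| <= K/(j+1)^m` for all `j` (convergent sequence is bounded,
`j=0` separately), and `k^m/(k-i+1)^m <= (i+1)^m` since `k <= (k-i+1)(i+1)`, so the bound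
`C K (i+1)^m (q/|w|)^i` is summable.
* `bd_mul`: `sum_i C q^i C' q'^(k-i) <= C C' q'^k sum (q/q')^i`.
* `negl`: `k^m (q/|w|)^k -> 0`.
* `lam_asy`: for `k > m`: `coeff_k ((1-X)^m log(1-X)) = (-1)^(m+1) m! (k-m-1)!/k!`, by induction on
`m` from `coeff_(k)(lam (m+1)) = coeff_k (lam m) - coeff_(k-1)(lam m)`, and
`k^(m+1) (k-m-1)!/k! = prod_{j<=m} k/(k-j) -> 1`.
-/

set_option autoImplicit false

open Complex Finset Filter Topology MeasureTheory PowerSeries

namespace Pool.OMG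

/-- shifting the weight -/
private lemma asy_shift (m : ℕ) (b : PowerSeries ℂ) (w C0 : ℂ)
    (hb : Tendsto (fun k : ℕ => (k : ℂ) ^ m * coeff k b / w ^ k) atTop (𝓝 C0)) (i : ℕ) :
    Tendsto (fun k : ℕ => ((k : ℂ) + i) ^ m * coeff k b / w ^ k) atTop (𝓝 C0) := by
  have h1 : Tendsto (fun k : ℕ => ((k : ℂ) / ((k : ℂ) + i))⁻¹) atTop (𝓝 (1 : ℂ)⁻¹) :=
    (tendsto_natCast_div_add_atTop (i : ℂ)).inv₀ one_ne_zero
  rw [inv_one] at h1
  have h2 := (h1.pow m).mul hb
  rw [one_pow, one_mul] at h2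
  refine h2.congr' ?_
  filter_upwards [eventually_gt_atTop 0] with k hk
  have hk0 : (k : ℂ) ≠ 0 := by exact_mod_cast hk.ne'
  rw [inv_div, div_pow]
  field_simp

/-- the bound for the coefficients -/
private lemma asy_bdd (m : ℕ) (b : PowerSeries ℂ) (w C0 : ℂ)
    (hb : Tendsto (fun k : ℕ => (k : ℂ) ^ m * coeff k b / w ^ k) atTop (𝓝 C0)) :
    ∃ K : ℝ, 0 ≤ K ∧ ∀ j : ℕ, ((j : ℝ) + 1) ^ m * ‖coeff j b / w ^ j‖ ≤ K := by
  have h1 := asy_shift m b w C0 hb 1
  obtain ⟨K, hK⟩ := (Metric.isBounded_range_of_tendsto _ h1).exists_norm_le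
  refine ⟨K, le_trans (norm_nonneg _) (hK _ ⟨0, rfl⟩), fun j => ?_⟩
  have h2 := hK _ ⟨j, rfl⟩
  refine le_trans (le_of_eq ?_) h2
  have h3 : ‖((j : ℂ) + (1 : ℕ))‖ = (j : ℝ) + 1 := by
    have : ((j : ℂ) + (1 : ℕ)) = ((j + 1 : ℕ) : ℂ) := by push_cast; ring
    rw [this, Complex.norm_natCast]
    push_cast
    ring
  simp only
  rw [mul_div_assoc, norm_mul, norm_pow, h3]

theorem asy_conv (m : ℕ) (g b : PowerSeries ℂ) (w C0 : ℂ) (hw : w ≠ 0)
    (hb : Tendsto (fun k : ℕ => (k : ℂ) ^ m * coeff k b / w ^ k) atTop (𝓝 C0))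
    (C q : ℝ) (hq0 : 0 ≤ q) (hq : q < ‖w‖) (hg : ∀ k, ‖coeff k g‖ ≤ C * q ^ k)
    (v : ℂ) (hv : HasSum (fun k => coeff k g * (w⁻¹) ^ k) v) :
    Tendsto (fun k : ℕ => (k : ℂ) ^ m * coeff k (g * b) / w ^ k) atTop (𝓝 (C0 * v)) := by
  have hwn : 0 < ‖w‖ := norm_pos_iff.mpr hw
  have hC : 0 ≤ C := by
    have := hg 0
    rw [pow_zero, mul_one] at this
    exact (norm_nonneg _).trans this
  obtain ⟨K, hK0, hK⟩ := asy_bdd m b w C0 hb
  set r : ℝ := q / ‖w‖ with hr
  have hr0 : 0 ≤ r := div_nonneg hq0 hwn.le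
  have hr1 : r < 1 := by rwa [hr, div_lt_one hwn]
  set r' : ℝ := (1 + r) / 2 with hr'
  have hr'0 : 0 < r' := by rw [hr']; linarith
  have hr'1 : r' < 1 := by rw [hr']; linarith
  have hrr' : r ≤ r' := by rw [hr']; linarith
  set Fk : ℕ → ℕ → ℂ := fun k i => if i ≤ k then
    coeff i g * (w⁻¹) ^ i * ((k : ℂ) ^ m * coeff (k - i) b / w ^ (k - i)) else 0 with hFk
  have hsum : Summable (fun i : ℕ => C * K / r' * (((i + 1 : ℕ) : ℝ) ^ m * r' ^ (i + 1))) := by
    refine Summable.mul_left _ ?_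
    have h1 := summable_pow_mul_geometric_of_norm_lt_one (R := ℝ) m (r := r')
      (by rw [Real.norm_eq_abs, abs_of_pos hr'0]; exact hr'1)
    exact (summable_nat_add_iff 1).mpr h1
  have hlim : ∀ i, Tendsto (fun k => Fk k i) atTop (𝓝 (coeff i g * (w⁻¹) ^ i * C0)) := by
    intro i
    rw [← tendsto_add_atTop_iff_nat i]
    have h1 := (asy_shift m b w C0 hb i).const_mul (coeff i g * (w⁻¹) ^ i)
    refine h1.congr fun k => ?_
    simp only [hFk]
    rw [if_pos (Nat.le_add_left i k), Nat.add_sub_cancel]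
    push_cast
    ring
  have hbound : ∀ᶠ k in (atTop : Filter ℕ), ∀ i, ‖Fk k i‖ ≤
      C * K / r' * (((i + 1 : ℕ) : ℝ) ^ m * r' ^ (i + 1)) := by
    refine Eventually.of_forall fun k i => ?_
    simp only [hFk]
    split_ifs with hik
    · have hd : ‖coeff i g * (w⁻¹) ^ i‖ ≤ C * r' ^ i := by
        rw [norm_mul, norm_pow, norm_inv]
        calc ‖coeff i g‖ * ‖w‖⁻¹ ^ i ≤ (C * q ^ i) * ‖w‖⁻¹ ^ i :=
              mul_le_mul_of_nonneg_right (hg i) (by positivity)
          _ = C * r ^ i := by rw [hr, div_eq_mul_inv, mul_pow]; ring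
          _ ≤ C * r' ^ i := mul_le_mul_of_nonneg_left (pow_le_pow_left₀ hr0 hrr' i) hC
      obtain ⟨j, rfl⟩ := Nat.exists_eq_add_of_le hik
      rw [Nat.add_sub_cancel_left]
      have h1 := hK j
      have h2 : ‖((i + j : ℕ) : ℂ) ^ m * coeff j b / w ^ j‖ ≤ ((i : ℝ) + 1) ^ m * K := by
        rw [mul_div_assoc, norm_mul, norm_pow, Complex.norm_natCast]
        have h3 : ((i + j : ℕ) : ℝ) ≤ ((i : ℝ) + 1) * ((j : ℝ) + 1) := by
          push_cast
          have : (0 : ℝ) ≤ (i : ℝ) * (j : ℝ) := by positivity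
          nlinarith
        calc ((i + j : ℕ) : ℝ) ^ m * ‖coeff j b / w ^ j‖
            ≤ (((i : ℝ) + 1) * ((j : ℝ) + 1)) ^ m * ‖coeff j b / w ^ j‖ :=
              mul_le_mul_of_nonneg_right (pow_le_pow_left₀ (by positivity) h3 m) (norm_nonneg _)
          _ = ((i : ℝ) + 1) ^ m * (((j : ℝ) + 1) ^ m * ‖coeff j b / w ^ j‖) := by
              rw [mul_pow]; ring
          _ ≤ ((i : ℝ) + 1) ^ m * K := mul_le_mul_of_nonneg_left h1 (by positivity)
      rw [norm_mul]
      calc ‖coeff i g * (w⁻¹) ^ i‖ * ‖((i + j : ℕ) : ℂ) ^ m * coeff j b / w ^ j‖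
          ≤ (C * r' ^ i) * (((i : ℝ) + 1) ^ m * K) :=
            mul_le_mul hd h2 (norm_nonneg _) (by positivity)
        _ = C * K / r' * (((i + 1 : ℕ) : ℝ) ^ m * r' ^ (i + 1)) := by
            push_cast
            rw [pow_succ]
            field_simp
    · rw [norm_zero]
      positivity
  have h := tendsto_tsum_of_dominated_convergence hsum hlim hbound
  have hv' : ∑' i, coeff i g * (w⁻¹) ^ i * C0 = C0 * v := by
    rw [(hv.mul_right C0).tsum_eq, mul_comm]
  rw [hv'] at h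
  refine h.congr fun k => ?_
  have h1 : ∑' i, Fk k i = ∑ i ∈ Finset.range (k + 1), Fk k i := by
    apply tsum_eq_sum
    intro i hi
    simp only [hFk]
    rw [if_neg]
    rw [Finset.mem_range] at hi
    omega
  rw [h1, coeff_mul, Finset.Nat.sum_antidiagonal_eq_sum_range_succ_mk, mul_sum, sum_div]
  refine sum_congr rfl fun i hi => ?_
  rw [Finset.mem_range] at hi
  simp only [hFk]
  rw [if_pos (by omega)]
  have e : w ^ k = w ^ i * w ^ (k - i) := by
    rw [← pow_add]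
    congr 1
    omega
  rw [e, inv_pow]
  field_simp

theorem bd_mul (g b : PowerSeries ℂ) (C q C' q' : ℝ) (hq0 : 0 ≤ q) (hq : q < q')
    (hg : ∀ k, ‖coeff k g‖ ≤ C * q ^ k) (hb : ∀ k, ‖coeff k b‖ ≤ C' * q' ^ k) :
    ∃ C'' : ℝ, ∀ k, ‖coeff k (g * b)‖ ≤ C'' * q' ^ k := by
  have hq' : 0 < q' := lt_of_le_of_lt hq0 hq
  have hC : 0 ≤ C := by
    have := hg 0
    rw [pow_zero, mul_one] at this
    exact (norm_nonneg _).trans this
  have hC' : 0 ≤ C' := by
    have := hb 0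
    rw [pow_zero, mul_one] at this
    exact (norm_nonneg _).trans this
  set r : ℝ := q / q' with hr
  have hr0 : 0 ≤ r := div_nonneg hq0 hq'.le
  have hr1 : r < 1 := by rwa [hr, div_lt_one hq']
  refine ⟨C * C' * (1 - r)⁻¹, fun k => ?_⟩
  rw [coeff_mul, Finset.Nat.sum_antidiagonal_eq_sum_range_succ_mk]
  have hgeom : ∑ i ∈ Finset.range (k + 1), r ^ i ≤ (1 - r)⁻¹ := by
    rw [← tsum_geometric_of_lt_one hr0 hr1]
    exact (summable_geometric_of_lt_one hr0 hr1).sum_le_tsum _ (fun i _ => by positivity)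
  calc ‖∑ i ∈ Finset.range (k + 1), coeff i g * coeff (k - i) b‖
      ≤ ∑ i ∈ Finset.range (k + 1), ‖coeff i g * coeff (k - i) b‖ := norm_sum_le _ _
    _ ≤ ∑ i ∈ Finset.range (k + 1), C * C' * q' ^ k * r ^ i := by
        refine sum_le_sum fun i hi => ?_
        rw [Finset.mem_range] at hi
        rw [norm_mul]
        calc ‖coeff i g‖ * ‖coeff (k - i) b‖ ≤ (C * q ^ i) * (C' * q' ^ (k - i)) :=
              mul_le_mul (hg i) (hb (k - i)) (norm_nonneg _) (by positivity)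
          _ = C * C' * q' ^ k * r ^ i := by
              have e : q' ^ k = q' ^ (k - i) * q' ^ i := by
                rw [← pow_add]
                congr 1
                omega
              rw [e, hr, div_pow]
              field_simp
    _ = C * C' * q' ^ k * ∑ i ∈ Finset.range (k + 1), r ^ i := by rw [mul_sum]
    _ ≤ C * C' * q' ^ k * (1 - r)⁻¹ := mul_le_mul_of_nonneg_left hgeom (by positivity)
    _ = C * C' * (1 - r)⁻¹ * q' ^ k := by ring

theorem negl (m : ℕ) (b : PowerSeries ℂ) (w : ℂ) (C q : ℝ) (hq0 : 0 ≤ q) (hq : q < ‖w‖)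
    (hb : ∀ k, ‖coeff k b‖ ≤ C * q ^ k) :
    Tendsto (fun k : ℕ => (k : ℂ) ^ m * coeff k b / w ^ k) atTop (𝓝 0) := by
  have hwn : 0 < ‖w‖ := lt_of_le_of_lt hq0 hq
  set r : ℝ := q / ‖w‖ with hr
  have hr0 : 0 ≤ r := div_nonneg hq0 hwn.le
  have hr1 : r < 1 := by rwa [hr, div_lt_one hwn]
  have h1 : Tendsto (fun k : ℕ => C * ((k : ℝ) ^ m * r ^ k)) atTop (𝓝 0) := by
    have := (tendsto_pow_const_mul_const_pow_of_abs_lt_one m
      (r := r) (by rw [abs_of_nonneg hr0]; exact hr1)).const_mul C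
    rwa [mul_zero] at this
  refine squeeze_zero_norm (fun k => ?_) h1
  rw [norm_div, norm_mul, norm_pow, norm_pow, Complex.norm_natCast]
  calc (k : ℝ) ^ m * ‖coeff k b‖ / ‖w‖ ^ k ≤ (k : ℝ) ^ m * (C * q ^ k) / ‖w‖ ^ k := by
        gcongr
        exact hb k
    _ = C * ((k : ℝ) ^ m * r ^ k) := by
        rw [hr, div_pow]
        ring

theorem lam_coeff (m k : ℕ) (hk : m < k) :
    coeff k (lam m) = (-1) ^ (m + 1) * (m.factorial : ℂ) * ((k - m - 1).factorial : ℂ) /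
      (k.factorial : ℂ) := by
  induction m generalizing k with
  | zero =>
    obtain ⟨j, rfl⟩ : ∃ j, k = j + 1 := ⟨k - 1, by omega⟩
    simp only [lam, pow_zero, one_mul, coeff_mk]
    have hf : (j.factorial : ℂ) ≠ 0 := by exact_mod_cast j.factorial_ne_zero
    have hj : ((j : ℂ) + 1) ≠ 0 := by exact_mod_cast (Nat.succ_ne_zero j)
    rw [show j + 1 - 0 - 1 = j by omega, Nat.factorial_succ]
    push_cast
    simp only [zero_add, pow_one, Nat.factorial_zero, Nat.cast_one, mul_one]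
    field_simp
  | succ m ih =>
    obtain ⟨j, rfl⟩ : ∃ j, k = j + m + 1 + 1 := ⟨k - m - 2, by omega⟩
    have hlam : lam (m + 1) = lam m - lam m * PowerSeries.X := by
      simp only [lam]
      ring
    rw [hlam, map_sub, coeff_succ_mul_X, ih (j + m + 1 + 1) (by omega), ih (j + m + 1) (by omega)]
    rw [show j + m + 1 + 1 - m - 1 = j + 1 by omega, show j + m + 1 - m - 1 = j by omega,
      show j + m + 1 + 1 - (m + 1) - 1 = j by omega, Nat.factorial_succ j,
      Nat.factorial_succ (j + m + 1), Nat.factorial_succ m]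
    have hf : ((j + m + 1).factorial : ℂ) ≠ 0 := by exact_mod_cast (j + m + 1).factorial_ne_zero
    have hj : ((j : ℂ) + m + 1 + 1) ≠ 0 := by exact_mod_cast (Nat.succ_ne_zero (j + m + 1))
    push_cast
    field_simp
    ring

theorem lam_asy (m : ℕ) :
    Tendsto (fun k : ℕ => (k : ℂ) ^ (m + 1) * coeff k (lam m)) atTop
      (𝓝 ((-1) ^ (m + 1) * (m.factorial : ℂ))) := by
  have h1 : Tendsto (fun k : ℕ => ∏ j ∈ Finset.range (m + 1), ((k : ℂ) / ((k : ℂ) + (-(j : ℂ)))))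
      atTop (𝓝 (∏ _j ∈ Finset.range (m + 1), (1 : ℂ))) :=
    tendsto_finset_prod _ fun j _ => tendsto_natCast_div_add_atTop (-(j : ℂ))
  rw [prod_const_one] at h1
  have h2 := h1.const_mul ((-1) ^ (m + 1) * (m.factorial : ℂ))
  rw [mul_one] at h2
  refine h2.congr' ?_
  filter_upwards [eventually_gt_atTop m] with k hk
  rw [lam_coeff m k hk, prod_div_distrib, prod_const, card_range]
  have h3 : (k.factorial : ℂ) = ((k - m - 1).factorial : ℂ) *
      ∏ j ∈ Finset.range (m + 1), ((k : ℂ) + (-(j : ℂ))) := by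
    have h4 := Nat.factorial_mul_descFactorial (n := k) (k := m + 1) (by omega)
    rw [show k - (m + 1) = k - m - 1 by omega] at h4
    rw [← h4, Nat.cast_mul, Nat.descFactorial_eq_prod_range, Nat.cast_prod]
    congr 1
    refine prod_congr rfl fun j hj => ?_
    rw [Finset.mem_range] at hj
    rw [Nat.cast_sub (by omega)]
    ring
  have hf : ((k - m - 1).factorial : ℂ) ≠ 0 := by exact_mod_cast (k - m - 1).factorial_ne_zero
  have hk0 : (k.factorial : ℂ) ≠ 0 := by exact_mod_cast k.factorial_ne_zero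
  have hp : ∏ j ∈ Finset.range (m + 1), ((k : ℂ) + (-(j : ℂ))) ≠ 0 := by
    intro h
    rw [h, mul_zero] at h3
    exact hk0 h3
  rw [h3]
  field_simp

theorem lam_rescale_asy (m : ℕ) (w : ℂ) (hw : w ≠ 0) :
    Tendsto (fun k : ℕ => (k : ℂ) ^ (m + 1) * coeff k (rescale w (lam m)) / w ^ k) atTop
      (𝓝 ((-1) ^ (m + 1) * (m.factorial : ℂ))) := by
  refine (lam_asy m).congr fun k => ?_
  rw [coeff_rescale]
  have : w ^ k ≠ 0 := pow_ne_zero _ hw
  field_simp

end Pool.OMG
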