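import Pool.Agent.OMG.Prod

/-!
# OMG PDER: `P' = L'/L + sum Lambda(n) n^(-2s) - H`, `H` holomorphic for `Re s > 2/5`

For `Re s > 1`: `P'(s) = - sum_p chi(p) log p p^-s` (`LSeries_deriv`),
`L'/L(s) = - sum chi(n) Lambda(n) n^-s` (`DirichletCharacter.LSeries_twist_vonMangoldt_eq`,
`LFunction_eq_LSeries`, `deriv_LFunction_eq_deriv_LSeries`). So `P' = L'/L + sum_n Lambda(n) n^(-2s)
- H` with `H(s) = sum_n h(n) n^-s`,
`h(n) = chi(n) 1_P(n) log n - chi(n) Lambda(n) + (Lambda(m) if n = m^2)`.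
`h(p) = 0`; `h(p^2) = -chi(p)^2 log p + log p = 0` for odd `p`, `h(4) = log 2`; in general
`|h(n)| <= 2 log p` if `n = p^k`, `h(n) = 0` otherwise. Summability of `|h(n)| n^(-sigma)` for
`sigma > 1/3`: sum over `(p, k)` with `k >= 3` (`Nat.Primes.prodNatEquiv : Primes × ℕ ≃ {n //
IsPrimePow n}`, `(p,k) ↦ p^(k+1)`): `sum_p 2 log p p^(-3 sigma)/(1 - 2^(-sigma)) < oo`. Then
`LSeries_differentiableOn` gives `H` holomorphic on `Re s > 2/5`.
-/

set_option autoImplicit false

open Complex Finset Filter Topology MeasureTheory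

namespace Pool.OMG

private noncomputable def sq (n : ℕ) : ℂ :=
  if IsSquare n then (ArithmeticFunction.vonMangoldt (Nat.sqrt n) : ℂ) else 0

private noncomputable def vM (n : ℕ) : ℂ := (ArithmeticFunction.vonMangoldt n : ℂ)

private noncomputable def chiv : ℕ → ℂ := (fun n : ℕ => chi n) * fun n : ℕ =>
  (ArithmeticFunction.vonMangoldt n : ℂ)

private noncomputable def hh : ℕ → ℂ := LSeries.logMul chip - chiv + sq

private lemma norm_chi_le (n : ℕ) : ‖chi n‖ ≤ 1 := chi.norm_le_one _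

private lemma chi_sq {p : ℕ} (hp : p.Prime) (h2 : p ≠ 2) : chi ((p ^ 2 : ℕ) : ZMod 4) = 1 := by
  have hodd : p % 2 = 1 := (hp.eq_two_or_odd).resolve_left h2
  have h4 : p ^ 2 % 4 = 1 := by
    have : p % 4 = 1 ∨ p % 4 = 3 := by omega
    rcases this with h | h <;> simp [pow_two, Nat.mul_mod, h]
  have h5 := (chi_odd (p ^ 2 / 4)).1
  have h6 : 4 * (p ^ 2 / 4) + 1 = p ^ 2 := by omega
  rwa [h6] at h5

private lemma sq_prime_pow_norm {p : ℕ} (hp : p.Prime) (k : ℕ) :
    ‖sq (p ^ k)‖ ≤ Real.log p := by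
  unfold sq
  split_ifs with h
  · rw [Complex.norm_real, Real.norm_of_nonneg ArithmeticFunction.vonMangoldt_nonneg]
    obtain ⟨m, hm⟩ := h
    rw [hm, Nat.sqrt_eq]
    have hdvd : m ∣ p ^ k := ⟨m, hm⟩
    obtain ⟨j, _, rfl⟩ := (Nat.dvd_prime_pow hp).1 hdvd
    rcases Nat.eq_zero_or_pos j with rfl | hj
    · rw [pow_zero, ArithmeticFunction.vonMangoldt_apply_one]
      exact Real.log_natCast_nonneg _
    · rw [ArithmeticFunction.vonMangoldt_apply_pow hj.ne',
        ArithmeticFunction.vonMangoldt_apply_prime hp]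
  · rw [norm_zero]
    exact Real.log_natCast_nonneg _

private lemma hh_prime {p : ℕ} (hp : p.Prime) : hh p = 0 := by
  have h1 : sq p = 0 := by
    unfold sq
    rw [if_neg hp.prime.not_isSquare]
  simp only [hh, Pi.add_apply, Pi.sub_apply, chiv, Pi.mul_apply, LSeries.logMul, chip, if_pos hp, h1,
    ArithmeticFunction.vonMangoldt_apply_prime hp, Complex.natCast_log]
  ring

private lemma hh_prime_sq {p : ℕ} (hp : p.Prime) (h2 : p ≠ 2) : hh (p ^ 2) = 0 := by
  have h1 : sq (p ^ 2) = Real.log p := by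
    unfold sq
    rw [if_pos ⟨p, by ring⟩, pow_two, Nat.sqrt_eq, ArithmeticFunction.vonMangoldt_apply_prime hp]
  have h3 : ¬ (p ^ 2).Prime := Nat.Prime.not_prime_pow (by norm_num)
  have h4 := chi_sq hp h2
  simp only [hh, Pi.add_apply, Pi.sub_apply, chiv, Pi.mul_apply, LSeries.logMul, chip, if_neg h3, h1,
    ArithmeticFunction.vonMangoldt_apply_pow two_ne_zero,
    ArithmeticFunction.vonMangoldt_apply_prime hp, h4]
  ring

private lemma hh_prime_pow_norm {p : ℕ} (hp : p.Prime) (k : ℕ) (hk : 2 ≤ k) :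
    ‖hh (p ^ k)‖ ≤ 2 * Real.log p := by
  have h3 : ¬ (p ^ k).Prime := Nat.Prime.not_prime_pow hk
  have h1 : hh (p ^ k) = - (chi ((p ^ k : ℕ) : ZMod 4) * Real.log p) + sq (p ^ k) := by
    simp only [hh, Pi.add_apply, Pi.sub_apply, chiv, Pi.mul_apply, LSeries.logMul, chip, if_neg h3,
      ArithmeticFunction.vonMangoldt_apply_pow (show k ≠ 0 by omega),
      ArithmeticFunction.vonMangoldt_apply_prime hp]
    ring
  rw [h1]
  refine (norm_add_le _ _).trans ?_
  have h4 := sq_prime_pow_norm hp k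
  have h5 : ‖-(chi ((p ^ k : ℕ) : ZMod 4) * (Real.log p : ℂ))‖ ≤ Real.log p := by
    rw [norm_neg, norm_mul, Complex.norm_real, Real.norm_of_nonneg (Real.log_natCast_nonneg _)]
    exact mul_le_of_le_one_left (Real.log_natCast_nonneg _) (norm_chi_le _)
  linarith

private lemma hh_not_primePow {n : ℕ} (hn : ¬ IsPrimePow n) : hh n = 0 := by
  have h1 : ¬ n.Prime := fun h => hn h.isPrimePow
  have h2 : ArithmeticFunction.vonMangoldt n = 0 :=
    ArithmeticFunction.vonMangoldt_eq_zero_iff.2 hn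
  have h3 : sq n = 0 := by
    unfold sq
    split_ifs with h
    · obtain ⟨m, hm⟩ := h
      rw [hm, Nat.sqrt_eq]
      have : ArithmeticFunction.vonMangoldt m = 0 := by
        rw [ArithmeticFunction.vonMangoldt_eq_zero_iff]
        intro hm'
        apply hn
        rw [hm, ← pow_two]
        exact hm'.pow two_ne_zero
      rw [this, Complex.ofReal_zero]
    · rfl
  simp only [hh, Pi.add_apply, Pi.sub_apply, chiv, Pi.mul_apply, LSeries.logMul, chip, if_neg h1,
    h2, h3]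
  simp

/-- the majorant -/
private noncomputable def uu (p : ℕ) : ℝ := 4 * Real.log p * (p : ℝ) ^ (-(6 / 5) : ℝ)

private noncomputable def vv (k : ℕ) : ℝ := ((2 : ℝ) ^ (-(2 / 5) : ℝ)) ^ (k - 2)

private lemma uu_nonneg (p : ℕ) : 0 ≤ uu p := by
  unfold uu
  have := Real.log_natCast_nonneg p
  positivity

private lemma vv_nonneg (k : ℕ) : 0 ≤ vv k := by
  unfold vv; positivity

private lemma vv_summable : Summable vv := by
  rw [← summable_nat_add_iff 2]
  have : (fun n => vv (n + 2)) = fun n => ((2 : ℝ) ^ (-(2 / 5) : ℝ)) ^ n := by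
    funext n; simp [vv]
  rw [this]
  apply summable_geometric_of_lt_one (by positivity)
  exact Real.rpow_lt_one_of_one_lt_of_neg (by norm_num) (by norm_num)

private lemma uu_summable : Summable uu := by
  have h : Summable (fun n : ℕ => 40 * (n : ℝ) ^ (-(11 / 10) : ℝ)) :=
    (Real.summable_nat_rpow.2 (by norm_num)).mul_left 40
  refine Summable.of_nonneg_of_le uu_nonneg (fun n => ?_) h
  rcases Nat.eq_zero_or_pos n with rfl | hn
  · unfold uu
    simp
  have hn' : (0 : ℝ) < n := by exact_mod_cast hn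
  unfold uu
  have h1 : Real.log n ≤ (n : ℝ) ^ (1 / 10 : ℝ) / (1 / 10) :=
    Real.log_le_rpow_div hn'.le (by norm_num)
  calc 4 * Real.log n * (n : ℝ) ^ (-(6 / 5) : ℝ)
      ≤ 4 * ((n : ℝ) ^ (1 / 10 : ℝ) / (1 / 10)) * (n : ℝ) ^ (-(6 / 5) : ℝ) := by gcongr
    _ = 40 * ((n : ℝ) ^ (1 / 10 : ℝ) * (n : ℝ) ^ (-(6 / 5) : ℝ)) := by ring
    _ = 40 * (n : ℝ) ^ (-(11 / 10) : ℝ) := by
        rw [← Real.rpow_add hn']
        norm_num

private lemma term_le (p : Nat.Primes) (k : ℕ) :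
    ‖hh ((p : ℕ) ^ (k + 1))‖ / (((p : ℕ) ^ (k + 1) : ℕ) : ℝ) ^ (2 / 5 : ℝ) ≤ uu p * vv k := by
  obtain ⟨p, hp⟩ := p
  have hp0 : (0 : ℝ) < p := by exact_mod_cast hp.pos
  have hlog : 0 ≤ Real.log p := Real.log_natCast_nonneg _
  change ‖hh (p ^ (k + 1))‖ / ((p ^ (k + 1) : ℕ) : ℝ) ^ (2 / 5 : ℝ) ≤ uu p * vv k
  have hnn : 0 ≤ uu p * vv k := mul_nonneg (uu_nonneg p) (vv_nonneg k)
  rcases Nat.eq_zero_or_pos k with rfl | hk
  · rw [zero_add, pow_one, hh_prime hp, norm_zero, zero_div]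
    exact hnn
  by_cases hk1 : k = 1
  · subst hk1
    by_cases h2 : p = 2
    · subst h2
      have h1 := hh_prime_pow_norm hp 2 le_rfl
      have h2 : vv 1 = 1 := by simp [vv]
      rw [h2, mul_one]
      unfold uu
      have h3 : (((2 ^ (1 + 1) : ℕ) : ℝ)) ^ (2 / 5 : ℝ) = (2 : ℝ) ^ (4 / 5 : ℝ) := by
        have : (((2 ^ (1 + 1) : ℕ) : ℝ)) = (2 : ℝ) ^ (2 : ℝ) := by norm_num
        rw [this, ← Real.rpow_mul (by norm_num)]
        norm_num
      rw [h3, div_le_iff₀ (by positivity)]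
      have h4 : ((2 : ℕ) : ℝ) ^ (-(6 / 5) : ℝ) * (2 : ℝ) ^ (4 / 5 : ℝ) = (2 : ℝ) ^ (-(2 / 5) : ℝ) := by
        rw [Nat.cast_ofNat, ← Real.rpow_add (by norm_num)]
        norm_num
      rw [mul_assoc, h4]
      have h5 : (1 / 2 : ℝ) ≤ (2 : ℝ) ^ (-(2 / 5) : ℝ) := by
        have : (1 / 2 : ℝ) = (2 : ℝ) ^ (-1 : ℝ) := by
          rw [Real.rpow_neg_one]; norm_num
        rw [this]
        exact Real.rpow_le_rpow_of_exponent_le (by norm_num) (by norm_num)
      have h6 : 4 * Real.log ((2 : ℕ) : ℝ) * (1 / 2) ≤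
          4 * Real.log ((2 : ℕ) : ℝ) * (2 : ℝ) ^ (-(2 / 5) : ℝ) :=
        mul_le_mul_of_nonneg_left h5 (by positivity)
      have h7 : ‖hh (2 ^ (1 + 1))‖ ≤ 2 * Real.log ((2 : ℕ) : ℝ) := h1
      have h8 : 2 * Real.log ((2 : ℕ) : ℝ) = 4 * Real.log ((2 : ℕ) : ℝ) * (1 / 2) := by ring
      rw [h8] at h7
      exact h7.trans h6
    · have : hh (p ^ (1 + 1)) = 0 := hh_prime_sq hp h2
      rw [this, norm_zero, zero_div]
      exact hnn
  · have hk2 : 2 ≤ k := by omega
    obtain ⟨j, rfl⟩ := Nat.exists_eq_add_of_le hk2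
    have h1 := hh_prime_pow_norm hp (2 + j + 1) (by omega)
    have h2 : vv (2 + j) = ((2 : ℝ) ^ (-(2 / 5) : ℝ)) ^ j := by
      unfold vv
      congr 1
      omega
    have h3 : (((p ^ (2 + j + 1) : ℕ) : ℝ)) ^ (2 / 5 : ℝ) =
        (p : ℝ) ^ (6 / 5 : ℝ) * ((p : ℝ) ^ (2 / 5 : ℝ)) ^ j := by
      rw [Nat.cast_pow, ← Real.rpow_natCast, ← Real.rpow_natCast, ← Real.rpow_mul hp0.le,
        ← Real.rpow_mul hp0.le, ← Real.rpow_add hp0]
      congr 1
      push_cast
      ring
    rw [h2, h3, div_le_iff₀ (by positivity)]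
    unfold uu
    have h4 : (p : ℝ) ^ (-(6 / 5) : ℝ) * (p : ℝ) ^ (6 / 5 : ℝ) = 1 := by
      rw [← Real.rpow_add hp0]
      norm_num
    have h5 : 1 ≤ ((2 : ℝ) ^ (-(2 / 5) : ℝ)) ^ j * ((p : ℝ) ^ (2 / 5 : ℝ)) ^ j := by
      rw [← mul_pow]
      apply one_le_pow₀
      have : (2 : ℝ) ^ (-(2 / 5) : ℝ) * (2 : ℝ) ^ (2 / 5 : ℝ) = 1 := by
        rw [← Real.rpow_add (by norm_num)]
        norm_num
      rw [← this]
      have hp2 : (2 : ℝ) ≤ p := by exact_mod_cast hp.two_le
      gcongr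
    calc ‖hh (p ^ (2 + j + 1))‖ ≤ 4 * Real.log p * 1 := by linarith
      _ ≤ 4 * Real.log p * (((2 : ℝ) ^ (-(2 / 5) : ℝ)) ^ j * ((p : ℝ) ^ (2 / 5 : ℝ)) ^ j) :=
          mul_le_mul_of_nonneg_left h5 (by positivity)
      _ = 4 * Real.log p * ((p : ℝ) ^ (-(6 / 5) : ℝ) * (p : ℝ) ^ (6 / 5 : ℝ)) *
          (((2 : ℝ) ^ (-(2 / 5) : ℝ)) ^ j * ((p : ℝ) ^ (2 / 5 : ℝ)) ^ j) := by rw [h4]; ring
      _ = _ := by ring

private lemma hh_summable : LSeriesSummable hh (((2 / 5 : ℝ) : ℂ)) := by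
  apply Summable.of_norm
  have hinj : Function.Injective (fun q : Nat.Primes × ℕ => (q.1 : ℕ) ^ (q.2 + 1)) := by
    intro a b hab
    apply Nat.Primes.prodNatEquiv.injective
    apply Subtype.ext
    rw [Nat.Primes.coe_prodNatEquiv_apply, Nat.Primes.coe_prodNatEquiv_apply]
    exact hab
  have hsupp : ∀ n ∉ Set.range (fun q : Nat.Primes × ℕ => (q.1 : ℕ) ^ (q.2 + 1)),
      ‖LSeries.term hh (((2 / 5 : ℝ) : ℂ)) n‖ = 0 := by
    intro n hn
    rw [LSeries.norm_term_eq]
    split_ifs with h0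
    · rfl
    · have : ¬ IsPrimePow n := by
        intro h
        apply hn
        refine ⟨Nat.Primes.prodNatEquiv.symm ⟨n, h⟩, ?_⟩
        have := Nat.Primes.coe_prodNatEquiv_apply (Nat.Primes.prodNatEquiv.symm ⟨n, h⟩).1
          (Nat.Primes.prodNatEquiv.symm ⟨n, h⟩).2
        rw [Prod.mk.eta, Equiv.apply_symm_apply] at this
        exact this.symm
      rw [hh_not_primePow this, norm_zero, zero_div]
  rw [← hinj.summable_iff hsupp]
  have hprod : Summable (fun q : Nat.Primes × ℕ => uu q.1 * vv q.2) := by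
    have h1 : Summable (fun p : Nat.Primes => uu p) :=
      uu_summable.comp_injective Nat.Primes.coe_nat_injective
    exact h1.mul_of_nonneg vv_summable (fun p => uu_nonneg p) vv_nonneg
  refine Summable.of_nonneg_of_le (fun q => norm_nonneg _) (fun q => ?_) hprod
  rw [Function.comp_apply, LSeries.norm_term_eq]
  have hne : (q.1 : ℕ) ^ (q.2 + 1) ≠ 0 := pow_ne_zero _ q.1.2.ne_zero
  rw [if_neg hne, Complex.ofReal_re]
  exact term_le q.1 q.2

private lemma hh_abs : LSeries.abscissaOfAbsConv hh ≤ ((2 / 5 : ℝ) : EReal) := by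
  have := hh_summable.abscissaOfAbsConv_le
  rwa [Complex.ofReal_re] at this

private lemma chip_abs {s : ℂ} (hs : 1 < s.re) : LSeries.abscissaOfAbsConv chip < s.re := by
  have h : (1 : ℝ) < (1 + s.re) / 2 := by linarith
  have h1 : LSeriesSummable chip (((1 + s.re) / 2 : ℝ) : ℂ) :=
    chip_summable (by rw [Complex.ofReal_re]; exact h)
  have h2 := h1.abscissaOfAbsConv_le
  rw [Complex.ofReal_re] at h2
  refine lt_of_le_of_lt h2 ?_
  exact_mod_cast (by linarith : (1 + s.re) / 2 < s.re)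

private lemma sq_LSeries (s : ℂ) :
    LSeries (fun n => (ArithmeticFunction.vonMangoldt n : ℂ)) (2 * s) = LSeries sq s := by
  unfold LSeries
  have hinj : Function.Injective (fun m : ℕ => m * m) := by
    intro a b hab
    exact Nat.mul_self_inj.1 hab
  have hsupp : Function.support (fun n => LSeries.term sq s n) ⊆
      Set.range (fun m : ℕ => m * m) := by
    intro n hn
    by_contra hcon
    apply hn
    have : sq n = 0 := by
      unfold sq
      rw [if_neg]
      rintro ⟨m, hm⟩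
      exact hcon ⟨m, hm.symm⟩
    simp [LSeries.term, this]
  rw [← hinj.tsum_eq hsupp]
  apply tsum_congr
  intro m
  rcases Nat.eq_zero_or_pos m with rfl | hm
  · simp
  · rw [LSeries.term_of_ne_zero hm.ne', LSeries.term_of_ne_zero (Nat.mul_pos hm hm).ne']
    have h1 : sq (m * m) = (ArithmeticFunction.vonMangoldt m : ℂ) := by
      unfold sq
      rw [if_pos ⟨m, rfl⟩, Nat.sqrt_eq]
    rw [h1]
    congr 1
    rw [Nat.cast_mul, Complex.natCast_mul_natCast_cpow, two_mul,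
      Complex.cpow_add _ _ (by exact_mod_cast hm.ne')]

theorem P_deriv : ∃ H : ℂ → ℂ, DifferentiableOn ℂ H {s | 2 / 5 < s.re} ∧
    ∀ s : ℂ, 1 < s.re → deriv P s = deriv Lf s / Lf s +
      LSeries (fun n => (ArithmeticFunction.vonMangoldt n : ℂ)) (2 * s) - H s := by
  refine ⟨LSeries hh, ?_, ?_⟩
  · refine (LSeries_differentiableOn hh).mono ?_
    intro s hs
    have hs : 2 / 5 < s.re := hs
    refine lt_of_le_of_lt hh_abs ?_
    exact_mod_cast hs
  · intro s hs
    have h1 : deriv P s = - LSeries (LSeries.logMul chip) s := LSeries_deriv (chip_abs hs)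
    have h2 : deriv Lf s / Lf s = - LSeries chiv s := by
      have h3 := DirichletCharacter.LSeries_twist_vonMangoldt_eq chi hs
      have h4 : deriv Lf s = deriv (LSeries (fun n : ℕ => chi n)) s :=
        DirichletCharacter.deriv_LFunction_eq_deriv_LSeries chi hs
      have h5 : Lf s = LSeries (fun n : ℕ => chi n) s :=
        DirichletCharacter.LFunction_eq_LSeries chi hs
      have h6 : LSeries chiv s = - deriv (LSeries (fun n : ℕ => chi n)) s /
        LSeries (fun n : ℕ => chi n) s := h3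
      rw [h6, h4, h5]
      ring
    have hs1 : LSeriesSummable (LSeries.logMul chip) s :=
      LSeriesSummable_logMul_of_lt_re (chip_abs hs)
    have hs2 : LSeriesSummable chiv s :=
      DirichletCharacter.LSeriesSummable_twist_vonMangoldt chi hs
    have hs3 : LSeriesSummable hh s := by
      apply LSeriesSummable_of_abscissaOfAbsConv_lt_re
      refine lt_of_le_of_lt hh_abs ?_
      exact_mod_cast (by linarith : (2 / 5 : ℝ) < s.re)
    have hsq : sq = hh - LSeries.logMul chip + chiv := by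
      unfold hh
      ring
    have h7 : LSeries sq s = LSeries hh s - LSeries (LSeries.logMul chip) s + LSeries chiv s := by
      rw [hsq, LSeries_add (hs3.sub hs1) hs2, LSeries_sub hs3 hs1]
    rw [sq_LSeries, h7, h1, h2]
    ring

end Pool.OMG
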