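import Pool.Agent.OMG.Ser

/-!
# OMG ZER: a generic centre `s0`

`CaseA s0`: no zeros of `L` in a disc slightly larger than `|s - s0| <= s0 - 1/2`.
`CaseB s0`: the zeros nearest to `s0` are one pair `rho, conj rho`, non-real, strictly inside.

Proof of `cases_exist`. Let `B >= 1`, look for `s0` in `(B, B+1)`. All discs
`|s - s0| <= s0 - 1/2` lie in the compact set `K = closedBall 0 (2B+2)`; zeros of `Lf` in `K` are
finitely many (`Lf` entire, not identically zero: pattern `IsCompact.inter_riemannZetaZeros_finite`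
in `Mathlib/NumberTheory/LSeries/ZetaZeros.lean`). For two zeros `rho, rho'` with `Im > 0`,
`rho != rho'`, equality `|s0 - rho| = |s0 - rho'|` is a linear equation in `s0`,
`2 s0 (Re rho' - Re rho) = |rho'|^2 - |rho|^2`, which has at most one solution (if the real parts
agree, the imaginary parts, both positive, differ and there is no solution). For one zero,
`|s0 - rho| = s0 - 1/2` means `s0 (1 - 2 Re rho) = 1/4 - |rho|^2`: at most one solution (if
`Re rho = 1/2` it forces `Im rho = 0`, impossible for `Im rho > 0`). So choose `s0` in `(B, B+1)`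
outside a finite set of bad values. If no zero lies in `closedBall s0 (s0-1/2)`, then by
compactness some larger disc is zero-free: `CaseA`. Otherwise take a zero `rho` in that disc
nearest to `s0`. A point of the disc has `Re >= 1/2`, so `rho` is not real (`Lf_real_ne`; real
points have `Re > 0`), we may take `Im rho > 0` (`Lf_conj`), `|rho - s0| < s0 - 1/2` by the
choice of `s0`, and by the choice of `s0` the other zeros in the closed disc are strictly farther: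
finitely many, so there is `R1` with `|rho-s0| < R1 <= s0 - 1/2` and only `rho`, `conj rho` in
`ball s0 R1`.
-/

set_option autoImplicit false

open Complex Finset Filter Topology MeasureTheory

namespace Pool.OMG

def CaseA (s0 : ℝ) : Prop := ∃ R1 : ℝ, s0 - 1 / 2 < R1 ∧ ∀ s ∈ Metric.ball (s0 : ℂ) R1, Lf s ≠ 0

def CaseB (s0 : ℝ) : Prop := ∃ (ρ : ℂ) (R1 : ℝ), ρ.im ≠ 0 ∧ 1 / 2 < ρ.re ∧
  dist ρ (s0 : ℂ) < R1 ∧ R1 ≤ s0 - 1 / 2 ∧
  Lf ρ = 0 ∧ ∀ s ∈ Metric.ball (s0 : ℂ) R1, Lf s = 0 → s = ρ ∨ s = (starRingEnd ℂ) ρ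

/-- a zero-free closed disc gives Case A -/
theorem caseA_of_closedBall {s0 : ℝ}
    (h : ∀ s ∈ Metric.closedBall (s0 : ℂ) (s0 - 1 / 2), Lf s ≠ 0) : CaseA s0 := by
  rcases lt_or_ge (s0 - 1 / 2) 0 with hneg | hpos
  · refine ⟨0, hneg, fun s hs => ?_⟩
    rw [Metric.ball_zero] at hs
    exact absurd hs (Set.notMem_empty s)
  · have hopen : IsOpen {s : ℂ | Lf s ≠ 0} :=
      isOpen_ne_fun Lf_differentiable.continuous continuous_const
    obtain ⟨δ, hδ, hsub⟩ := (isCompact_closedBall (s0 : ℂ) (s0 - 1 / 2)).exists_thickening_subset_open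
      hopen h
    rw [thickening_closedBall hδ hpos] at hsub
    exact ⟨δ + (s0 - 1 / 2), by linarith, fun s hs => hsub hs⟩

/-- Any compact set contains only finitely many zeros of `Lf`. -/
private theorem zeros_finite {K : Set ℂ} (hK : IsCompact K) : (K ∩ {s : ℂ | Lf s = 0}).Finite := by
  have han : AnalyticOnNhd ℂ Lf Set.univ := fun z _ => Lf_differentiable.analyticAt z
  have h1 : Lf ⁻¹' {0}ᶜ ∈ Filter.codiscrete ℂ :=
    AnalyticOnNhd.preimage_zero_mem_codiscreteWithin (x := ((1 : ℝ) : ℂ)) han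
      (Lf_real_ne one_pos) (Set.mem_univ _) isConnected_univ
  have h2 : (Lf ⁻¹' {0}ᶜ)ᶜ = {s : ℂ | Lf s = 0} := by
    ext s
    simp
  have h3 : IsClosed {s : ℂ | Lf s = 0} := by
    rw [← h2]; exact (mem_codiscrete'.mp h1).1.isClosed_compl
  have h4 : IsDiscrete {s : ℂ | Lf s = 0} := by
    rw [← h2]; exact (mem_codiscrete'.mp h1).2
  exact (hK.inter_right h3).finite (h4.mono Set.inter_subset_right)

private theorem dist_sq (x : ℝ) (ρ : ℂ) :
    dist (x : ℂ) ρ ^ 2 = x ^ 2 - 2 * x * ρ.re + (ρ.re ^ 2 + ρ.im ^ 2) := by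
  rw [Complex.dist_eq, Complex.sq_norm, Complex.normSq_apply]
  simp only [Complex.sub_re, Complex.sub_im, Complex.ofReal_re, Complex.ofReal_im]
  ring

/-- equal distances from two different points of the upper half plane -/
private theorem bad_pair {ρ ρ' : ℂ} (h : 0 < ρ.im) (h' : 0 < ρ'.im) (hne : ρ ≠ ρ') :
    {x : ℝ | dist (x : ℂ) ρ = dist (x : ℂ) ρ'}.Finite := by
  refine Set.Subsingleton.finite fun x hx y hy => ?_
  by_contra hxy
  have e1 : dist (x : ℂ) ρ ^ 2 = dist (x : ℂ) ρ' ^ 2 := by rw [hx]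
  have e2 : dist (y : ℂ) ρ ^ 2 = dist (y : ℂ) ρ' ^ 2 := by rw [hy]
  rw [dist_sq, dist_sq] at e1 e2
  have h1 : (x - y) * (ρ.re - ρ'.re) = 0 := by linarith
  have h2 : ρ.re = ρ'.re := by
    rcases mul_eq_zero.1 h1 with h3 | h3
    · exact absurd (sub_eq_zero.1 h3) hxy
    · exact sub_eq_zero.1 h3
  rw [h2] at e1
  have h4 : (ρ.im - ρ'.im) * (ρ.im + ρ'.im) = 0 := by linarith
  have h5 : ρ.im = ρ'.im := by
    rcases mul_eq_zero.1 h4 with h3 | h3
    · exact sub_eq_zero.1 h3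
    · linarith
  exact hne (Complex.ext h2 h5)

/-- a point of the upper half plane on the circle of radius `x - 1/2` -/
private theorem bad_one {ρ : ℂ} (h : 0 < ρ.im) :
    {x : ℝ | dist (x : ℂ) ρ = x - 1 / 2}.Finite := by
  refine Set.Subsingleton.finite fun x hx y hy => ?_
  by_contra hxy
  have e1 : dist (x : ℂ) ρ ^ 2 = (x - 1 / 2) ^ 2 := by rw [hx]
  have e2 : dist (y : ℂ) ρ ^ 2 = (y - 1 / 2) ^ 2 := by rw [hy]
  rw [dist_sq] at e1 e2
  have h1 : (x - y) * (1 - 2 * ρ.re) = 0 := by linarith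
  have h2 : ρ.re = 1 / 2 := by
    rcases mul_eq_zero.1 h1 with h3 | h3
    · exact absurd (sub_eq_zero.1 h3) hxy
    · linarith
  rw [h2] at e1
  have h4 : ρ.im ^ 2 = 0 := by linarith
  have h5 : ρ.im = 0 := pow_eq_zero_iff (two_ne_zero) |>.1 h4
  linarith

private theorem dist_conj (x : ℝ) (s : ℂ) :
    dist ((starRingEnd ℂ) s) (x : ℂ) = dist s (x : ℂ) := by
  rw [Complex.dist_eq, Complex.dist_eq, ← Complex.norm_conj (s - x), map_sub, Complex.conj_ofReal]

/-- a generic centre -/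
private theorem exists_generic (B : ℝ) {Z : Set ℂ} (hZ : Z.Finite) :
    ∃ s0 : ℝ, B < s0 ∧ s0 < B + 1 ∧
      (∀ ρ ∈ Z, ∀ ρ' ∈ Z, 0 < ρ.im → 0 < ρ'.im → ρ ≠ ρ' →
        dist (s0 : ℂ) ρ ≠ dist (s0 : ℂ) ρ') ∧
      ∀ ρ ∈ Z, 0 < ρ.im → dist (s0 : ℂ) ρ ≠ s0 - 1 / 2 := by
  classical
  set bad : Set ℝ := (⋃ ρ ∈ Z, ⋃ ρ' ∈ Z, {x : ℝ | 0 < ρ.im ∧ 0 < ρ'.im ∧ ρ ≠ ρ' ∧
    dist (x : ℂ) ρ = dist (x : ℂ) ρ'}) ∪ ⋃ ρ ∈ Z, {x : ℝ | 0 < ρ.im ∧
    dist (x : ℂ) ρ = x - 1 / 2} with hbad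
  have hfin : bad.Finite := by
    refine Set.Finite.union ?_ ?_
    · refine hZ.biUnion fun ρ _ => hZ.biUnion fun ρ' _ => ?_
      by_cases h : 0 < ρ.im ∧ 0 < ρ'.im ∧ ρ ≠ ρ'
      · exact (bad_pair h.1 h.2.1 h.2.2).subset fun x hx => hx.2.2.2
      · refine (Set.finite_empty).subset fun x hx => h ⟨hx.1, hx.2.1, hx.2.2.1⟩
    · refine hZ.biUnion fun ρ _ => ?_
      by_cases h : 0 < ρ.im
      · exact (bad_one h).subset fun x hx => hx.2
      · exact (Set.finite_empty).subset fun x hx => h hx.1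
  obtain ⟨s0, hs0, hnb⟩ := (Set.Ioo_infinite (show B < B + 1 by linarith)).exists_notMem_finite hfin
  refine ⟨s0, hs0.1, hs0.2, ?_, ?_⟩
  · intro ρ hρ ρ' hρ' h1 h2 h3 h4
    apply hnb
    left
    simp only [Set.mem_iUnion]
    exact ⟨ρ, hρ, ρ', hρ', h1, h2, h3, h4⟩
  · intro ρ hρ h1 h2
    apply hnb
    right
    simp only [Set.mem_iUnion]
    exact ⟨ρ, hρ, h1, h2⟩

theorem cases_exist (B : ℝ) : ∃ s0 : ℝ, B < s0 ∧ (CaseA s0 ∨ CaseB s0) := by
  set B' : ℝ := max B 1 with hB'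
  have hB1 : 1 ≤ B' := le_max_right _ _
  set Z : Set ℂ := Metric.closedBall (0 : ℂ) (2 * B' + 2) ∩ {s : ℂ | Lf s = 0} with hZ
  have hZfin : Z.Finite := zeros_finite (isCompact_closedBall _ _)
  obtain ⟨s0, h1, h2, hpair, hone⟩ := exists_generic B' hZfin
  refine ⟨s0, lt_of_le_of_lt (le_max_left _ _) h1, ?_⟩
  have hmemZ : ∀ s, dist s (s0 : ℂ) ≤ s0 - 1 / 2 → Lf s = 0 → s ∈ Z := by
    intro s hs hs0
    refine ⟨?_, hs0⟩
    rw [Metric.mem_closedBall]
    have h3 := dist_triangle s (s0 : ℂ) 0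
    have h4 : dist (s0 : ℂ) 0 = s0 := by
      rw [dist_zero_right, Complex.norm_real, Real.norm_eq_abs, abs_of_pos (by linarith)]
    linarith
  by_cases hA : ∀ s ∈ Metric.closedBall (s0 : ℂ) (s0 - 1 / 2), Lf s ≠ 0
  · exact Or.inl (caseA_of_closedBall hA)
  · right
    push Not at hA
    obtain ⟨z, hz, hz0⟩ := hA
    set Z0 : Set ℂ := {s : ℂ | dist s (s0 : ℂ) ≤ s0 - 1 / 2 ∧ Lf s = 0} with hZ0
    have hZ0fin : Z0.Finite := hZfin.subset fun s hs => hmemZ s hs.1 hs.2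
    obtain ⟨w, hw, hwmin⟩ := Set.exists_min_image Z0 (fun s => dist s (s0 : ℂ)) hZ0fin
      ⟨z, hz, hz0⟩
    -- conjugates
    have hconj : ∀ s ∈ Z0, (starRingEnd ℂ) s ∈ Z0 := by
      intro s hs
      refine ⟨by rw [dist_conj]; exact hs.1, ?_⟩
      rw [Lf_conj, hs.2, map_zero]
    have hre : ∀ s ∈ Z0, 1 / 2 ≤ s.re := by
      intro s hs
      have h3 : |(s - (s0 : ℂ)).re| ≤ s0 - 1 / 2 := by
        refine (Complex.abs_re_le_norm _).trans ?_
        rw [← Complex.dist_eq]; exact hs.1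
      rw [Complex.sub_re, Complex.ofReal_re] at h3
      have := (abs_le.1 h3).1
      linarith
    have him : ∀ s ∈ Z0, s.im ≠ 0 := by
      intro s hs h3
      have h4 : s = ((s.re : ℝ) : ℂ) := Complex.ext (by simp) (by simp [h3])
      have h5 : Lf ((s.re : ℝ) : ℂ) ≠ 0 := Lf_real_ne (by linarith [hre s hs])
      rw [← h4] at h5
      exact h5 hs.2
    -- a representative in the upper half plane
    have hup : ∀ s ∈ Z0, ∃ s' ∈ Z0, 0 < s'.im ∧ dist s' (s0 : ℂ) = dist s (s0 : ℂ) ∧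
        (s = s' ∨ s = (starRingEnd ℂ) s') := by
      intro s hs
      rcases lt_or_gt_of_ne (him s hs) with h3 | h3
      · exact ⟨(starRingEnd ℂ) s, hconj s hs, by rw [Complex.conj_im]; linarith, dist_conj _ _,
          Or.inr (by rw [Complex.conj_conj])⟩
      · exact ⟨s, hs, h3, rfl, Or.inl rfl⟩
    obtain ⟨ρ, hρ, hρim, hρd, -⟩ := hup w hw
    have hρmin : ∀ s ∈ Z0, dist ρ (s0 : ℂ) ≤ dist s (s0 : ℂ) := by
      intro s hs
      rw [hρd]; exact hwmin s hs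
    have hρlt : dist ρ (s0 : ℂ) < s0 - 1 / 2 := by
      refine lt_of_le_of_ne hρ.1 ?_
      have := hone ρ (hmemZ ρ hρ.1 hρ.2) hρim
      rwa [dist_comm] at this
    have hρre : 1 / 2 < ρ.re := by
      have h3 : |(ρ - (s0 : ℂ)).re| < s0 - 1 / 2 := by
        refine (Complex.abs_re_le_norm _).trans_lt ?_
        rw [← Complex.dist_eq]; exact hρlt
      rw [Complex.sub_re, Complex.ofReal_re] at h3
      have := (abs_lt.1 h3).1
      linarith
    have hstrict : ∀ s ∈ Z0, s ≠ ρ → s ≠ (starRingEnd ℂ) ρ → dist ρ (s0 : ℂ) < dist s (s0 : ℂ) := by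
      intro s hs h3 h4
      refine lt_of_le_of_ne (hρmin s hs) fun h5 => ?_
      obtain ⟨s', hs', hs'im, hs'd, hs'e⟩ := hup s hs
      have hne : ρ ≠ s' := by
        rintro rfl
        rcases hs'e with h6 | h6
        · exact h3 h6
        · exact h4 h6
      apply hpair ρ (hmemZ ρ hρ.1 hρ.2) s' (hmemZ s' hs'.1 hs'.2) hρim hs'im hne
      rw [dist_comm _ ρ, dist_comm _ s', hs'd, h5]
    set Z1 : Set ℂ := {s : ℂ | s ∈ Z0 ∧ s ≠ ρ ∧ s ≠ (starRingEnd ℂ) ρ} with hZ1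
    have hZ1fin : Z1.Finite := hZ0fin.subset fun s hs => hs.1
    rcases Set.eq_empty_or_nonempty Z1 with hemp | hne
    · refine ⟨ρ, s0 - 1 / 2, hρim.ne', hρre, hρlt, le_rfl, hρ.2, fun s hs hs0 => ?_⟩
      by_contra hcon
      push Not at hcon
      have : s ∈ Z1 := ⟨⟨(Metric.mem_ball.1 hs).le, hs0⟩, hcon.1, hcon.2⟩
      rw [hemp] at this
      exact this
    · obtain ⟨v, hv, hvmin⟩ := Set.exists_min_image Z1 (fun s => dist s (s0 : ℂ)) hZ1fin hne
      refine ⟨ρ, dist v (s0 : ℂ), hρim.ne', hρre, hstrict v hv.1 hv.2.1 hv.2.2, hv.1.1, hρ.2,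
        fun s hs hs0 => ?_⟩
      by_contra hcon
      push Not at hcon
      have h3 := Metric.mem_ball.1 hs
      have : s ∈ Z1 := ⟨⟨(h3.le.trans hv.1.1), hs0⟩, hcon.1, hcon.2⟩
      exact absurd h3 (not_lt.2 (hvmin s this))

end Pool.OMG
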