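import Pool.Agent.OMG.Defs

/-!
# OMG ZET: the contribution of `zeta(2s)`

For `Re w > 1`: `sum Lambda(n) n^-w = -zeta'(w)/zeta(w)`
(`ArithmeticFunction.LSeries_vonMangoldt_eq_deriv_riemannZeta_div`). Let `Z(w) = (w-1) zeta(w)`,
entire with `Z(1) = 1` (Mathlib: `DirichletCharacter.LFunctionTrivChar₁` at level 1, or
`Function.update`), `Z(w) != 0` for `Re w >= 1` (`riemannZeta_ne_zero_of_one_le_re`), and
`-zeta'/zeta(w) = 1/(w-1) - Z'/Z(w)`. With `w = 2s`: `1/(2s-1) = (1/2)/(s-1/2)`. Take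
`U = {s | Z(2s) != 0}`, open, contains `Re s >= 1/2`, and `E(s) = -Z'(2s)/Z(2s)`.
-/

set_option autoImplicit false

open Complex Finset Filter Topology MeasureTheory

namespace Pool.OMG

private lemma ZET_ne {w : ℂ} (hw : 1 ≤ w.re) : DirichletCharacter.LFunctionTrivChar₁ 1 w ≠ 0 := by
  rcases eq_or_ne w 1 with rfl | hw'
  · exact DirichletCharacter.LFunctionTrivChar₁_apply_one_ne_zero 1
  · rw [DirichletCharacter.LFunctionTrivChar₁, Function.update_of_ne hw', mul_ne_zero_iff]
    refine ⟨sub_ne_zero_of_ne hw', ?_⟩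
    rw [DirichletCharacter.LFunctionTrivChar, DirichletCharacter.LFunction_modOne_eq]
    exact riemannZeta_ne_zero_of_one_le_re hw

theorem zeta_part : ∃ U : Set ℂ, IsOpen U ∧ {s : ℂ | 1 / 2 ≤ s.re} ⊆ U ∧ ∃ E : ℂ → ℂ,
    DifferentiableOn ℂ E U ∧ ∀ s : ℂ, 1 / 2 < s.re →
      LSeries (fun n => (ArithmeticFunction.vonMangoldt n : ℂ)) (2 * s) =
        (1 / 2) / (s - 1 / 2) + E s := by
  set Z : ℂ → ℂ := DirichletCharacter.LFunctionTrivChar₁ 1 with hZ
  have hZd : Differentiable ℂ Z := DirichletCharacter.differentiable_LFunctionTrivChar₁ 1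
  have hZd' : Differentiable ℂ (deriv Z) := fun z => (hZd.analyticAt z).deriv.differentiableAt
  have hre : ∀ s : ℂ, ((2 : ℂ) * s).re = 2 * s.re := fun s => by simp
  refine ⟨{s | Z (2 * s) ≠ 0}, ?_, ?_, fun s => -(deriv Z (2 * s) / Z (2 * s)), ?_, ?_⟩
  · have hc : Continuous fun s : ℂ => Z (2 * s) := hZd.continuous.comp (by fun_prop)
    exact isOpen_ne_fun hc continuous_const
  · intro s hs
    have hs' : 1 / 2 ≤ s.re := hs
    refine ZET_ne ?_
    rw [hre]; linarith
  · intro s hs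
    have h2 : DifferentiableAt ℂ (fun s : ℂ => (2 : ℂ) * s) s := by fun_prop
    have h3 : DifferentiableAt ℂ (fun s : ℂ => Z (2 * s)) s :=
      DifferentiableAt.comp s (hZd (2 * s)) h2
    have h4 : DifferentiableAt ℂ (fun s : ℂ => deriv Z (2 * s)) s :=
      DifferentiableAt.comp s (hZd' (2 * s)) h2
    exact ((h4.div h3 hs).neg).differentiableWithinAt
  · intro s hs
    have hw : 1 < ((2 : ℂ) * s).re := by rw [hre]; linarith
    have hw1 : (2 : ℂ) * s ≠ 1 := by
      intro h
      rw [h] at hw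
      simp at hw
    rw [ArithmeticFunction.LSeries_vonMangoldt_eq_deriv_riemannZeta_div hw]
    have h1 : Z (2 * s) = (2 * s - 1) * riemannZeta (2 * s) := by
      rw [hZ, DirichletCharacter.LFunctionTrivChar₁, Function.update_of_ne hw1,
        DirichletCharacter.LFunctionTrivChar, DirichletCharacter.LFunction_modOne_eq]
    have h2 : deriv Z (2 * s) = (2 * s - 1) * deriv riemannZeta (2 * s) + riemannZeta (2 * s) := by
      rw [hZ, DirichletCharacter.deriv_LFunctionTrivChar₁_apply_of_ne_one 1 hw1]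
      have : DirichletCharacter.LFunctionTrivChar 1 = riemannZeta := by
        rw [DirichletCharacter.LFunctionTrivChar, DirichletCharacter.LFunction_modOne_eq]
      rw [this]
    have hz : riemannZeta (2 * s) ≠ 0 := riemannZeta_ne_zero_of_one_le_re hw.le
    have h3 : (2 : ℂ) * s - 1 ≠ 0 := sub_ne_zero_of_ne hw1
    have h4 : s - 1 / 2 ≠ 0 := by
      intro h
      apply h3
      linear_combination 2 * h
    show _ = (1 / 2) / (s - 1 / 2) + -(deriv Z (2 * s) / Z (2 * s))
    rw [h1, h2]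
    have h5 : (1 / 2 : ℂ) / (s - 1 / 2) = 1 / (2 * s - 1) := by
      rw [div_eq_div_iff h4 h3]; ring
    rw [h5]
    field_simp
    ring

end Pool.OMG
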