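import Pool.Agent.OMG.Tay
import Pool.Agent.OMG.Asy
import Pool.Agent.OMG.Pder
import Pool.Agent.OMG.Zet
import Pool.Agent.OMG.Zer

/-!
# OMG CASE A: the nearest singularity is `s = 1/2`

`P_deriv_rep` combines `P_deriv` and `zeta_part` (`U = U' ∩ {2/5 < Re s}`).

`pA`: in Case A there is `R1 > r = s0 - 1/2` with `ball s0 R1 ⊆ U` and `Lf != 0` on it: the closed
disc of radius `r` meets `Re s <= 1/2` only at `1/2`, so it is contained in the open set `U`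
(`IsCompact.exists_cthickening_subset_open` or `exists_thickening`). Hence
`P' = (1/2)/(s-1/2) + a(s)` near `s0`, `a = L'/L + K` holomorphic on `ball s0 R1`. By `T_deriv`,
`T_congr`, `T_add`, `T_inv`: `coeff (k+1) (T s0 P) = -( (1/2) w^(k+1) + a_k)/(k+1)`, `w = 1/r`, and
`|a_k| <= C (1/q)^k` with `r < q < R1` (`T_bound`); so `k coeff_k(T s0 P)/w^k -> -1/2`.

`caseA_asy`: `asy_conv` with `m = 1`, `b = T s0 P`, `w = 1/r`, `C0 = -1/2`, `g = T s0 G`
(`T_bound` with some `q` between `r` and `R`, and `T_hasSum` at the point `1/2`, where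
`s0 - 1/2 = w⁻¹`).
-/

set_option autoImplicit false

open Complex Finset Filter Topology MeasureTheory PowerSeries

namespace Pool.OMG

theorem P_deriv_rep : ∃ U : Set ℂ, IsOpen U ∧ {s : ℂ | 1 / 2 ≤ s.re} ⊆ U ∧ ∃ K : ℂ → ℂ,
    DifferentiableOn ℂ K U ∧ ∀ s : ℂ, 1 < s.re →
      deriv P s = deriv Lf s / Lf s + (1 / 2) / (s - 1 / 2) + K s := by
  obtain ⟨H, hH, hP⟩ := P_deriv
  obtain ⟨U, hU, hsub, E, hE, hL⟩ := zeta_part
  refine ⟨U ∩ {s | 2 / 5 < s.re}, hU.inter (isOpen_lt continuous_const Complex.continuous_re), ?_,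
    fun s => E s - H s, ?_, ?_⟩
  · intro s hs
    have hs' : 1 / 2 ≤ s.re := hs
    refine ⟨hsub hs, ?_⟩
    show 2 / 5 < s.re
    linarith
  · exact (hE.mono Set.inter_subset_left).sub (hH.mono Set.inter_subset_right)
  · intro s hs
    rw [hP s hs, hL s (by linarith)]
    ring

private lemma CA_ball {s0 : ℝ} (h1 : 1 < s0) {U : Set ℂ} (hU : IsOpen U)
    (hsub : {s : ℂ | 1 / 2 ≤ s.re} ⊆ U) :
    ∃ R : ℝ, s0 - 1 / 2 < R ∧ Metric.ball (s0 : ℂ) R ⊆ U := by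
  have hcl : Metric.closedBall (s0 : ℂ) (s0 - 1 / 2) ⊆ U := by
    intro s hs
    apply hsub
    show 1 / 2 ≤ s.re
    have h2 : |(s - s0).re| ≤ ‖s - s0‖ := Complex.abs_re_le_norm _
    rw [Metric.mem_closedBall, dist_eq_norm] at hs
    have h3 := neg_abs_le (s - s0).re
    simp only [Complex.sub_re, Complex.ofReal_re] at h2 h3
    linarith
  obtain ⟨δ, hδ, hδU⟩ := (isCompact_closedBall (s0 : ℂ) (s0 - 1 / 2)).exists_thickening_subset_open
    hU hcl
  rw [thickening_closedBall hδ (by linarith)] at hδU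
  exact ⟨δ + (s0 - 1 / 2), by linarith, hδU⟩

private lemma CA_norm {s0 : ℝ} (h1 : 1 < s0) : ‖(s0 : ℂ) - 1 / 2‖ = s0 - 1 / 2 := by
  have : (s0 : ℂ) - 1 / 2 = ((s0 - 1 / 2 : ℝ) : ℂ) := by push_cast; ring
  rw [this, Complex.norm_real, Real.norm_of_nonneg (by linarith)]

theorem pA {s0 : ℝ} (h1 : 1 < s0) (hA : CaseA s0) :
    Tendsto (fun k : ℕ => (k : ℂ) ^ 1 * coeff k (T (s0 : ℂ) P) / ((1 / ((s0 : ℂ) - 1 / 2))) ^ k)
      atTop (𝓝 (-1 / 2)) := by
  obtain ⟨U, hU, hsub, K, hK, hP⟩ := P_deriv_rep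
  obtain ⟨R2, hR2, hR2U⟩ := CA_ball h1 hU hsub
  obtain ⟨R1, hR1, hne⟩ := hA
  set R : ℝ := min R1 R2 with hRdef
  have hR : s0 - 1 / 2 < R := lt_min hR1 hR2
  have hb1 : Metric.ball (s0 : ℂ) R ⊆ Metric.ball (s0 : ℂ) R1 :=
    Metric.ball_subset_ball (min_le_left _ _)
  have hb2 : Metric.ball (s0 : ℂ) R ⊆ U := (Metric.ball_subset_ball (min_le_right _ _)).trans hR2U
  set a : ℂ → ℂ := fun s => deriv Lf s / Lf s + K s with ha
  have hLd : Differentiable ℂ Lf := Lf_differentiable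
  have had : DifferentiableOn ℂ a (Metric.ball (s0 : ℂ) R) := by
    refine DifferentiableOn.add ?_ (hK.mono hb2)
    refine DifferentiableOn.div ?_ hLd.differentiableOn (fun s hs => hne s (hb1 hs))
    intro s _
    exact (hLd.analyticAt s).deriv.differentiableAt.differentiableWithinAt
  have hr0 : (0 : ℝ) < s0 - 1 / 2 := by linarith
  have hs0R : (s0 : ℂ) ∈ Metric.ball (s0 : ℂ) R := Metric.mem_ball_self (by linarith)
  have haan : AnalyticAt ℂ a s0 := had.analyticAt (Metric.isOpen_ball.mem_nhds hs0R)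
  have hc : (s0 : ℂ) ≠ 1 / 2 := by
    intro h
    have := CA_norm h1
    rw [h, sub_self, norm_zero] at this
    linarith
  have hinvan : AnalyticAt ℂ (fun s : ℂ => (1 / 2 : ℂ) / (s - 1 / 2)) s0 := by
    refine analyticAt_const.div (analyticAt_id.sub analyticAt_const) ?_
    exact sub_ne_zero_of_ne hc
  have hev : deriv P =ᶠ[𝓝 (s0 : ℂ)] fun s => (1 / 2 : ℂ) / (s - 1 / 2) + a s := by
    have hopen : IsOpen {s : ℂ | 1 < s.re} := isOpen_lt continuous_const Complex.continuous_re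
    filter_upwards [hopen.mem_nhds (show (s0 : ℂ) ∈ {s : ℂ | 1 < s.re} by simpa using h1)] with s hs
    rw [hP s hs]
    simp only [ha]
    ring
  have hcoef : ∀ k, coeff (k + 1) (T (s0 : ℂ) P) =
      -((1 / 2) * (1 / ((s0 : ℂ) - 1 / 2)) ^ (k + 1) + coeff k (T (s0 : ℂ) a)) / ((k : ℂ) + 1) := by
    intro k
    rw [T_deriv, T_congr hev, T_add hinvan haan, map_add, T_inv hc]
  obtain ⟨q, hq1, hq2⟩ := exists_between hR
  have hq0 : 0 < q := by linarith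
  obtain ⟨Cb, hCb⟩ := T_bound had hq0 hq2
  set w : ℂ := 1 / ((s0 : ℂ) - 1 / 2) with hw
  have hw0 : w ≠ 0 := one_div_ne_zero (sub_ne_zero_of_ne hc)
  have hwn : ‖w‖ = 1 / (s0 - 1 / 2) := by rw [hw, norm_div, CA_norm h1, norm_one]
  rw [← tendsto_add_atTop_iff_nat 1]
  have hform : ∀ k : ℕ, ((k + 1 : ℕ) : ℂ) ^ 1 * coeff (k + 1) (T (s0 : ℂ) P) / w ^ (k + 1) =
      -1 / 2 - coeff k (T (s0 : ℂ) a) / w ^ (k + 1) := by
    intro k
    rw [hcoef k]
    have h2 : ((k : ℂ) + 1) ≠ 0 := by exact_mod_cast Nat.succ_ne_zero k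
    have h3 : w ^ (k + 1) ≠ 0 := pow_ne_zero _ hw0
    push_cast
    field_simp
    ring
  simp_rw [hform]
  have hz : Tendsto (fun k : ℕ => coeff k (T (s0 : ℂ) a) / w ^ (k + 1)) atTop (𝓝 0) := by
    rw [tendsto_zero_iff_norm_tendsto_zero]
    have hlim : Tendsto (fun k : ℕ => Cb * (s0 - 1 / 2) * ((s0 - 1 / 2) / q) ^ k) atTop (𝓝 0) := by
      have := tendsto_pow_atTop_nhds_zero_of_lt_one (r := (s0 - 1 / 2) / q) (by positivity)
        (by rw [div_lt_one hq0]; exact hq1)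
      simpa using this.const_mul (Cb * (s0 - 1 / 2))
    refine squeeze_zero (fun k => norm_nonneg _) (fun k => ?_) hlim
    rw [norm_div, norm_pow, hwn, one_div, inv_pow, div_inv_eq_mul]
    have := mul_le_mul_of_nonneg_right (hCb k) (by positivity : 0 ≤ (s0 - 1 / 2) ^ (k + 1))
    refine this.trans (le_of_eq ?_)
    rw [div_pow, div_pow, one_pow, pow_succ]
    ring
  simpa using tendsto_const_nhds.sub hz

theorem caseA_asy {s0 : ℝ} (h1 : 1 < s0) (hA : CaseA s0) (G : ℂ → ℂ) (R : ℝ)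
    (hR : s0 - 1 / 2 < R) (hG : DifferentiableOn ℂ G (Metric.ball (s0 : ℂ) R)) :
    Tendsto (fun k : ℕ => (k : ℂ) * coeff k (T (s0 : ℂ) G * T (s0 : ℂ) P) *
      ((s0 : ℂ) - 1 / 2) ^ k) atTop (𝓝 (-(G (1 / 2)) / 2)) := by
  obtain ⟨q, hq1, hq2⟩ := exists_between hR
  have hr0 : (0 : ℝ) < s0 - 1 / 2 := by linarith
  have hq0 : 0 < q := by linarith
  obtain ⟨Cb, hCb⟩ := T_bound hG hq0 hq2
  have hn := CA_norm h1
  have hc : (s0 : ℂ) - 1 / 2 ≠ 0 := by
    intro h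
    rw [h, norm_zero] at hn
    linarith
  set w : ℂ := 1 / ((s0 : ℂ) - 1 / 2) with hw
  have hw0 : w ≠ 0 := one_div_ne_zero hc
  have hwn : ‖w‖ = 1 / (s0 - 1 / 2) := by rw [hw, norm_div, hn, norm_one]
  have hwinv : w⁻¹ = (s0 : ℂ) - 1 / 2 := by rw [hw]; simp
  have hmem : (1 / 2 : ℂ) ∈ Metric.ball (s0 : ℂ) R := by
    rw [Metric.mem_ball, dist_comm, dist_eq_norm, hn]
    exact hR
  have hs : HasSum (fun k => coeff k (T (s0 : ℂ) G) * (w⁻¹) ^ k) (G (1 / 2)) := by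
    rw [hwinv]
    exact T_hasSum hG hmem
  have hqw : 1 / q < ‖w‖ := by
    rw [hwn]
    exact one_div_lt_one_div_of_lt hr0 hq1
  have := asy_conv 1 (T (s0 : ℂ) G) (T (s0 : ℂ) P) w (-1 / 2) hw0 (pA h1 hA) Cb (1 / q)
    (by positivity) hqw hCb (G (1 / 2)) hs
  have h2 : (-1 / 2 : ℂ) * G (1 / 2) = -(G (1 / 2)) / 2 := by ring
  rw [h2] at this
  refine this.congr (fun k => ?_)
  rw [pow_one, div_eq_mul_inv, ← inv_pow, hwinv]

end Pool.OMG
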