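import Pool.Agent.OMG.Defs

/-!
# OMG COS: a non-real rotation takes values below `-eta` with bounded gaps

Let `v_k = Re(C w^k)`, `|w| = 1`, `w^2 != 1` (so `w != 1`). Sums over any block of length `M`:
`|sum v_k| <= 2|C|/|1-w| =: B` (geometric sum), and `v_k^2 = |C|^2/2 + Re(C^2 w^(2k))/2`, so
`sum v_k^2 >= M |C|^2/2 - B'`, `B' = |C|^2/|1-w^2|`. If `v_k > -eta` on the block, then
`|v_k| <= v_k + 2 eta`, so `sum |v_k| <= B + 2 eta M` and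
`sum v_k^2 <= |C| sum |v_k| <= |C| (B + 2 eta M)`. With `eta = |C|/8`:
`M|C|^2/2 - B' <= |C| B + M |C|^2/4`, false for large `M`. `cos_gap'` : apply it to `-C`.
-/

set_option autoImplicit false

open Complex Finset Filter Topology MeasureTheory

namespace Pool.OMG

theorem geo_bound {w : ℂ} (hw : ‖w‖ = 1) (h1 : w ≠ 1) (M : ℕ) :
    ‖∑ i ∈ range M, w ^ i‖ ≤ 2 / ‖w - 1‖ := by
  rw [geom_sum_eq h1, norm_div]
  have h2 : ‖w ^ M - 1‖ ≤ 2 := by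
    calc ‖w ^ M - 1‖ ≤ ‖w ^ M‖ + ‖(1 : ℂ)‖ := norm_sub_le _ _
      _ = 2 := by rw [norm_pow, hw, one_pow, norm_one]; norm_num
  exact div_le_div_of_nonneg_right h2 (norm_nonneg _)

theorem re_sq_eq (z : ℂ) : z.re ^ 2 = ‖z‖ ^ 2 / 2 + (z ^ 2).re / 2 := by
  rw [← Complex.normSq_eq_norm_sq, Complex.normSq_apply]
  simp only [pow_two, Complex.mul_re]
  ring

theorem cos_gap {C w : ℂ} (hC : C ≠ 0) (hw : ‖w‖ = 1) (h2 : w ^ 2 ≠ 1) :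
    ∃ η : ℝ, 0 < η ∧ ∃ N : ℕ, ∀ k0 : ℕ, ∃ k, k0 ≤ k ∧ k ≤ k0 + N ∧ (C * w ^ k).re ≤ -η := by
  have h1 : w ≠ 1 := fun h => h2 (by rw [h, one_pow])
  have hc : 0 < ‖C‖ := norm_pos_iff.2 hC
  obtain ⟨M, hM⟩ := exists_nat_gt (4 * (1 / ‖w ^ 2 - 1‖ + 2 / ‖w - 1‖))
  refine ⟨‖C‖ / 8, by positivity, M, fun k0 => ?_⟩
  by_contra hcon
  push Not at hcon
  have hv : ∀ i ∈ range M, -(‖C‖ / 8) < (C * w ^ (k0 + i)).re := fun i hi =>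
    hcon (k0 + i) (by omega) (by have := mem_range.1 hi; omega)
  have hnorm : ∀ k : ℕ, ‖C * w ^ k‖ = ‖C‖ := fun k => by
    rw [norm_mul, norm_pow, hw, one_pow, mul_one]
  -- the sum of the values
  have hsum : ∑ i ∈ range M, (C * w ^ (k0 + i)).re ≤ ‖C‖ * (2 / ‖w - 1‖) := by
    have e : ∑ i ∈ range M, (C * w ^ (k0 + i)).re = (C * w ^ k0 * ∑ i ∈ range M, w ^ i).re := by
      rw [Finset.mul_sum, Complex.re_sum]
      refine Finset.sum_congr rfl fun i _ => ?_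
      rw [pow_add, mul_assoc]
    rw [e]
    calc (C * w ^ k0 * ∑ i ∈ range M, w ^ i).re ≤ ‖C * w ^ k0 * ∑ i ∈ range M, w ^ i‖ :=
          Complex.re_le_norm _
      _ = ‖C‖ * ‖∑ i ∈ range M, w ^ i‖ := by rw [norm_mul, hnorm]
      _ ≤ ‖C‖ * (2 / ‖w - 1‖) := mul_le_mul_of_nonneg_left (geo_bound hw h1 M) hc.le
  -- the sum of the squares from below
  have hsq : (M : ℝ) * (‖C‖ ^ 2 / 2) - ‖C‖ ^ 2 * (2 / ‖w ^ 2 - 1‖) / 2 ≤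
      ∑ i ∈ range M, (C * w ^ (k0 + i)).re ^ 2 := by
    have e : ∑ i ∈ range M, (C * w ^ (k0 + i)).re ^ 2 =
        (M : ℝ) * (‖C‖ ^ 2 / 2) + (C ^ 2 * w ^ (2 * k0) * ∑ i ∈ range M, (w ^ 2) ^ i).re / 2 := by
      have e1 : ∀ i ∈ range M, (C * w ^ (k0 + i)).re ^ 2 =
          ‖C‖ ^ 2 / 2 + (C ^ 2 * w ^ (2 * k0) * (w ^ 2) ^ i).re / 2 := fun i _ => by
        rw [re_sq_eq, hnorm]
        congr 3
        ring
      rw [Finset.sum_congr rfl e1, Finset.sum_add_distrib, Finset.sum_const, card_range,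
        nsmul_eq_mul, ← Finset.sum_div, Finset.mul_sum, Complex.re_sum]
    rw [e]
    have hb : -(‖C‖ ^ 2 * (2 / ‖w ^ 2 - 1‖)) ≤
        (C ^ 2 * w ^ (2 * k0) * ∑ i ∈ range M, (w ^ 2) ^ i).re := by
      have h3 : ‖C ^ 2 * w ^ (2 * k0) * ∑ i ∈ range M, (w ^ 2) ^ i‖ ≤
          ‖C‖ ^ 2 * (2 / ‖w ^ 2 - 1‖) := by
        rw [norm_mul, norm_mul, norm_pow, norm_pow, hw, one_pow, mul_one]
        exact mul_le_mul_of_nonneg_left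
          (geo_bound (by rw [norm_pow, hw, one_pow]) h2 M) (by positivity)
      have h4 := neg_le_of_abs_le ((Complex.abs_re_le_norm
        (C ^ 2 * w ^ (2 * k0) * ∑ i ∈ range M, (w ^ 2) ^ i)).trans h3)
      exact h4
    linarith
  -- the sum of the squares from above
  have hup : ∑ i ∈ range M, (C * w ^ (k0 + i)).re ^ 2 ≤
      ‖C‖ * (∑ i ∈ range M, (C * w ^ (k0 + i)).re + (M : ℝ) * (2 * (‖C‖ / 8))) := by
    have e : ‖C‖ * (∑ i ∈ range M, (C * w ^ (k0 + i)).re + (M : ℝ) * (2 * (‖C‖ / 8))) =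
        ∑ i ∈ range M, ‖C‖ * ((C * w ^ (k0 + i)).re + 2 * (‖C‖ / 8)) := by
      rw [← Finset.mul_sum, Finset.sum_add_distrib, Finset.sum_const, card_range, nsmul_eq_mul]
    rw [e]
    refine Finset.sum_le_sum fun i hi => ?_
    have h3 := hv i hi
    have h4 : |(C * w ^ (k0 + i)).re| ≤ ‖C‖ := by
      rw [← hnorm (k0 + i)]
      exact Complex.abs_re_le_norm _
    have h5 : |(C * w ^ (k0 + i)).re| ≤ (C * w ^ (k0 + i)).re + 2 * (‖C‖ / 8) := by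
      rw [abs_le]
      constructor <;> linarith
    rw [← sq_abs, pow_two]
    exact mul_le_mul h4 h5 (abs_nonneg _) hc.le
  have h6 : ‖C‖ * (∑ i ∈ range M, (C * w ^ (k0 + i)).re + (M : ℝ) * (2 * (‖C‖ / 8))) ≤
      ‖C‖ * (‖C‖ * (2 / ‖w - 1‖) + (M : ℝ) * (2 * (‖C‖ / 8))) :=
    mul_le_mul_of_nonneg_left (by linarith) hc.le
  have h7 : ‖C‖ ^ 2 * ((M : ℝ) - 4 * (1 / ‖w ^ 2 - 1‖ + 2 / ‖w - 1‖)) ≤ 0 := by
    have e1 : ‖C‖ ^ 2 * (2 / ‖w ^ 2 - 1‖) / 2 = ‖C‖ ^ 2 * (1 / ‖w ^ 2 - 1‖) := by ring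
    rw [e1] at hsq
    nlinarith [hsq, hup, h6]
  have h8 : 0 < ‖C‖ ^ 2 * ((M : ℝ) - 4 * (1 / ‖w ^ 2 - 1‖ + 2 / ‖w - 1‖)) :=
    mul_pos (by positivity) (by linarith)
  linarith

theorem cos_gap' {C w : ℂ} (hC : C ≠ 0) (hw : ‖w‖ = 1) (h2 : w ^ 2 ≠ 1) :
    ∃ η : ℝ, 0 < η ∧ ∃ N : ℕ, ∀ k0 : ℕ, ∃ k, k0 ≤ k ∧ k ≤ k0 + N ∧ η ≤ (C * w ^ k).re := by
  obtain ⟨η, hη, N, h⟩ := cos_gap (neg_ne_zero.2 hC) hw h2
  refine ⟨η, hη, N, fun k0 => ?_⟩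
  obtain ⟨k, h3, h4, h5⟩ := h k0
  refine ⟨k, h3, h4, ?_⟩
  rw [neg_mul, Complex.neg_re] at h5
  linarith

end Pool.OMG
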