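import Mathlib

/-!
# MP_e44ca4_nt: sums of omega(n) over 1 and 3 mod 4, definitions

`chi` is the nontrivial character mod 4 with complex values, `A x = S_1(x) - S_3(x)`.
-/

set_option autoImplicit false

open Complex Finset Filter Topology MeasureTheory

namespace Pool.OMG

/-- `S_a(x)`: the sum of `omega(n)` over `1 <= n <= x`, `n = a mod 4`. -/
noncomputable def S (a : ℕ) (x : ℝ) : ℝ :=
  ∑ n ∈ (Icc 1 ⌊x⌋₊).filter (fun n => n % 4 = a), (ArithmeticFunction.cardDistinctFactors n : ℝ)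

/-- `L(1/2, chi)` as the series `sum_k (1/sqrt(4k+1) - 1/sqrt(4k+3))`. -/
noncomputable def Lhalf : ℝ := ∑' k : ℕ, (1 / √(4 * (k : ℝ) + 1) - 1 / √(4 * (k : ℝ) + 3))

/-- the nontrivial character mod 4 -/
noncomputable def chi : DirichletCharacter ℂ 4 := ZMod.χ₄.ringHomComp (Int.castRingHom ℂ)

/-- the entire function `L(s, chi)` -/
noncomputable def Lf (s : ℂ) : ℂ := chi.LFunction s

/-- coefficients `chi(n) omega(n)` -/
noncomputable def chiw (n : ℕ) : ℂ := chi n * (ArithmeticFunction.cardDistinctFactors n : ℂ)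

/-- coefficients `chi(p)` on primes -/
noncomputable def chip (n : ℕ) : ℂ := if n.Prime then chi n else 0

/-- `F(s) = sum chi(n) omega(n) n^-s` -/
noncomputable def F (s : ℂ) : ℂ := LSeries chiw s

/-- `P(s) = sum_p chi(p) p^-s` -/
noncomputable def P (s : ℂ) : ℂ := LSeries chip s

/-- `A(x) = S_1(x) - S_3(x)` -/
noncomputable def A (x : ℝ) : ℝ := S 1 x - S 3 x

/-- the Gamma-weighted averages `J_k = int_0^oo A(e^y) e^(-s0 y) y^k / k! dy` -/
noncomputable def J (s0 : ℝ) (k : ℕ) : ℝ :=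
  ∫ y in Set.Ioi (0 : ℝ), A (Real.exp y) * Real.exp (-s0 * y) * y ^ k / (k.factorial : ℝ)

/-- Taylor coefficients in the variable `c - s`: `f(s) = sum_k coeff k (T c f) (c-s)^k`. -/
noncomputable def T (c : ℂ) (f : ℂ → ℂ) : PowerSeries ℂ :=
  PowerSeries.mk fun k => (-1) ^ k * iteratedDeriv k f c / (k.factorial : ℂ)

/-- the power series `(1 - X)^m log(1 - X)` -/
noncomputable def lam (m : ℕ) : PowerSeries ℂ :=
  (1 - PowerSeries.X) ^ m * PowerSeries.mk fun k => -(1 : ℂ) / (k : ℂ)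

end Pool.OMG
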