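import Pool.Agent.OMG.Loc

/-!
# OMG FIN: discrete intermediate value argument

Put `h(n) = √n / log n`, `g(n) = S_3(n) - S_1(n) = -A(n)`. We may assume `ε <= 1`. Apply
`loc_lower` with `ε' = ε/2`, `c = Lhalf - ε/2` and `loc_upper` with `c' = Lhalf + ε/2` to the window
`[Y', (1+ε')Y']`, `Y' = log (X+1)`: real points `x, x'` in `[X+1, (X+1)^(1+ε')]`, and put
`n = ⌊x⌋, n' = ⌊x'⌋`, in `[X, X^(1+ε)]` for large `X`. As `A(x) = A(n)` (`A_floor`):
`g(n) > (Lhalf - ε/2) √x/log x >= (Lhalf - ε) h(n)` and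
`g(n') < (Lhalf + ε/2) √x'/log x' <= (Lhalf + ε) h(n')` for large `X`
(`√x/log x = h(⌊x⌋)(1+O(1/x))`; note `Lhalf - ε` may be negative: use `|√x/log x - h(n)| <= 1`,
and `h(n) -> oo`). If `g(n) <= (Lhalf+ε) h(n)` we are done with `n`; if `g(n') >= (Lhalf-ε)h(n')` we
are done with `n'`. Otherwise `g(n) > (Lhalf+ε) h(n)`, `g(n') < (Lhalf-ε) h(n')`; walking from `n` to
`n'` (either direction) there are consecutive integers `a, b` between them with
`g(a) >= (Lhalf) h(a)`.. choose consecutive `a, b = a ± 1` with `g(a) > Lhalf h(a)` and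
`g(b) <= Lhalf h(b)`; then `|g(b) - Lhalf h(b)| <= |g(b)-g(a)| + Lhalf |h(b)-h(a)| <= 3 log(X..)`,
at most `ε h(b)` (`A_jump`, `Lhalf <= 1`), so `b` works.
-/

set_option autoImplicit false

open Complex Finset Filter Topology MeasureTheory

namespace Pool.OMG

/-- the comparison function -/
noncomputable def finH (x : ℝ) : ℝ := √x / Real.log x

theorem fin_log_ge {x : ℝ} (hx : 3 ≤ x) : 1 ≤ Real.log x := by
  rw [Real.le_log_iff_exp_le (by linarith)]
  have := Real.exp_one_lt_d9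
  linarith

theorem fin_comp_aux {x x' : ℝ} (hx : 3 ≤ x) (h1 : x ≤ x') (h2 : x' ≤ x + 1) :
    |finH x' - finH x| ≤ 1 := by
  have hl := fin_log_ge hx
  have hx0 : 0 < x := by linarith
  have hll : Real.log x ≤ Real.log x' := Real.log_le_log hx0 h1
  have hs0 : 1 ≤ √x := by
    rw [Real.one_le_sqrt]
    linarith
  have hss : √x ≤ √x' := Real.sqrt_le_sqrt h1
  have hsq : √x' ≤ √x + 1 := by
    rw [Real.sqrt_le_left (by linarith)]
    have := Real.sq_sqrt hx0.le
    nlinarith
  have hdiff : Real.log x' - Real.log x ≤ 1 / x := by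
    rw [← Real.log_div (by linarith) (by linarith)]
    have h3 := Real.log_le_sub_one_of_pos (x := x' / x) (div_pos (by linarith) hx0)
    refine h3.trans ?_
    rw [div_sub_one hx0.ne']
    exact div_le_div_of_nonneg_right (by linarith) hx0.le
  unfold finH
  rw [abs_le]
  constructor
  · -- lower bound
    have h3 : √x / Real.log x' ≤ √x' / Real.log x' :=
      div_le_div_of_nonneg_right hss (by linarith)
    have h4 : √x / Real.log x - √x / Real.log x' ≤ 1 := by
      have hp1 : 0 < Real.log x := by linarith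
      have hp2 : 0 < Real.log x' := by linarith
      have h5 : √x / Real.log x - √x / Real.log x' =
          √x * (Real.log x' - Real.log x) / (Real.log x * Real.log x') := by
        field_simp
      rw [h5, div_le_one (by positivity)]
      have h6 : √x * (Real.log x' - Real.log x) ≤ √x * (1 / x) :=
        mul_le_mul_of_nonneg_left hdiff (by linarith)
      have h7 : √x * (1 / x) ≤ 1 := by
        rw [mul_one_div, div_le_one hx0]
        have := Real.sq_sqrt hx0.le
        nlinarith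
      have h8 : 1 ≤ Real.log x * Real.log x' := by nlinarith
      linarith
    linarith
  · have h3 : √x' / Real.log x' ≤ √x' / Real.log x :=
      div_le_div_of_nonneg_left (Real.sqrt_nonneg _) (by linarith) hll
    have h4 : √x' / Real.log x - √x / Real.log x ≤ 1 := by
      rw [← sub_div, div_le_one (by linarith)]
      linarith
    linarith

theorem fin_comp {x x' : ℝ} (hx : 3 ≤ x) (hx' : 3 ≤ x') (h : |x' - x| ≤ 1) :
    |finH x' - finH x| ≤ 1 := by
  rw [abs_le] at h
  rcases le_total x x' with h1 | h1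
  · exact fin_comp_aux hx h1 (by linarith)
  · rw [abs_sub_comm]
    exact fin_comp_aux hx' h1 (by linarith)

/-- discrete intermediate value argument -/
theorem fin_ivt_aux (f : ℕ → ℝ) (i j : ℕ) (hi : 0 < f i) (hj : f j ≤ 0) (hij : i ≤ j) :
    ∃ a, i ≤ a ∧ a < j ∧ |f a| ≤ |f (a + 1) - f a| := by
  by_contra hn
  push Not at hn
  have key : ∀ m, i + m ≤ j → 0 < f (i + m) := by
    intro m
    induction m with
    | zero => intro _; exact hi
    | succ m ih =>
      intro hm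
      have h1 := ih (by omega)
      have h2 := hn (i + m) (by omega) (by omega)
      rw [abs_of_pos h1, abs_lt] at h2
      have : i + (m + 1) = i + m + 1 := by omega
      rw [this]
      linarith [h2.1]
  obtain ⟨m, rfl⟩ : ∃ m, j = i + m := ⟨j - i, by omega⟩
  have := key m le_rfl
  linarith

theorem fin_ivt (f : ℕ → ℝ) (i j : ℕ) (hi : 0 < f i) (hj : f j < 0) :
    ∃ a, min i j ≤ a ∧ a < max i j ∧ |f a| ≤ |f (a + 1) - f a| := by
  rcases le_total i j with h | h
  · obtain ⟨a, h1, h2, h3⟩ := fin_ivt_aux f i j hi hj.le h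
    exact ⟨a, by omega, by omega, h3⟩
  · obtain ⟨a, h1, h2, h3⟩ := fin_ivt_aux (fun n => - f n) j i (by simpa using hj)
      (by simpa using hi.le) h
    refine ⟨a, by omega, by omega, ?_⟩
    simp only [abs_neg] at h3
    have : |(-f (a + 1)) - (-f a)| = |f (a + 1) - f a| := by
      rw [← abs_neg]
      congr 1
      ring
    rwa [this] at h3

/-- the comparison function tends to infinity, quickly -/
theorem fin_large (K ε : ℝ) (hK : 0 ≤ K) (hε : 0 < ε) : ∃ M : ℝ, 3 ≤ M ∧ ∀ t : ℝ, M ≤ t →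
    K ≤ finH t ∧ Real.log (t + 1) / Real.log 2 + K ≤ ε * finH t := by
  have h1 := (isLittleO_log_rpow_atTop (show (0 : ℝ) < 1 / 8 by norm_num)).bound one_pos
  have h2 : Tendsto (fun t : ℝ => t ^ (1 / 8 : ℝ)) atTop atTop :=
    tendsto_rpow_atTop (by norm_num)
  have h3 := h2.eventually_ge_atTop (max 1 (max K ((3 + K) / ε)))
  have h4 := (h1.and h3).and (eventually_ge_atTop (3 : ℝ))
  obtain ⟨M, hM⟩ := h4.exists_forall_of_atTop
  refine ⟨max M 3, le_max_right _ _, ?_⟩
  intro t ht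
  obtain ⟨⟨g1, g2⟩, g3⟩ := hM t ((le_max_left _ _).trans ht)
  have ht0 : 0 < t := by linarith
  set s := t ^ (1 / 8 : ℝ) with hs
  have hs0 : 0 < s := Real.rpow_pos_of_pos ht0 _
  have hl := fin_log_ge g3
  rw [one_mul, Real.norm_of_nonneg (by linarith), Real.norm_of_nonneg hs0.le] at g1
  have k1 : 1 ≤ s := (le_max_left _ _).trans g2
  have k2 : K ≤ s := (le_max_left _ _).trans ((le_max_right _ _).trans g2)
  have k3 : (3 + K) / ε ≤ s := (le_max_right _ _).trans ((le_max_right _ _).trans g2)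
  have hsqrt : √t = s ^ 4 := by
    rw [Real.sqrt_eq_rpow, hs, ← Real.rpow_natCast, ← Real.rpow_mul ht0.le]
    norm_num
  have hH : s ^ 3 ≤ finH t := by
    unfold finH
    rw [hsqrt, le_div_iff₀ (by linarith)]
    calc s ^ 3 * Real.log t ≤ s ^ 3 * s := mul_le_mul_of_nonneg_left g1 (by positivity)
      _ = s ^ 4 := by ring
  have hs3 : s ≤ s ^ 3 := by nlinarith [mul_pos hs0 hs0, sq_nonneg (s - 1)]
  refine ⟨by linarith, ?_⟩
  have hlog : Real.log (t + 1) ≤ 2 * s := by
    have h5 : t + 1 ≤ t ^ 2 := by nlinarith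
    have h6 : Real.log (t + 1) ≤ Real.log (t ^ 2) := Real.log_le_log (by linarith) h5
    rw [Real.log_pow] at h6
    push_cast at h6
    linarith
  have h2l : (2 : ℝ) / 3 ≤ Real.log 2 := by
    have := Real.log_two_gt_d9
    linarith
  have h7 : Real.log (t + 1) / Real.log 2 ≤ 3 * s := by
    rw [div_le_iff₀ (by linarith)]
    nlinarith
  have h8 : (3 + K) * s ≤ ε * s ^ 3 := by
    have h9 : 3 + K ≤ s * ε := by
      rwa [div_le_iff₀ hε] at k3
    have h10 : (3 + K) * s ≤ (s * ε) * s := mul_le_mul_of_nonneg_right h9 hs0.le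
    have h11 : (s * ε) * s ≤ ε * s ^ 3 := by
      have : ε * s ^ 2 ≤ ε * s ^ 3 := mul_le_mul_of_nonneg_left (by nlinarith [mul_pos hs0 hs0]) hε.le
      nlinarith
    linarith
  have h12 : K ≤ K * s := by nlinarith
  have h13 : ε * s ^ 3 ≤ ε * finH t := mul_le_mul_of_nonneg_left hH hε.le
  nlinarith

/-- from a real point to an integer point -/
theorem fin_point {X ε y : ℝ} (hε : 0 < ε) (hX : 3 ≤ X) (hX2 : (2 + ε) / ε ≤ Real.log X)
    (h1 : Real.log (X + 1) ≤ y) (h2 : y ≤ (1 + ε / 2) * Real.log (X + 1)) :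
    X ≤ (⌊Real.exp y⌋₊ : ℝ) ∧ (⌊Real.exp y⌋₊ : ℝ) ≤ X ^ (1 + ε) ∧
      |finH (Real.exp y) - finH ⌊Real.exp y⌋₊| ≤ 1 ∧
      Real.exp (y / 2) / y = finH (Real.exp y) := by
  have hX0 : 0 < X := by linarith
  have hy1 : X + 1 ≤ Real.exp y := by
    rwa [← Real.log_le_iff_le_exp (by linarith)]
  have hf1 : (⌊Real.exp y⌋₊ : ℝ) ≤ Real.exp y := Nat.floor_le (Real.exp_pos y).le
  have hf2 : Real.exp y < (⌊Real.exp y⌋₊ : ℝ) + 1 := Nat.lt_floor_add_one _
  have hy2 : Real.exp y ≤ X ^ (1 + ε) := by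
    rw [Real.rpow_def_of_pos hX0]
    apply Real.exp_le_exp.mpr
    refine h2.trans ?_
    have h3 : Real.log (X + 1) ≤ Real.log X + 1 := by
      have h4 : Real.log (X + 1) ≤ Real.log (X * Real.exp 1) := by
        apply Real.log_le_log (by linarith)
        have := Real.add_one_le_exp (1 : ℝ)
        nlinarith
      rwa [Real.log_mul hX0.ne' (Real.exp_pos 1).ne', Real.log_exp] at h4
    rw [div_le_iff₀ hε] at hX2
    nlinarith
  refine ⟨by linarith, hf1.trans hy2, ?_, ?_⟩
  · apply fin_comp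
    · linarith
    · linarith
    · rw [abs_le]
      constructor <;> linarith
  · unfold finH
    rw [Real.log_exp, Real.exp_half]

theorem main_aux {ε : ℝ} (hε : 0 < ε) (hε1 : ε ≤ 1) : ∃ X₀ : ℝ, ∀ X : ℝ, X₀ ≤ X → ∃ n : ℕ,
    X ≤ n ∧ (n : ℝ) ≤ X ^ (1 + ε) ∧
      |S 3 n - S 1 n - Lhalf * finH n| ≤ ε * finH n := by
  have hL := Lhalf_pos
  obtain ⟨Y1, hY1⟩ := loc_lower (ε := ε / 2) (c := Lhalf - ε / 2) (by linarith) (by linarith)
    (by linarith)
  obtain ⟨Y2, hY2⟩ := loc_upper (ε := ε / 2) (c := Lhalf + ε / 2) (by linarith) (by linarith)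
    (by linarith)
  obtain ⟨M, hM3, hM⟩ := fin_large (Lhalf + 1 + 2 * (Lhalf + 1) / ε) ε (by positivity) hε
  refine ⟨max M (max (Real.exp ((2 + ε) / ε)) (max (Real.exp Y1) (Real.exp Y2))), ?_⟩
  intro X hX
  have hXM : M ≤ X := (le_max_left _ _).trans hX
  have hX1 : Real.exp ((2 + ε) / ε) ≤ X :=
    (le_max_left _ _).trans ((le_max_right _ _).trans hX)
  have hX2 : Real.exp Y1 ≤ X :=
    (le_max_left _ _).trans ((le_max_right _ _).trans ((le_max_right _ _).trans hX))
  have hX3 : Real.exp Y2 ≤ X :=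
    (le_max_right _ _).trans ((le_max_right _ _).trans ((le_max_right _ _).trans hX))
  have hX0 : 0 < X := by linarith
  have hXlog : (2 + ε) / ε ≤ Real.log X := by rwa [Real.le_log_iff_exp_le hX0]
  have hlX : Real.log X ≤ Real.log (X + 1) := Real.log_le_log hX0 (by linarith)
  have hYa : Y1 ≤ Real.log (X + 1) := by
    have : Y1 ≤ Real.log X := by rwa [Real.le_log_iff_exp_le hX0]
    linarith
  have hYb : Y2 ≤ Real.log (X + 1) := by
    have : Y2 ≤ Real.log X := by rwa [Real.le_log_iff_exp_le hX0]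
    linarith
  have hlarge : ∀ n : ℕ, X ≤ n → Lhalf + 1 ≤ ε / 2 * finH n ∧
      Real.log ((n : ℝ) + 1) / Real.log 2 + Lhalf ≤ ε * finH n := by
    intro n hn
    obtain ⟨g1, g2⟩ := hM n (by linarith)
    have g3 : 0 ≤ 2 * (Lhalf + 1) / ε := by positivity
    refine ⟨?_, by linarith⟩
    have g4 : 2 * (Lhalf + 1) / ε ≤ finH n := by linarith
    rw [div_le_iff₀ hε] at g4
    linarith
  obtain ⟨y1, a1, a2, a3⟩ := hY1 _ hYa
  obtain ⟨y2, b1, b2, b3⟩ := hY2 _ hYb
  obtain ⟨p1, p2, p3, p4⟩ := fin_point hε (by linarith) hXlog a1 a2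
  obtain ⟨q1, q2, q3, q4⟩ := fin_point hε (by linarith) hXlog b1 b2
  rw [A_floor, mul_div_assoc, p4] at a3
  rw [A_floor, mul_div_assoc, q4] at b3
  set n1 := ⌊Real.exp y1⌋₊ with hn1
  set n2 := ⌊Real.exp y2⌋₊ with hn2
  obtain ⟨r1, r2⟩ := hlarge n1 p1
  obtain ⟨s1, s2⟩ := hlarge n2 q1
  have hAS : ∀ x : ℝ, S 3 x - S 1 x = - A x := by
    intro x
    unfold A
    ring
  set D : ℕ → ℝ := fun n => S 3 n - S 1 n - Lhalf * finH n with hD
  have hD1 : -(ε * finH n1) ≤ D n1 := by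
    simp only [hD]
    rw [hAS]
    rw [abs_le] at p3
    rcases le_total 0 (Lhalf - ε / 2) with h | h
    · nlinarith
    · nlinarith
  have hD2 : D n2 ≤ ε * finH n2 := by
    simp only [hD]
    rw [hAS]
    rw [abs_le] at q3
    nlinarith
  by_cases c1 : D n1 ≤ ε * finH n1
  · exact ⟨n1, p1, p2, abs_le.mpr ⟨hD1, c1⟩⟩
  by_cases c2 : -(ε * finH n2) ≤ D n2
  · exact ⟨n2, q1, q2, abs_le.mpr ⟨c2, hD2⟩⟩
  rw [not_le] at c1 c2
  have e1 : 0 < D n1 := by nlinarith
  have e2 : D n2 < 0 := by nlinarith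
  obtain ⟨a, f1, f2, f3⟩ := fin_ivt D n1 n2 e1 e2
  have ga : X ≤ (a : ℝ) := by
    rcases le_total n1 n2 with h | h
    · rw [min_eq_left h] at f1
      have : (n1 : ℝ) ≤ a := by exact_mod_cast f1
      linarith
    · rw [min_eq_right h] at f1
      have : (n2 : ℝ) ≤ a := by exact_mod_cast f1
      linarith
  have gb : (a : ℝ) ≤ X ^ (1 + ε) := by
    rcases le_total n1 n2 with h | h
    · rw [max_eq_right h] at f2
      have : (a : ℝ) ≤ n2 := by exact_mod_cast f2.le
      linarith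
    · rw [max_eq_left h] at f2
      have : (a : ℝ) ≤ n1 := by exact_mod_cast f2.le
      linarith
  refine ⟨a, ga, gb, ?_⟩
  obtain ⟨t1, t2⟩ := hlarge a ga
  have hjump := A_jump a
  have hcomp : |finH ((a : ℝ) + 1) - finH a| ≤ 1 :=
    fin_comp (by linarith) (by linarith) (by rw [add_sub_cancel_left, abs_one])
  have hDD : |D (a + 1) - D a| ≤ Real.log ((a : ℝ) + 1) / Real.log 2 + Lhalf := by
    have : D (a + 1) - D a = -(A ((a : ℝ) + 1) - A a) - Lhalf * (finH ((a : ℝ) + 1) - finH a) := by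
      simp only [hD]
      rw [hAS, hAS]
      push_cast
      ring
    rw [this]
    refine (abs_sub _ _).trans ?_
    rw [abs_neg, abs_mul, abs_of_pos hL]
    nlinarith
  exact (f3.trans hDD).trans t2

theorem main : ∀ ε : ℝ, 0 < ε → ∃ X₀ : ℝ, ∀ X : ℝ, X₀ ≤ X → ∃ n : ℕ,
    X ≤ n ∧ (n : ℝ) ≤ X ^ (1 + ε) ∧
      |S 3 n - S 1 n - Lhalf * √(n : ℝ) / Real.log n| ≤ ε * √(n : ℝ) / Real.log n := by
  intro ε hε
  obtain ⟨X0, hX0⟩ := main_aux (lt_min hε one_pos) (min_le_right ε 1)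
  refine ⟨max X0 3, fun X hX => ?_⟩
  have hX1 : X0 ≤ X := (le_max_left _ _).trans hX
  have hX3 : 3 ≤ X := (le_max_right _ _).trans hX
  obtain ⟨n, h1, h2, h3⟩ := hX0 X hX1
  refine ⟨n, h1, h2.trans ?_, ?_⟩
  · apply Real.rpow_le_rpow_of_exponent_le (by linarith)
    have := min_le_left ε 1
    linarith
  · have hH : 0 ≤ finH n := by
      unfold finH
      exact div_nonneg (Real.sqrt_nonneg _) (by have := fin_log_ge (x := (n : ℝ)) (by linarith); linarith)
    have e1 : Lhalf * √(n : ℝ) / Real.log n = Lhalf * finH n := by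
      unfold finH
      ring
    have e2 : ε * √(n : ℝ) / Real.log n = ε * finH n := by
      unfold finH
      ring
    rw [e1, e2]
    exact h3.trans (mul_le_mul_of_nonneg_right (min_le_left _ _) hH)

end Pool.OMG
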