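import Pool.Agent.OMG.Osc
import Pool.Agent.OMG.Win

/-!
# OMG LOC: localized inequalities in both directions

Let `0 < ε <= 1`, `δ = ε/4`, `s0` from `cases_exist` with `z = s0 - 1/2 >= 8/δ^2`. For
`y ∈ (0, oo)`: `|A(e^y)| e^(-s0 y) <= 2 (1+y) e^(y/2) e^(-z y)` (`A_bound`).

`loc_lower`: let `c < Lhalf` and suppose `A(e^y) >= -c e^(y/2)/y` for all `y ∈ [Y, (1+ε)Y]`, `Y`
large. For `k` with `Y <= (1-δ)k/z` and `(1+δ)k/z <= (1+ε)Y`:
`J_k >= -c int_I y^(k-1) e^(-zy)/k! dy - 2 (tail)`, and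
`c int_I <= max c 0 * 1/(k z^k)` if `c >= 0`; if `c < 0` drop it (`J_k >= - tail >= ...`); in all
cases `k z^k J_k >= -max(c,0) - 2 C k q^k`. `Lhalf > 0` (`Lhalf_pos`), so with
`η = (Lhalf - max(c,0))/2` this contradicts `osc` for large `k`. The range of `k`: start at `k0 =
⌈Y z/(1-δ)⌉`, and `k0 + N <= (1+ε) Y z/(1+δ)` for large `Y`, because
`(1+ε)(1-δ) > 1+δ` for `δ = ε/4`, `ε <= 1`.

`loc_upper`: let `c > Lhalf` and suppose `A(e^y) <= -c e^(y/2)/y` on the window. Then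
`J_k <= -c (1/(k z^k) - tail2) + 2 tail1`, `k z^k J_k <= -c + (c+2) C k q^k`, against `osc` with
`η = (c - Lhalf)/2`.
-/

set_option autoImplicit false

open Complex Finset Filter Topology MeasureTheory

namespace Pool.OMG

/-- for large `Y` there are `N + 1` consecutive `k` whose window lies in `[Y, (1+ε)Y]` -/
private lemma range_exists {ε δ z : ℝ} (hε : 0 < ε) (hε1 : ε ≤ 1) (hδ : δ = ε / 4) (hz : 0 < z)
    (N K : ℕ) : ∃ Y0 : ℝ, 0 < Y0 ∧ ∀ Y : ℝ, Y0 ≤ Y → ∃ k0 : ℕ, K ≤ k0 ∧ 1 ≤ k0 ∧ ∀ k : ℕ,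
      k0 ≤ k → k ≤ k0 + N → Y ≤ (1 - δ) * k / z ∧ (1 + δ) * k / z ≤ (1 + ε) * Y := by
  have hδ0 : 0 < δ := by rw [hδ]; linarith
  have hδ1 : δ ≤ 1 / 4 := by rw [hδ]; linarith
  have h1 : 0 < 1 - δ := by linarith
  refine ⟨max ((K + 1) / z) (6 * (N + 1) / (z * ε)), lt_max_of_lt_left (by positivity), ?_⟩
  intro Y hY
  have hY1 : ((K : ℝ) + 1) / z ≤ Y := le_trans (le_max_left _ _) hY
  have hY2 : 6 * ((N : ℝ) + 1) / (z * ε) ≤ Y := le_trans (le_max_right _ _) hY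
  have hY0 : 0 < Y := lt_of_lt_of_le (by positivity) hY1
  have hk0 : Y * z / (1 - δ) ≤ (⌈Y * z / (1 - δ)⌉₊ : ℝ) := Nat.le_ceil _
  have hk1 : (⌈Y * z / (1 - δ)⌉₊ : ℝ) < Y * z / (1 - δ) + 1 := Nat.ceil_lt_add_one (by positivity)
  have hYz : (K : ℝ) + 1 ≤ Y * z / (1 - δ) := by
    rw [div_le_iff₀ hz] at hY1
    rw [le_div_iff₀ h1]
    have : ((K : ℝ) + 1) * (1 - δ) ≤ (K + 1) := by
      have : (0 : ℝ) ≤ K := Nat.cast_nonneg K
      nlinarith
    linarith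
  refine ⟨⌈Y * z / (1 - δ)⌉₊, ?_, ?_, ?_⟩
  · have : (K : ℝ) ≤ (⌈Y * z / (1 - δ)⌉₊ : ℝ) := by linarith
    exact_mod_cast this
  · have : (1 : ℝ) ≤ (⌈Y * z / (1 - δ)⌉₊ : ℝ) := by
      have : (0 : ℝ) ≤ K := Nat.cast_nonneg K
      linarith
    exact_mod_cast this
  · intro k hk hk'
    have hkr : (⌈Y * z / (1 - δ)⌉₊ : ℝ) ≤ k := by exact_mod_cast hk
    have hkr' : (k : ℝ) ≤ ⌈Y * z / (1 - δ)⌉₊ + N := by exact_mod_cast hk'
    constructor
    · rw [le_div_iff₀ hz]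
      have : Y * z / (1 - δ) ≤ k := hk0.trans hkr
      rw [div_le_iff₀ h1] at this
      linarith
    · rw [div_le_iff₀ hz]
      have h2 : (k : ℝ) ≤ Y * z / (1 - δ) + 1 + N := by linarith
      have h3 : (1 + δ) * (k : ℝ) ≤ (1 + δ) * (Y * z / (1 - δ) + 1 + N) :=
        mul_le_mul_of_nonneg_left h2 (by linarith)
      refine h3.trans ?_
      have h4 : (1 + δ) * (Y * z / (1 - δ)) ≤ (1 + 2 / 3 * ε) * (Y * z) := by
        have h5 : (1 + δ) / (1 - δ) ≤ 1 + 2 / 3 * ε := by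
          rw [div_le_iff₀ h1, hδ]
          nlinarith
        calc (1 + δ) * (Y * z / (1 - δ)) = (1 + δ) / (1 - δ) * (Y * z) := by ring
          _ ≤ _ := mul_le_mul_of_nonneg_right h5 (by positivity)
      have h6 : (1 + δ) * (1 + N) ≤ ε / 3 * (Y * z) := by
        rw [div_le_iff₀ (by positivity)] at hY2
        have : (1 + δ) * (1 + (N : ℝ)) ≤ 2 * (N + 1) := by
          have : (0 : ℝ) ≤ N := Nat.cast_nonneg N
          nlinarith
        nlinarith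
      nlinarith

private lemma small_exists {q D η : ℝ} (hq : 0 < q) (hq1 : q < 1) (hη : 0 < η) :
    ∃ K : ℕ, ∀ k : ℕ, K ≤ k → D * (k * q ^ k) < η := by
  have h := tendsto_self_mul_const_pow_of_lt_one hq.le hq1
  have h2 := h.const_mul D
  rw [mul_zero] at h2
  have h3 := h2.eventually (gt_mem_nhds hη)
  exact eventually_atTop.1 h3

/-- data of a centre -/
private lemma centre {ε δ : ℝ} (hε : 0 < ε) (hε1 : ε ≤ 1) (hδ : δ = ε / 4) {η : ℝ} (hη : 0 < η)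
    (D : ℝ) (hD : 0 < D) :
    ∃ (s0 z C q Y0 : ℝ), 1 < s0 ∧ z = s0 - 1 / 2 ∧ 1 / 2 < z ∧ 0 < C ∧ 0 < q ∧ 0 < Y0 ∧
    (∀ k : ℕ, 1 ≤ k →
      ∫ y in Set.Ioi (0 : ℝ) \ Set.Icc ((1 - δ) * k / z) ((1 + δ) * k / z),
        (1 + y) * Real.exp (y / 2) * Real.exp (-z * y) * y ^ k / (k.factorial : ℝ) ≤
          C * q ^ k / z ^ k ∧
      ∫ y in Set.Ioi (0 : ℝ) \ Set.Icc ((1 - δ) * k / z) ((1 + δ) * k / z),
        y ^ (k - 1) * Real.exp (-z * y) / (k.factorial : ℝ) ≤ C * q ^ k / z ^ k) ∧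
    ∀ Y : ℝ, Y0 ≤ Y →
      (∃ k : ℕ, 1 ≤ k ∧ Y ≤ (1 - δ) * k / z ∧ (1 + δ) * k / z ≤ (1 + ε) * Y ∧
        D * C * (k * q ^ k) < η ∧ (k : ℝ) * z ^ k * J s0 k ≤ -Lhalf + η) ∧
      (∃ k : ℕ, 1 ≤ k ∧ Y ≤ (1 - δ) * k / z ∧ (1 + δ) * k / z ≤ (1 + ε) * Y ∧
        D * C * (k * q ^ k) < η ∧ -Lhalf - η ≤ (k : ℝ) * z ^ k * J s0 k) := by
  have hδ0 : 0 < δ := by rw [hδ]; linarith
  have hδ1 : δ ≤ 1 / 2 := by rw [hδ]; linarith
  obtain ⟨s0, hs0, hcase⟩ := cases_exist (max 1 (8 / δ ^ 2 + 1 / 2))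
  have h1 : 1 < s0 := lt_of_le_of_lt (le_max_left _ _) hs0
  have h2 : 8 / δ ^ 2 ≤ s0 - 1 / 2 := by
    have := lt_of_le_of_lt (le_max_right _ _) hs0
    linarith
  have hz : 1 / 2 < s0 - 1 / 2 := by linarith
  obtain ⟨C, q, hC, hq, hq1, hw⟩ := win hδ0 hδ1 h2
  obtain ⟨N, K, hosc⟩ := osc h1 hcase hη
  obtain ⟨K', hK'⟩ := small_exists (D := D * C) hq hq1 hη
  obtain ⟨Y0, hY0, hY⟩ := range_exists (z := s0 - 1 / 2) hε hε1 hδ (by linarith) N (max K K')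
  refine ⟨s0, s0 - 1 / 2, C, q, Y0, h1, rfl, hz, hC, hq, hY0, hw, ?_⟩
  intro Y hYY
  obtain ⟨k0, hk0, hk01, hk⟩ := hY Y hYY
  obtain ⟨⟨k, hk1, hk2, hk3⟩, ⟨l, hl1, hl2, hl3⟩⟩ := hosc k0 (le_trans (le_max_left _ _) hk0)
  refine ⟨⟨k, by omega, (hk k hk1 hk2).1, (hk k hk1 hk2).2, ?_, hk3⟩,
    ⟨l, by omega, (hk l hl1 hl2).1, (hk l hl1 hl2).2, ?_, hl3⟩⟩
  · exact hK' k (le_trans (le_trans (le_max_right _ _) hk0) hk1)
  · exact hK' l (le_trans (le_trans (le_max_right _ _) hk0) hl1)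

/-- pointwise bound for the integrand of `J` -/
private lemma f_abs {s0 z : ℝ} (hz : z = s0 - 1 / 2) {y : ℝ} (hy : 0 < y) (k : ℕ) :
    |A (Real.exp y) * Real.exp (-s0 * y) * y ^ k / (k.factorial : ℝ)| ≤
      2 * ((1 + y) * Real.exp (y / 2) * Real.exp (-z * y) * y ^ k / (k.factorial : ℝ)) := by
  have hA := A_bound hy.le
  have hf : (0 : ℝ) < k.factorial := by exact_mod_cast k.factorial_pos
  rw [abs_div, abs_mul, abs_mul, abs_of_pos (Real.exp_pos _), abs_of_pos (pow_pos hy k),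
    abs_of_pos hf, ← mul_div_assoc]
  apply div_le_div_of_nonneg_right _ hf.le
  have he : Real.exp y * Real.exp (-s0 * y) = Real.exp (y / 2) * Real.exp (-z * y) := by
    rw [← Real.exp_add, ← Real.exp_add]
    congr 1
    rw [hz]; ring
  have h3 : |A (Real.exp y)| * Real.exp (-s0 * y) * y ^ k ≤
      2 * (1 + y) * Real.exp y * Real.exp (-s0 * y) * y ^ k := by
    gcongr
  calc |A (Real.exp y)| * Real.exp (-s0 * y) * y ^ k ≤
      2 * (1 + y) * Real.exp y * Real.exp (-s0 * y) * y ^ k := h3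
    _ = 2 * (1 + y) * (Real.exp y * Real.exp (-s0 * y)) * y ^ k := by ring
    _ = _ := by rw [he]; ring

/-- main term -/
private lemma f_main {s0 z : ℝ} (hz : z = s0 - 1 / 2) {y : ℝ} (hy : 0 < y) {k : ℕ} (hk : 1 ≤ k)
    (c : ℝ) :
    -c * Real.exp (y / 2) / y * Real.exp (-s0 * y) * y ^ k / (k.factorial : ℝ) =
      -c * (y ^ (k - 1) * Real.exp (-z * y) / (k.factorial : ℝ)) := by
  have he : Real.exp (y / 2) * Real.exp (-s0 * y) = Real.exp (-z * y) := by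
    rw [← Real.exp_add]
    congr 1
    rw [hz]; ring
  have hp : y ^ k = y ^ (k - 1) * y := by
    rw [← pow_succ]; congr 1; omega
  rw [hp, ← he]
  field_simp

private lemma f_main_le {s0 : ℝ} {y : ℝ} (hy : 0 < y) {k : ℕ} {a b : ℝ} (h : a ≤ b) :
    a * Real.exp (-s0 * y) * y ^ k / (k.factorial : ℝ) ≤
      b * Real.exp (-s0 * y) * y ^ k / (k.factorial : ℝ) := by
  gcongr

private lemma set_int {I : Set ℝ} (hI : MeasurableSet I) (f : ℝ → ℝ) :
    ∫ y in Set.Ioi (0 : ℝ), (Iᶜ).indicator f y = ∫ y in Set.Ioi (0 : ℝ) \ I, f y := by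
  rw [setIntegral_indicator hI.compl]
  rfl

theorem loc_lower {ε c : ℝ} (hε : 0 < ε) (hε1 : ε ≤ 1) (hc : c < Lhalf) :
    ∃ Y0 : ℝ, ∀ Y : ℝ, Y0 ≤ Y → ∃ y : ℝ, Y ≤ y ∧ y ≤ (1 + ε) * Y ∧
      A (Real.exp y) < -c * Real.exp (y / 2) / y := by
  have hLc : max c 0 < Lhalf := max_lt hc Lhalf_pos
  obtain ⟨s0, z, C, q, Y0, h1, hz, hz2, hC, hq, hY0, hw, hmain⟩ :=
    centre (δ := ε / 4) hε hε1 rfl (η := (Lhalf - max c 0) / 2) (by linarith) 2 (by norm_num)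
  refine ⟨Y0, fun Y hY => ?_⟩
  by_contra hcon
  push Not at hcon
  obtain ⟨⟨k, hk1, hkY, hkY', hsmall, hJ⟩, -⟩ := hmain Y hY
  have hYpos : 0 < Y := lt_of_lt_of_le hY0 hY
  set I : Set ℝ := Set.Icc ((1 - ε / 4) * k / z) ((1 + ε / 4) * k / z) with hI
  have hIm : MeasurableSet I := measurableSet_Icc
  have hzpos : 0 < z := by linarith
  have hzk : 0 < (k : ℝ) * z ^ k := by
    have : (0 : ℝ) < k := by exact_mod_cast hk1
    positivity
  -- functions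
  set f : ℝ → ℝ := fun y => A (Real.exp y) * Real.exp (-s0 * y) * y ^ k / (k.factorial : ℝ) with hf
  set g : ℝ → ℝ := fun y => y ^ (k - 1) * Real.exp (-z * y) / (k.factorial : ℝ) with hg
  set w : ℝ → ℝ := fun y => (1 + y) * Real.exp (y / 2) * Real.exp (-z * y) * y ^ k /
      (k.factorial : ℝ) with hw'
  have hfi : IntegrableOn f (Set.Ioi 0) := J_integrable h1 k
  obtain ⟨hgi, hgI⟩ := gam_int hzpos k hk1
  have hwi : IntegrableOn w (Set.Ioi 0) := win_integrable hz2 k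
  have hwi' : IntegrableOn ((Iᶜ).indicator w) (Set.Ioi 0) := hwi.indicator hIm.compl
  have hpt : ∀ y ∈ Set.Ioi (0 : ℝ), -(max c 0) * g y - 2 * (Iᶜ).indicator w y ≤ f y := by
    intro y hy
    have hy : 0 < y := hy
    have hg0 : 0 ≤ g y := by simp only [hg]; positivity
    by_cases hyI : y ∈ I
    · have hmem : y ∉ Iᶜ := fun h => h hyI
      rw [Set.indicator_of_notMem hmem]
      have hA := hcon y (hkY.trans hyI.1) (hyI.2.trans hkY')
      have h2 := f_main_le (s0 := s0) hy (k := k) hA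
      rw [f_main hz hy hk1] at h2
      have h3 : -(max c 0) * g y ≤ -c * g y := by
        apply mul_le_mul_of_nonneg_right _ hg0
        have := le_max_left c 0
        linarith
      simp only [mul_zero, sub_zero]
      exact h3.trans h2
    · have hmem : y ∈ Iᶜ := hyI
      rw [Set.indicator_of_mem hmem]
      have h2 := (abs_le.1 (f_abs hz hy k)).1
      have h3 : 0 ≤ max c 0 * g y := mul_nonneg (le_max_right _ _) hg0
      have h4 : -(2 * w y) ≤ f y := h2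
      linarith
  have hint : ∫ y in Set.Ioi (0 : ℝ), (-(max c 0) * g y - 2 * (Iᶜ).indicator w y) ≤
      ∫ y in Set.Ioi (0 : ℝ), f y :=
    setIntegral_mono_on ((hgi.const_mul _).sub (hwi'.const_mul _)) hfi measurableSet_Ioi hpt
  rw [integral_sub (hgi.const_mul _) (hwi'.const_mul _), integral_const_mul, integral_const_mul,
    set_int hIm, hgI] at hint
  have hJk : ∫ y in Set.Ioi (0 : ℝ), f y = J s0 k := rfl
  rw [hJk] at hint
  have hwk := (hw k hk1).1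
  have h5 : -(max c 0) * (1 / ((k : ℝ) * z ^ k)) - 2 * (C * q ^ k / z ^ k) ≤ J s0 k := by
    refine le_trans ?_ hint
    have : ∫ y in Set.Ioi (0 : ℝ) \ I, w y ≤ C * q ^ k / z ^ k := hwk
    linarith
  have h6 : (k : ℝ) * z ^ k * (-(max c 0) * (1 / ((k : ℝ) * z ^ k)) - 2 * (C * q ^ k / z ^ k)) ≤
      k * z ^ k * J s0 k := mul_le_mul_of_nonneg_left h5 hzk.le
  have h7 : (k : ℝ) * z ^ k * (-(max c 0) * (1 / ((k : ℝ) * z ^ k)) - 2 * (C * q ^ k / z ^ k)) =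
      -(max c 0) - 2 * C * (k * q ^ k) := by
    have hk0 : (k : ℝ) ≠ 0 := by
      have : (0 : ℝ) < k := by exact_mod_cast hk1
      exact this.ne'
    field_simp
  rw [h7] at h6
  linarith

theorem loc_upper {ε c : ℝ} (hε : 0 < ε) (hε1 : ε ≤ 1) (hc : Lhalf < c) :
    ∃ Y0 : ℝ, ∀ Y : ℝ, Y0 ≤ Y → ∃ y : ℝ, Y ≤ y ∧ y ≤ (1 + ε) * Y ∧
      -c * Real.exp (y / 2) / y < A (Real.exp y) := by
  have hc0 : 0 < c := Lhalf_pos.trans hc
  obtain ⟨s0, z, C, q, Y0, h1, hz, hz2, hC, hq, hY0, hw, hmain⟩ :=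
    centre (δ := ε / 4) hε hε1 rfl (η := (c - Lhalf) / 2) (by linarith) (c + 2) (by linarith)
  refine ⟨Y0, fun Y hY => ?_⟩
  by_contra hcon
  push Not at hcon
  obtain ⟨-, ⟨k, hk1, hkY, hkY', hsmall, hJ⟩⟩ := hmain Y hY
  have hYpos : 0 < Y := lt_of_lt_of_le hY0 hY
  set I : Set ℝ := Set.Icc ((1 - ε / 4) * k / z) ((1 + ε / 4) * k / z) with hI
  have hIm : MeasurableSet I := measurableSet_Icc
  have hzpos : 0 < z := by linarith
  have hzk : 0 < (k : ℝ) * z ^ k := by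
    have : (0 : ℝ) < k := by exact_mod_cast hk1
    positivity
  set f : ℝ → ℝ := fun y => A (Real.exp y) * Real.exp (-s0 * y) * y ^ k / (k.factorial : ℝ) with hf
  set g : ℝ → ℝ := fun y => y ^ (k - 1) * Real.exp (-z * y) / (k.factorial : ℝ) with hg
  set w : ℝ → ℝ := fun y => (1 + y) * Real.exp (y / 2) * Real.exp (-z * y) * y ^ k /
      (k.factorial : ℝ) with hw'
  have hfi : IntegrableOn f (Set.Ioi 0) := J_integrable h1 k
  obtain ⟨hgi, hgI⟩ := gam_int hzpos k hk1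
  have hwi : IntegrableOn w (Set.Ioi 0) := win_integrable hz2 k
  have hwi' : IntegrableOn ((Iᶜ).indicator w) (Set.Ioi 0) := hwi.indicator hIm.compl
  have hgi' : IntegrableOn ((Iᶜ).indicator g) (Set.Ioi 0) := IntegrableOn.indicator hgi hIm.compl
  have hpt : ∀ y ∈ Set.Ioi (0 : ℝ),
      f y ≤ -c * g y + (2 * (Iᶜ).indicator w y + c * (Iᶜ).indicator g y) := by
    intro y hy
    have hy : 0 < y := hy
    have hg0 : 0 ≤ g y := by simp only [hg]; positivity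
    by_cases hyI : y ∈ I
    · have hmem : y ∉ Iᶜ := fun h => h hyI
      rw [Set.indicator_of_notMem hmem, Set.indicator_of_notMem hmem]
      have hA := hcon y (hkY.trans hyI.1) (hyI.2.trans hkY')
      have h2 := f_main_le (s0 := s0) hy (k := k) hA
      rw [f_main hz hy hk1] at h2
      simp only [mul_zero, add_zero]
      exact h2
    · have hmem : y ∈ Iᶜ := hyI
      rw [Set.indicator_of_mem hmem, Set.indicator_of_mem hmem]
      have h2 := (abs_le.1 (f_abs hz hy k)).2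
      have h4 : f y ≤ 2 * w y := h2
      linarith
  have hint : ∫ y in Set.Ioi (0 : ℝ), f y ≤ ∫ y in Set.Ioi (0 : ℝ),
      (-c * g y + (2 * (Iᶜ).indicator w y + c * (Iᶜ).indicator g y)) :=
    setIntegral_mono_on hfi ((hgi.const_mul _).add ((hwi'.const_mul _).add (hgi'.const_mul _)))
      measurableSet_Ioi hpt
  have hs : IntegrableOn (fun y => 2 * (Iᶜ).indicator w y + c * (Iᶜ).indicator g y) (Set.Ioi 0) :=
    (hwi'.const_mul _).add (hgi'.const_mul _)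
  rw [integral_add (hgi.const_mul _) hs,
    integral_add (hwi'.const_mul _) (hgi'.const_mul _), integral_const_mul, integral_const_mul,
    integral_const_mul, set_int hIm, set_int hIm, hgI] at hint
  have hJk : ∫ y in Set.Ioi (0 : ℝ), f y = J s0 k := rfl
  rw [hJk] at hint
  have hwk : ∫ y in Set.Ioi (0 : ℝ) \ I, w y ≤ C * q ^ k / z ^ k := (hw k hk1).1
  have hwk' : ∫ y in Set.Ioi (0 : ℝ) \ I, g y ≤ C * q ^ k / z ^ k := (hw k hk1).2
  have h5 : J s0 k ≤ -c * (1 / ((k : ℝ) * z ^ k)) + (c + 2) * (C * q ^ k / z ^ k) := by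
    refine hint.trans ?_
    have := mul_le_mul_of_nonneg_left hwk' hc0.le
    linarith
  have h6 : k * z ^ k * J s0 k ≤
      (k : ℝ) * z ^ k * (-c * (1 / ((k : ℝ) * z ^ k)) + (c + 2) * (C * q ^ k / z ^ k)) :=
    mul_le_mul_of_nonneg_left h5 hzk.le
  have h7 : (k : ℝ) * z ^ k * (-c * (1 / ((k : ℝ) * z ^ k)) + (c + 2) * (C * q ^ k / z ^ k)) =
      -c + (c + 2) * C * (k * q ^ k) := by
    have hk0 : (k : ℝ) ≠ 0 := by
      have : (0 : ℝ) < k := by exact_mod_cast hk1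
      exact this.ne'
    field_simp
  rw [h7] at h6
  linarith

end Pool.OMG
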