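import Pool.Agent.OMG.CaseB
import Pool.Agent.OMG.Cos

/-!
# OMG OSC: both cases together

Case A: `k (s0-1/2)^k J_k -> -Lhalf` (`caseA_asy` with `G(s) = Lf(s)/s`, holomorphic on `ball s0
s0`, `G(1/2) = 2 Lhalf` by `Lf_half`; `J_eq`, `F_eq`, `T_congr`, `T_mul`), so `N = 0` works.
Case B: `caseB_asy`, `cos_gap`, `cos_gap'`: within `N` steps there is `k` with
`k^m J_k R0^k <= -eta/2` (`eta` from `cos_gap`, `k0` large), and then
`k r^k J_k <= -(eta/2) (r/R0)^k k/k^m <= -Lhalf` for large `k` as `r = s0 - 1/2 > R0`; same for the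
other sign.
-/

set_option autoImplicit false

open Complex Finset Filter Topology MeasureTheory

namespace Pool.OMG

private theorem osc_caseA_tendsto {s0 : ℝ} (h1 : 1 < s0) (hA : CaseA s0) :
    Tendsto (fun k : ℕ => (k : ℝ) * (s0 - 1 / 2) ^ k * J s0 k) atTop (𝓝 (-Lhalf)) := by
  have hs0 : (0 : ℝ) < s0 := by linarith
  have hG : DifferentiableOn ℂ (fun s => Lf s / s) (Metric.ball (s0 : ℂ) s0) := by
    intro s hs
    have hne : s ≠ 0 := by
      rintro rfl
      rw [Metric.mem_ball, dist_comm, dist_eq_norm, sub_zero, Complex.norm_real,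
        Real.norm_eq_abs, abs_of_pos hs0] at hs
      exact lt_irrefl _ hs
    exact ((Lf_differentiable s).div differentiableAt_id hne).differentiableWithinAt
  have h := caseA_asy h1 hA (fun s => Lf s / s) s0 (by linarith) hG
  have hG2 : -((fun s => Lf s / s) (1 / 2 : ℂ)) / 2 = ((-Lhalf : ℝ) : ℂ) := by
    simp only [Lf_half]
    push_cast
    field_simp
  rw [hG2] at h
  have hsne : (s0 : ℂ) ≠ 0 := by exact_mod_cast hs0.ne'
  have hopen : {s : ℂ | 1 < s.re} ∈ 𝓝 (s0 : ℂ) := by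
    apply (isOpen_lt continuous_const Complex.continuous_re).mem_nhds
    simpa using h1
  have hT : T (s0 : ℂ) (fun s => Lf s / s) * T (s0 : ℂ) P = T (s0 : ℂ) (fun s => F s / s) := by
    rw [← T_mul]
    · apply T_congr
      filter_upwards [hopen] with s hs
      rw [F_eq hs]
      ring
    · apply DifferentiableOn.analyticAt (s := Metric.ball (s0 : ℂ) s0) hG
      exact Metric.isOpen_ball.mem_nhds (Metric.mem_ball_self hs0)
    · exact P_differentiable.analyticAt hopen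
  rw [hT] at h
  have h2 := (Complex.continuous_re.tendsto _).comp h
  rw [Complex.ofReal_re] at h2
  refine h2.congr fun k => ?_
  simp only [Function.comp_apply]
  rw [← J_eq h1 k]
  have : ((k : ℂ) * (J s0 k : ℂ) * ((s0 : ℂ) - 1 / 2) ^ k) =
      (((k : ℝ) * (s0 - 1 / 2) ^ k * J s0 k : ℝ) : ℂ) := by
    push_cast
    ring
  rw [this, Complex.ofReal_re]

private theorem osc_large {r R0 : ℝ} (hR0 : 0 < R0) (hr : R0 < r) (m : ℕ) (B : ℝ) :
    ∀ᶠ k : ℕ in atTop, B * (k : ℝ) ^ m * R0 ^ k ≤ (k : ℝ) * r ^ k := by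
  have hq : 1 < r / R0 := (one_lt_div hR0).2 hr
  have ht := tendsto_pow_const_div_const_pow_of_one_lt m hq
  have hpos : (0 : ℝ) < 1 / (|B| + 1) := by positivity
  filter_upwards [(tendsto_order.1 ht).2 _ hpos, eventually_ge_atTop 1] with k hk hk1
  have hk1' : (1 : ℝ) ≤ k := by exact_mod_cast hk1
  have hqk : 0 < (r / R0) ^ k := by positivity
  rw [div_lt_div_iff₀ hqk (by positivity), one_mul] at hk
  have hRk : 0 < R0 ^ k := by positivity
  have e1 : (r / R0) ^ k * R0 ^ k = r ^ k := by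
    rw [← mul_pow, div_mul_cancel₀ _ hR0.ne']
  have hrk : 0 < r ^ k := pow_pos (hR0.trans hr) k
  have h2 : (k : ℝ) ^ m * (|B| + 1) * R0 ^ k < r ^ k := by
    rw [← e1]
    exact mul_lt_mul_of_pos_right hk hRk
  have hkm : 0 ≤ (k : ℝ) ^ m := by positivity
  have h3 : B * (k : ℝ) ^ m * R0 ^ k ≤ (k : ℝ) ^ m * (|B| + 1) * R0 ^ k := by
    apply mul_le_mul_of_nonneg_right _ hRk.le
    rw [mul_comm]
    exact mul_le_mul_of_nonneg_left (by linarith [le_abs_self B]) hkm
  nlinarith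

theorem osc {s0 : ℝ} (h1 : 1 < s0) (h : CaseA s0 ∨ CaseB s0) {η : ℝ} (hη : 0 < η) :
    ∃ N K : ℕ, ∀ k0 : ℕ, K ≤ k0 →
      (∃ k, k0 ≤ k ∧ k ≤ k0 + N ∧ (k : ℝ) * (s0 - 1 / 2) ^ k * J s0 k ≤ -Lhalf + η) ∧
      (∃ k, k0 ≤ k ∧ k ≤ k0 + N ∧ -Lhalf - η ≤ (k : ℝ) * (s0 - 1 / 2) ^ k * J s0 k) := by
  rcases h with hA | hB
  · have ht := osc_caseA_tendsto h1 hA
    have h2 := (Metric.tendsto_atTop.1 ht) η hη
    obtain ⟨K, hK⟩ := h2
    refine ⟨0, K, fun k0 hk0 => ?_⟩
    have h3 := hK k0 hk0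
    rw [Real.dist_eq, abs_lt] at h3
    exact ⟨⟨k0, le_refl _, le_refl _, by linarith [h3.2]⟩,
      ⟨k0, le_refl _, le_refl _, by linarith [h3.1]⟩⟩
  · obtain ⟨m, R0, C, w, hR0, hR0r, hC, hw, hw2, ht⟩ := caseB_asy h1 hB
    obtain ⟨η1, hη1, N1, hN1⟩ := cos_gap hC hw hw2
    obtain ⟨η2, hη2, N2, hN2⟩ := cos_gap' hC hw hw2
    set δ := min η1 η2 / 2 with hδ
    have hδpos : 0 < δ := by positivity
    obtain ⟨K1, hK1⟩ := (Metric.tendsto_atTop.1 ht) δ hδpos
    obtain ⟨K3, hK3⟩ := eventually_atTop.1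
      (osc_large hR0 hR0r m ((|Lhalf| + η) / δ))
    have hkey : ∀ k : ℕ, K1 ≤ k → K3 ≤ k → 1 ≤ k →
        ((C * w ^ k).re ≤ -η1 → (k : ℝ) * (s0 - 1 / 2) ^ k * J s0 k ≤ -Lhalf + η) ∧
        (η2 ≤ (C * w ^ k).re → -Lhalf - η ≤ (k : ℝ) * (s0 - 1 / 2) ^ k * J s0 k) := by
      intro k h1k h3k hk1
      have a1 := hK1 k h1k
      rw [Real.dist_eq, sub_zero, abs_lt] at a1
      have a3 := hK3 k h3k
      have hk0 : (0 : ℝ) < k := by exact_mod_cast hk1
      have hkm : (0 : ℝ) < (k : ℝ) ^ m := by positivity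
      have hRk : (0 : ℝ) < R0 ^ k := by positivity
      have hrk : (0 : ℝ) < (s0 - 1 / 2) ^ k := pow_pos (hR0.trans hR0r) k
      have hm1 : δ ≤ η1 / 2 := by
        rw [hδ]; linarith [min_le_left η1 η2]
      have hm2 : δ ≤ η2 / 2 := by
        rw [hδ]; linarith [min_le_right η1 η2]
      have hB0 : 0 ≤ (|Lhalf| + η) / δ := by positivity
      have hb : |Lhalf| + η = (|Lhalf| + η) / δ * δ := by field_simp
      constructor
      · intro hc
        -- `k^m J R0^k <= -δ`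
        have a4 : (k : ℝ) ^ m * J s0 k * R0 ^ k ≤ -δ := by linarith [a1.2]
        have hJ : J s0 k ≤ 0 := by
          by_contra hJ
          push Not at hJ
          have : 0 < (k : ℝ) ^ m * J s0 k * R0 ^ k := by positivity
          linarith
        have a5 : (k : ℝ) * (s0 - 1 / 2) ^ k * J s0 k ≤
            ((|Lhalf| + η) / δ * (k : ℝ) ^ m * R0 ^ k) * J s0 k :=
          mul_le_mul_of_nonpos_right a3 hJ
        have a6 : ((|Lhalf| + η) / δ * (k : ℝ) ^ m * R0 ^ k) * J s0 k ≤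
            (|Lhalf| + η) / δ * (-δ) := by
          have : ((|Lhalf| + η) / δ * (k : ℝ) ^ m * R0 ^ k) * J s0 k =
            (|Lhalf| + η) / δ * ((k : ℝ) ^ m * J s0 k * R0 ^ k) := by ring
          rw [this]
          exact mul_le_mul_of_nonneg_left a4 hB0
        have a7 : (|Lhalf| + η) / δ * (-δ) = -(|Lhalf| + η) := by
          rw [mul_neg, ← hb]
        have a8 := le_abs_self Lhalf
        linarith
      · intro hc
        have a4 : δ ≤ (k : ℝ) ^ m * J s0 k * R0 ^ k := by linarith [a1.1]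
        have hJ : 0 ≤ J s0 k := by
          by_contra hJ
          push Not at hJ
          have h5 : (k : ℝ) ^ m * J s0 k < 0 := mul_neg_of_pos_of_neg hkm hJ
          have : (k : ℝ) ^ m * J s0 k * R0 ^ k < 0 := mul_neg_of_neg_of_pos h5 hRk
          linarith
        have a5 : 0 ≤ (k : ℝ) * (s0 - 1 / 2) ^ k * J s0 k := by positivity
        have a8 := Lhalf_pos
        linarith
    refine ⟨max N1 N2, max (max K1 K3) 1, fun k0 hk0 => ?_⟩
    have g1 : K1 ≤ k0 := le_trans (le_trans (le_max_left _ _) (le_max_left _ _)) hk0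
    have g3 : K3 ≤ k0 := le_trans (le_trans (le_max_right _ _) (le_max_left _ _)) hk0
    have g4 : 1 ≤ k0 := le_trans (le_max_right _ _) hk0
    constructor
    · obtain ⟨k, b1, b2, b3⟩ := hN1 k0
      exact ⟨k, b1, b2.trans (by gcongr; exact le_max_left _ _),
        (hkey k (g1.trans b1) (g3.trans b1) (g4.trans b1)).1 b3⟩
    · obtain ⟨k, b1, b2, b3⟩ := hN2 k0
      exact ⟨k, b1, b2.trans (by gcongr; exact le_max_right _ _),
        (hkey k (g1.trans b1) (g3.trans b1) (g4.trans b1)).2 b3⟩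

end Pool.OMG
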