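import Pool.Agent.OMG.Ser

/-!
# OMG PROD: `F = L P` for `Re s > 1`, bounds for `A`

* `F_eq`: `omega(n) = sum_(p | n) 1` is the Dirichlet convolution of `1` and the indicator of the
  primes, `DirichletCharacter.mul_convolution_distrib`, `LSeries_convolution'`,
  `DirichletCharacter.LFunction_eq_LSeries`. Summability at `Re s > 1`: `|chi p| <= 1`
  (`LSeriesSummable_of_bounded_of_one_lt_re`).
* `P_differentiable`: `LSeries_differentiableOn`/`LSeries_analyticOnNhd`, abscissa of absolute
  convergence `<= 1`.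
* `A_eq`: `chi n = 1, -1, 0` for `n = 1, 3, even` mod 4.
* `A_bound`: `omega(n) <= log n / log 2` (`2^omega(n) <= n`), sum over `n <= e^y`.
* `A_jump`: same bound for one term.
-/

set_option autoImplicit false

open Complex Finset Filter Topology MeasureTheory

namespace Pool.OMG

theorem omega_le (n : ℕ) :
    (ArithmeticFunction.cardDistinctFactors n : ℝ) ≤ Real.log n / Real.log 2 := by
  have hl2 : 0 < Real.log 2 := Real.log_pos (by norm_num)
  rcases Nat.eq_zero_or_pos n with rfl | hn
  · simp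
  rw [le_div_iff₀ hl2, ← Real.log_rpow (by norm_num), Real.rpow_natCast]
  refine Real.log_le_log (by positivity) ?_
  have hcard : ArithmeticFunction.cardDistinctFactors n = n.primeFactors.card := by
    rw [ArithmeticFunction.cardDistinctFactors_apply, Nat.primeFactors, List.card_toFinset]
  rw [hcard]
  have h1 : 2 ^ n.primeFactors.card ≤ ∏ p ∈ n.primeFactors, p := by
    rw [← Finset.prod_const]
    exact Finset.prod_le_prod' (fun p hp => (Nat.prime_of_mem_primeFactors hp).two_le)
  have h2 : ∏ p ∈ n.primeFactors, p ≤ n := Nat.le_of_dvd hn (Nat.prod_primeFactors_dvd n)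
  exact_mod_cast h1.trans h2

private lemma prod_norm_chip (n : ℕ) : ‖chip n‖ ≤ 1 := by
  unfold chip
  split_ifs
  · exact chi.norm_le_one _
  · simp

theorem chip_summable {s : ℂ} (hs : 1 < s.re) : LSeriesSummable chip s :=
  LSeriesSummable_of_bounded_of_one_lt_re (m := 1) (fun n _ => prod_norm_chip n) hs

private lemma prod_chiw_eq : chiw = LSeries.convolution (fun n : ℕ => chi n) chip := by
  funext n
  rw [LSeries.convolution_def]
  simp only
  by_cases hn : n = 0
  · subst hn
    simp [chiw]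
  have h1 := Nat.sum_divisorsAntidiagonal' (n := n) (fun a b => chi (a : ZMod 4) * chip b)
  rw [h1]
  have h2 : ∀ i ∈ n.divisors, chi ((n / i : ℕ) : ZMod 4) * chip i
      = if i.Prime then chi (n : ZMod 4) else 0 := by
    intro i hi
    have hd := Nat.dvd_of_mem_divisors hi
    unfold chip
    split_ifs
    · rw [← map_mul, ← Nat.cast_mul, Nat.div_mul_cancel hd]
    · simp
  rw [Finset.sum_congr rfl h2, ← Finset.sum_filter, Finset.sum_const, nsmul_eq_mul]
  have h3 : n.divisors.filter Nat.Prime = n.primeFactors :=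
    (Nat.primeFactors_eq_to_filter_divisors_prime n).symm
  have hcard : ArithmeticFunction.cardDistinctFactors n = n.primeFactors.card := by
    rw [ArithmeticFunction.cardDistinctFactors_apply, Nat.primeFactors, List.card_toFinset]
  rw [h3, ← hcard]
  unfold chiw
  ring

theorem chiw_summable {s : ℂ} (hs : 1 < s.re) : LSeriesSummable chiw s := by
  rw [prod_chiw_eq]
  exact (DirichletCharacter.LSeriesSummable_of_one_lt_re chi hs).convolution (chip_summable hs)

theorem F_eq {s : ℂ} (hs : 1 < s.re) : F s = Lf s * P s := by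
  unfold F Lf P
  rw [DirichletCharacter.LFunction_eq_LSeries chi hs, prod_chiw_eq]
  exact LSeries_convolution' (DirichletCharacter.LSeriesSummable_of_one_lt_re chi hs)
    (chip_summable hs)

private lemma prod_diff {f : ℕ → ℂ} (h : ∀ s : ℂ, 1 < s.re → LSeriesSummable f s) :
    DifferentiableOn ℂ (LSeries f) {s | 1 < s.re} := by
  have ha : LSeries.abscissaOfAbsConv f ≤ ((1 : ℝ) : EReal) :=
    LSeries.abscissaOfAbsConv_le_of_forall_lt_LSeriesSummable (fun y hy => h y (by simpa using hy))
  refine (LSeries_differentiableOn f).mono (fun s hs => ?_)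
  have hs' : (1 : ℝ) < s.re := hs
  exact lt_of_le_of_lt ha (by exact_mod_cast hs')

theorem P_differentiable : DifferentiableOn ℂ P {s | 1 < s.re} :=
  prod_diff (fun _ hs => chip_summable hs)

theorem F_differentiable : DifferentiableOn ℂ F {s | 1 < s.re} :=
  prod_diff (fun _ hs => chiw_summable hs)

private lemma prod_chi_mod (n : ℕ) :
    chi (n : ZMod 4) = (if n % 4 = 1 then 1 else 0) - (if n % 4 = 3 then 1 else 0) := by
  have h : n % 4 = 0 ∨ n % 4 = 1 ∨ n % 4 = 2 ∨ n % 4 = 3 := by omega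
  rcases h with h | h | h | h
  · have e : n = 2 * (2 * (n / 4)) := by omega
    rw [h, if_neg (by norm_num), if_neg (by norm_num)]
    rw [e, (chi_odd _).2.2]; simp
  · have e : n = 4 * (n / 4) + 1 := by omega
    rw [h, if_pos rfl, if_neg (by norm_num)]
    rw [e, (chi_odd _).1]; simp
  · have e : n = 2 * (2 * (n / 4) + 1) := by omega
    rw [h, if_neg (by norm_num), if_neg (by norm_num)]
    rw [e, (chi_odd _).2.2]; simp
  · have e : n = 4 * (n / 4) + 3 := by omega
    rw [h, if_neg (by norm_num), if_pos rfl]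
    rw [e, (chi_odd _).2.1]; simp

private lemma prod_A_real (x : ℝ) : A x = ∑ n ∈ Icc 1 ⌊x⌋₊,
    (((if n % 4 = 1 then 1 else 0) - (if n % 4 = 3 then 1 else 0) : ℝ)
      * (ArithmeticFunction.cardDistinctFactors n : ℝ)) := by
  unfold A S
  rw [Finset.sum_filter, Finset.sum_filter, ← Finset.sum_sub_distrib]
  refine Finset.sum_congr rfl (fun n _ => ?_)
  split_ifs <;> simp

theorem A_eq (x : ℝ) : (A x : ℂ) = ∑ n ∈ Icc 1 ⌊x⌋₊, chiw n := by
  rw [prod_A_real]
  push_cast
  refine Finset.sum_congr rfl (fun n _ => ?_)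
  unfold chiw
  rw [prod_chi_mod]
  split_ifs <;> simp

private lemma prod_coef_le (n : ℕ) :
    |((if n % 4 = 1 then 1 else 0) - (if n % 4 = 3 then 1 else 0) : ℝ)| ≤ 1 := by
  split_ifs <;> simp

private lemma prod_term_le (n : ℕ) :
    |(((if n % 4 = 1 then 1 else 0) - (if n % 4 = 3 then 1 else 0) : ℝ)
      * (ArithmeticFunction.cardDistinctFactors n : ℝ))| ≤ Real.log n / Real.log 2 := by
  rw [abs_mul]
  have h1 := prod_coef_le n
  have h2 := omega_le n
  have h3 : (0 : ℝ) ≤ (ArithmeticFunction.cardDistinctFactors n : ℝ) := Nat.cast_nonneg _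
  rw [abs_of_nonneg h3]
  calc _ ≤ 1 * (ArithmeticFunction.cardDistinctFactors n : ℝ) :=
        mul_le_mul_of_nonneg_right h1 h3
    _ ≤ _ := by rw [one_mul]; exact h2

theorem A_bound {y : ℝ} (hy : 0 ≤ y) : |A (Real.exp y)| ≤ 2 * (1 + y) * Real.exp y := by
  rw [prod_A_real]
  refine (Finset.abs_sum_le_sum_abs _ _).trans ?_
  have hl2 : 0 < Real.log 2 := Real.log_pos (by norm_num)
  have hb : ∀ n ∈ Icc 1 ⌊Real.exp y⌋₊,
      |(((if n % 4 = 1 then 1 else 0) - (if n % 4 = 3 then 1 else 0) : ℝ)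
      * (ArithmeticFunction.cardDistinctFactors n : ℝ))| ≤ y / Real.log 2 := by
    intro n hn
    refine (prod_term_le n).trans ?_
    rw [Finset.mem_Icc] at hn
    have hn1 : (0 : ℝ) < n := by exact_mod_cast hn.1
    have hn2 : (n : ℝ) ≤ Real.exp y := (Nat.le_floor_iff (Real.exp_pos y).le).mp hn.2
    have h : Real.log n ≤ y := (Real.log_le_iff_le_exp hn1).mpr hn2
    gcongr
  refine (Finset.sum_le_sum hb).trans ?_
  rw [Finset.sum_const, nsmul_eq_mul, Nat.card_Icc, Nat.add_sub_cancel]
  have hf : ((⌊Real.exp y⌋₊ : ℕ) : ℝ) ≤ Real.exp y := Nat.floor_le (Real.exp_pos y).le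
  have h2 : y / Real.log 2 ≤ 2 * (1 + y) := by
    rw [div_le_iff₀ hl2]
    have := Real.log_two_gt_d9
    nlinarith
  calc ((⌊Real.exp y⌋₊ : ℕ) : ℝ) * (y / Real.log 2) ≤ Real.exp y * (2 * (1 + y)) :=
        mul_le_mul hf h2 (div_nonneg hy hl2.le) (Real.exp_pos y).le
    _ = 2 * (1 + y) * Real.exp y := by ring

theorem A_jump (n : ℕ) : |A ((n : ℝ) + 1) - A n| ≤ Real.log ((n : ℝ) + 1) / Real.log 2 := by
  rw [prod_A_real, prod_A_real]
  have e1 : ⌊(n : ℝ) + 1⌋₊ = n + 1 := by
    have : ((n : ℝ) + 1) = ((n + 1 : ℕ) : ℝ) := by push_cast; rfl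
    rw [this, Nat.floor_natCast]
  rw [e1, Nat.floor_natCast, Finset.sum_Icc_succ_top (by omega), add_sub_cancel_left]
  have := prod_term_le (n + 1)
  push_cast at this ⊢
  exact this

theorem A_floor (x : ℝ) : A x = A (⌊x⌋₊ : ℝ) := by
  rw [prod_A_real, prod_A_real, Nat.floor_natCast]

end Pool.OMG
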