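import Pool.Agent.OMG.Defs

/-!
# OMG SER: `L(s, chi_4)` as an alternating series for `Re s > 0`, values on the positive reals

* `Lf_differentiable`: `DirichletCharacter.differentiable_LFunction` (`chi != 1`:
  `ZMod.χ₄ 3 = -1`).
* `Lf_series`. For `Re s > 1`: `DirichletCharacter.LFunction_eq_LSeries`, the L-series is
  absolutely convergent; split `ℕ` in residue classes mod 4 (`chi n = 1, -1, 0`). For
  `0 < Re s`: the series of `(4k+1)^(-s) - (4k+3)^(-s)` converges locally uniformly on `Re s > 0`: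
  `|(4k+1)^(-s) - (4k+3)^(-s)| = |s int_(4k+1)^(4k+3) x^(-s-1) dx| <= 2 |s| (4k+1)^(-Re s-1)`
  (or mean value inequality), so its sum is differentiable on `Re s > 0`
  (`differentiableOn_tsum_of_summable_norm` on `{delta < Re s, |s| < B}`), and equality follows by
  the identity theorem (`AnalyticOnNhd.eqOn_of_preconnected_of_eventuallyEq`; half plane convex).
* `Lf_half`: the case `s = 1/2`, `(x : ℂ)^(-1/2) = 1/sqrt x`.
* `Lf_real_ne`: for real `sigma > 0` all terms are positive reals.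
* `Lf_conj`: `s ↦ conj (Lf (conj s))` is entire and equals `Lf` for `Re s > 1` (real
  coefficients), identity theorem; or from `Lf_series` for `Re s > 0` and identity theorem.
-/

set_option autoImplicit false

open Complex Finset Filter Topology MeasureTheory

namespace Pool.OMG

theorem chi_ne_one : chi ≠ 1 := by
  intro h
  have h1 : chi (3 : ZMod 4) = -1 := by
    unfold chi
    rw [MulChar.ringHomComp_apply]
    have : ZMod.χ₄ (3 : ZMod 4) = -1 := by decide
    rw [this]; simp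
  rw [h] at h1
  have h3 : IsUnit (3 : ZMod 4) := by decide
  rw [MulChar.one_apply h3] at h1
  norm_num at h1

theorem chi_odd (k : ℕ) : chi ((4 * k + 1 : ℕ) : ZMod 4) = 1 ∧ chi ((4 * k + 3 : ℕ) : ZMod 4) = -1 ∧
    chi ((2 * k : ℕ) : ZMod 4) = 0 := by
  have h4 : (4 : ZMod 4) = 0 := by decide
  refine ⟨?_, ?_, ?_⟩
  · have : ((4 * k + 1 : ℕ) : ZMod 4) = 1 := by push_cast; rw [h4]; ring
    rw [this]; simp
  · have : ((4 * k + 3 : ℕ) : ZMod 4) = 3 := by push_cast; rw [h4]; ring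
    rw [this]
    unfold chi
    rw [MulChar.ringHomComp_apply]
    have : ZMod.χ₄ (3 : ZMod 4) = -1 := by decide
    rw [this]; simp
  · unfold chi
    rw [MulChar.ringHomComp_apply]
    have h2 : ∀ x : ZMod 4, ZMod.χ₄ (2 * x) = 0 := by decide
    have : ((2 * k : ℕ) : ZMod 4) = 2 * (k : ZMod 4) := by push_cast; ring
    rw [this, h2]; simp

theorem Lf_differentiable : Differentiable ℂ Lf :=
  DirichletCharacter.differentiable_LFunction chi_ne_one

/-- the terms of the alternating series -/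
private noncomputable def serT (k : ℕ) (s : ℂ) : ℂ :=
  (4 * (k : ℂ) + 1) ^ (-s) - (4 * (k : ℂ) + 3) ^ (-s)

private lemma serT_bound {s : ℂ} (hs : 0 < s.re) (k : ℕ) :
    ‖serT k s‖ ≤ 2 * ‖s‖ * (4 * (k : ℝ) + 1) ^ (-s.re - 1) := by
  set a : ℝ := 4 * (k : ℝ) + 1 with ha
  have ha0 : 0 < a := by positivity
  have hs0 : s ≠ 0 := by rintro rfl; simp at hs
  have hder : ∀ x ∈ Set.Icc a (a + 2), HasDerivWithinAt (fun x : ℝ => (x : ℂ) ^ (-s))
      (-s * (x : ℂ) ^ (-s - 1)) (Set.Icc a (a + 2)) x := by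
    intro x hx
    have hx0 : 0 < x := lt_of_lt_of_le ha0 hx.1
    have h := hasDerivAt_ofReal_cpow_const (x := x) hx0.ne' (r := -s) (neg_ne_zero.mpr hs0)
    exact h.hasDerivWithinAt
  have hbd : ∀ x ∈ Set.Icc a (a + 2), ‖-s * (x : ℂ) ^ (-s - 1)‖ ≤ ‖s‖ * a ^ (-s.re - 1) := by
    intro x hx
    have hx0 : 0 < x := lt_of_lt_of_le ha0 hx.1
    rw [norm_mul, norm_neg, Complex.norm_cpow_eq_rpow_re_of_pos hx0]
    refine mul_le_mul_of_nonneg_left ?_ (norm_nonneg _)
    have : (-s - 1).re = -s.re - 1 := by simp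
    rw [this]
    exact Real.rpow_le_rpow_of_nonpos ha0 hx.1 (by linarith)
  have h := (convex_Icc a (a + 2)).norm_image_sub_le_of_norm_hasDerivWithin_le hder hbd
    (Set.right_mem_Icc.mpr (by linarith)) (Set.left_mem_Icc.mpr (by linarith))
  have e1 : serT k s = (a : ℂ) ^ (-s) - ((a + 2 : ℝ) : ℂ) ^ (-s) := by
    unfold serT
    rw [ha]
    push_cast
    ring_nf
  rw [e1]
  refine h.trans (le_of_eq ?_)
  have : ‖a - (a + 2)‖ = 2 := by
    rw [show a - (a + 2) = -2 by ring]; norm_num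
  rw [this]; ring

private lemma serT_bound2 {δ B : ℝ} (hδ : 0 < δ) {s : ℂ} (h1 : δ < s.re) (h2 : ‖s‖ < B) (k : ℕ) :
    ‖serT k s‖ ≤ 2 * B * ((k : ℝ) + 1) ^ (-δ - 1) := by
  refine (serT_bound (hδ.trans h1) k).trans ?_
  have hB : 0 ≤ B := (norm_nonneg _).trans h2.le
  have hk : (0 : ℝ) ≤ k := k.cast_nonneg
  refine mul_le_mul (by linarith) ?_ (by positivity) (by positivity)
  calc (4 * (k : ℝ) + 1) ^ (-s.re - 1) ≤ ((k : ℝ) + 1) ^ (-s.re - 1) :=
        Real.rpow_le_rpow_of_nonpos (by positivity) (by linarith) (by linarith)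
    _ ≤ ((k : ℝ) + 1) ^ (-δ - 1) :=
        Real.rpow_le_rpow_of_exponent_le (by linarith) (by linarith)

private lemma ser_summ {δ : ℝ} (hδ : 0 < δ) (B : ℝ) :
    Summable (fun k : ℕ => 2 * B * ((k : ℝ) + 1) ^ (-δ - 1)) := by
  refine Summable.mul_left _ ?_
  have h : Summable (fun n : ℕ => ((n : ℝ) ^ (-δ - 1))) :=
    Real.summable_nat_rpow.mpr (by linarith)
  have h2 := (summable_nat_add_iff 1).mpr h
  refine h2.congr (fun k => ?_)
  push_cast
  rfl

private lemma serT_summable {s : ℂ} (hs : 0 < s.re) : Summable (fun k => serT k s) :=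
  Summable.of_norm_bounded (ser_summ (half_pos hs) (‖s‖ + 1))
    (fun k => serT_bound2 (half_pos hs) (by linarith) (by linarith) k)

private lemma serT_diff (k : ℕ) : Differentiable ℂ (serT k) := by
  unfold serT
  have h1 : (4 * (k : ℂ) + 1) ≠ 0 := by
    have : ((4 * k + 1 : ℕ) : ℂ) ≠ 0 := Nat.cast_ne_zero.mpr (by omega)
    push_cast at this; exact this
  have h3 : (4 * (k : ℂ) + 3) ≠ 0 := by
    have : ((4 * k + 3 : ℕ) : ℂ) ≠ 0 := Nat.cast_ne_zero.mpr (by omega)
    push_cast at this; exact this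
  intro s
  exact ((differentiableAt_id.neg).const_cpow (Or.inl h1)).sub
    ((differentiableAt_id.neg).const_cpow (Or.inl h3))

private lemma ser_diffOn : DifferentiableOn ℂ (fun s => ∑' k, serT k s) {s : ℂ | 0 < s.re} := by
  intro s hs
  have hs' : 0 < s.re := hs
  set U : Set ℂ := {z | s.re / 2 < z.re} ∩ {z | ‖z‖ < ‖s‖ + 1} with hU
  have hUo : IsOpen U := (isOpen_lt continuous_const Complex.continuous_re).inter
    (isOpen_lt continuous_norm continuous_const)
  have hd : DifferentiableOn ℂ (fun s => ∑' k, serT k s) U :=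
    differentiableOn_tsum_of_summable_norm (ser_summ (half_pos hs') (‖s‖ + 1))
      (fun k => (serT_diff k).differentiableOn) hUo
      (fun k w hw => serT_bound2 (half_pos hs') hw.1 hw.2 k)
  have hsU : s ∈ U := ⟨by change s.re / 2 < s.re; linarith, by simp⟩
  exact (hd.differentiableAt (hUo.mem_nhds hsU)).differentiableWithinAt

private lemma ser_eq_one {s : ℂ} (hs : 1 < s.re) : Lf s = ∑' k, serT k s := by
  unfold Lf
  rw [DirichletCharacter.LFunction_eq_LSeries chi hs, LSeries]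
  have hsum : Summable (fun n => LSeries.term (fun n => chi n) s n) :=
    DirichletCharacter.LSeriesSummable_of_one_lt_re chi hs
  rw [Nat.sumByResidueClasses hsum 4]
  have hU : (Finset.univ : Finset (ZMod 4)) = {0, 1, 2, 3} := by decide
  rw [hU, Finset.sum_insert (by decide), Finset.sum_insert (by decide),
    Finset.sum_insert (by decide), Finset.sum_singleton]
  have v0 : (0 : ZMod 4).val = 0 := by decide
  have v1 : (1 : ZMod 4).val = 1 := by decide
  have v2 : (2 : ZMod 4).val = 2 := by decide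
  have v3 : (3 : ZMod 4).val = 3 := by decide
  rw [v0, v1, v2, v3]
  have t0 : ∀ m : ℕ, LSeries.term (fun n => chi n) s (0 + 4 * m) = 0 := by
    intro m
    have : 0 + 4 * m = 2 * (2 * m) := by ring
    rw [this]
    by_cases hm : 2 * (2 * m) = 0
    · rw [hm]; simp
    · rw [LSeries.term_of_ne_zero hm, (chi_odd (2 * m)).2.2, zero_div]
  have t2 : ∀ m : ℕ, LSeries.term (fun n => chi n) s (2 + 4 * m) = 0 := by
    intro m
    have : 2 + 4 * m = 2 * (2 * m + 1) := by ring
    rw [this, LSeries.term_of_ne_zero (by omega), (chi_odd (2 * m + 1)).2.2, zero_div]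
  have t1 : ∀ m : ℕ, LSeries.term (fun n => chi n) s (1 + 4 * m) = (4 * (m : ℂ) + 1) ^ (-s) := by
    intro m
    have : 1 + 4 * m = 4 * m + 1 := by ring
    rw [this, LSeries.term_of_ne_zero (by omega), (chi_odd m).1, Complex.cpow_neg]
    push_cast
    rw [one_div]
  have t3 : ∀ m : ℕ, LSeries.term (fun n => chi n) s (3 + 4 * m) = -(4 * (m : ℂ) + 3) ^ (-s) := by
    intro m
    have : 3 + 4 * m = 4 * m + 3 := by ring
    rw [this, LSeries.term_of_ne_zero (by omega), (chi_odd m).2.1, Complex.cpow_neg]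
    push_cast
    rw [neg_div, one_div]
  have t0' : ∑' m : ℕ, LSeries.term (fun n => chi n) s (0 + 4 * m) = 0 := by
    rw [tsum_congr t0, tsum_zero]
  rw [t0', tsum_congr t1, tsum_congr t2, tsum_congr t3, tsum_zero, zero_add, zero_add]
  have s1 : Summable (fun m : ℕ => (4 * (m : ℂ) + 1) ^ (-s)) := by
    have := hsum.comp_injective (i := fun m : ℕ => 1 + 4 * m) (fun a b h => by
      simp only at h; omega)
    exact this.congr t1
  have s3 : Summable (fun m : ℕ => -(4 * (m : ℂ) + 3) ^ (-s)) := by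
    have := hsum.comp_injective (i := fun m : ℕ => 3 + 4 * m) (fun a b h => by
      simp only at h; omega)
    exact this.congr t3
  rw [← s1.tsum_add s3]
  refine tsum_congr (fun m => ?_)
  unfold serT
  ring

theorem Lf_series {s : ℂ} (hs : 0 < s.re) :
    HasSum (fun k : ℕ => (4 * (k : ℂ) + 1) ^ (-s) - (4 * (k : ℂ) + 3) ^ (-s)) (Lf s) := by
  have hopen : IsOpen {s : ℂ | 0 < s.re} := isOpen_lt continuous_const Complex.continuous_re
  have hconv : Convex ℝ {s : ℂ | 0 < s.re} := convex_halfSpace_re_gt 0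
  have h1 : AnalyticOnNhd ℂ Lf {s : ℂ | 0 < s.re} :=
    Lf_differentiable.differentiableOn.analyticOnNhd hopen
  have h2 : AnalyticOnNhd ℂ (fun s => ∑' k, serT k s) {s : ℂ | 0 < s.re} :=
    ser_diffOn.analyticOnNhd hopen
  have h20 : (2 : ℂ) ∈ {s : ℂ | 0 < s.re} := by simp
  have hev : Lf =ᶠ[𝓝 (2 : ℂ)] (fun s => ∑' k, serT k s) := by
    have : {s : ℂ | 1 < s.re} ∈ 𝓝 (2 : ℂ) :=
      (isOpen_lt continuous_const Complex.continuous_re).mem_nhds (by simp)
    filter_upwards [this] with z hz using ser_eq_one hz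
  have heq := h1.eqOn_of_preconnected_of_eventuallyEq h2 hconv.isPreconnected h20 hev
  have := heq hs
  simp only at this
  rw [this]
  exact (serT_summable hs).hasSum

private lemma ser_ofReal {σ : ℝ} (c : ℝ) (hc : 0 < c) : ((c : ℂ)) ^ (-(σ : ℂ)) = ((c ^ (-σ) : ℝ) : ℂ) := by
  rw [Complex.ofReal_cpow hc.le]
  push_cast
  rfl

private lemma ser_real {σ : ℝ} (h : 0 < σ) :
    HasSum (fun k : ℕ => (((4 * (k : ℝ) + 1) ^ (-σ) - (4 * (k : ℝ) + 3) ^ (-σ) : ℝ) : ℂ)) (Lf σ) := by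
  have h1 := Lf_series (s := (σ : ℂ)) (by simpa using h)
  convert h1 using 1
  funext k
  have a1 := ser_ofReal (σ := σ) (4 * (k : ℝ) + 1) (by positivity)
  have a3 := ser_ofReal (σ := σ) (4 * (k : ℝ) + 3) (by positivity)
  rw [Complex.ofReal_sub, ← a1, ← a3]
  push_cast
  rfl

private lemma ser_real_summable {σ : ℝ} (h : 0 < σ) :
    Summable (fun k : ℕ => (4 * (k : ℝ) + 1) ^ (-σ) - (4 * (k : ℝ) + 3) ^ (-σ)) :=
  Complex.summable_ofReal.mp (ser_real h).summable

private lemma ser_real_val {σ : ℝ} (h : 0 < σ) :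
    Lf σ = ((∑' k : ℕ, ((4 * (k : ℝ) + 1) ^ (-σ) - (4 * (k : ℝ) + 3) ^ (-σ)) : ℝ) : ℂ) := by
  have h1 : HasSum (fun k : ℕ => (((4 * (k : ℝ) + 1) ^ (-σ) - (4 * (k : ℝ) + 3) ^ (-σ) : ℝ) : ℂ))
      ((∑' k : ℕ, ((4 * (k : ℝ) + 1) ^ (-σ) - (4 * (k : ℝ) + 3) ^ (-σ)) : ℝ) : ℂ) :=
    Complex.hasSum_ofReal.mpr (ser_real_summable h).hasSum
  exact (ser_real h).unique h1

private lemma ser_pos {σ : ℝ} (h : 0 < σ) (k : ℕ) :
    0 < (4 * (k : ℝ) + 1) ^ (-σ) - (4 * (k : ℝ) + 3) ^ (-σ) := by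
  have : (4 * (k : ℝ) + 3) ^ (-σ) < (4 * (k : ℝ) + 1) ^ (-σ) :=
    Real.rpow_lt_rpow_of_neg (by positivity) (by linarith) (by linarith)
  linarith

private lemma ser_half (c : ℝ) (hc : 0 < c) : c ^ (-(1 / 2 : ℝ)) = 1 / √c := by
  rw [Real.rpow_neg hc.le, ← Real.sqrt_eq_rpow, one_div]

theorem Lhalf_summable :
    Summable (fun k : ℕ => 1 / √(4 * (k : ℝ) + 1) - 1 / √(4 * (k : ℝ) + 3)) := by
  refine (ser_real_summable (σ := 1 / 2) (by norm_num)).congr (fun k => ?_)
  rw [ser_half _ (by positivity), ser_half _ (by positivity)]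

theorem Lf_half : Lf (1 / 2) = (Lhalf : ℂ) := by
  have h := ser_real_val (σ := 1 / 2) (by norm_num)
  have e : ((1 / 2 : ℝ) : ℂ) = 1 / 2 := by push_cast; rfl
  rw [e] at h
  rw [h]
  unfold Lhalf
  congr 1
  refine tsum_congr (fun k => ?_)
  rw [ser_half _ (by positivity), ser_half _ (by positivity)]

theorem Lhalf_pos : 0 < Lhalf := by
  unfold Lhalf
  have hp : ∀ k : ℕ, 0 < 1 / √(4 * (k : ℝ) + 1) - 1 / √(4 * (k : ℝ) + 3) := by
    intro k
    have := ser_pos (σ := 1 / 2) (by norm_num) k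
    rwa [ser_half _ (by positivity), ser_half _ (by positivity)] at this
  exact Lhalf_summable.tsum_pos (fun k => (hp k).le) 0 (hp 0)

theorem Lf_real_ne {σ : ℝ} (h : 0 < σ) : Lf (σ : ℂ) ≠ 0 := by
  rw [ser_real_val h]
  have : 0 < ∑' k : ℕ, ((4 * (k : ℝ) + 1) ^ (-σ) - (4 * (k : ℝ) + 3) ^ (-σ)) :=
    (ser_real_summable h).tsum_pos (fun k => (ser_pos h k).le) 0 (ser_pos h 0)
  exact_mod_cast this.ne'

private lemma ser_conj_term (c : ℝ) (hc : 0 < c) (s : ℂ) :
    (c : ℂ) ^ (-((starRingEnd ℂ) s)) = (starRingEnd ℂ) ((c : ℂ) ^ (-s)) := by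
  have h := Complex.cpow_conj (c : ℂ) (-s) (by
    rw [Complex.arg_ofReal_of_nonneg hc.le]
    exact Real.pi_pos.ne)
  rw [map_neg, Complex.conj_ofReal] at h
  exact h

private lemma Lf_conj_pos {s : ℂ} (hs : 0 < s.re) :
    Lf ((starRingEnd ℂ) s) = (starRingEnd ℂ) (Lf s) := by
  have h1 := Lf_series (s := (starRingEnd ℂ) s) (by simpa using hs)
  have h2 := (Lf_series hs).map (starRingEnd ℂ) Complex.continuous_conj
  have h3 : (fun k : ℕ => (4 * (k : ℂ) + 1) ^ (-((starRingEnd ℂ) s))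
      - (4 * (k : ℂ) + 3) ^ (-((starRingEnd ℂ) s)))
      = (starRingEnd ℂ) ∘ fun k : ℕ => (4 * (k : ℂ) + 1) ^ (-s) - (4 * (k : ℂ) + 3) ^ (-s) := by
    funext k
    have a1 := ser_conj_term (4 * (k : ℝ) + 1) (by positivity) s
    have a3 := ser_conj_term (4 * (k : ℝ) + 3) (by positivity) s
    push_cast at a1 a3
    simp only [Function.comp_apply, map_sub]
    rw [a1, a3]
  rw [h3] at h1
  exact h1.unique h2

theorem Lf_conj (s : ℂ) : Lf ((starRingEnd ℂ) s) = (starRingEnd ℂ) (Lf s) := by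
  have hd : Differentiable ℂ (fun s => (starRingEnd ℂ) (Lf ((starRingEnd ℂ) s))) := by
    intro z
    have h := (Lf_differentiable ((starRingEnd ℂ) z)).hasDerivAt.conj_conj
    rw [Complex.conj_conj] at h
    exact h.differentiableAt
  have h1 : AnalyticOnNhd ℂ Lf Set.univ :=
    Lf_differentiable.differentiableOn.analyticOnNhd isOpen_univ
  have h2 : AnalyticOnNhd ℂ (fun s => (starRingEnd ℂ) (Lf ((starRingEnd ℂ) s))) Set.univ :=
    hd.differentiableOn.analyticOnNhd isOpen_univ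
  have hev : (fun s => (starRingEnd ℂ) (Lf ((starRingEnd ℂ) s))) =ᶠ[𝓝 (2 : ℂ)] Lf := by
    have : {s : ℂ | 1 < s.re} ∈ 𝓝 (2 : ℂ) :=
      (isOpen_lt continuous_const Complex.continuous_re).mem_nhds (by simp)
    filter_upwards [this] with z hz
    have hz' : (1 : ℝ) < z.re := hz
    rw [Lf_conj_pos (by linarith), Complex.conj_conj]
  have heq := h2.eqOn_of_preconnected_of_eventuallyEq h1 isPreconnected_univ
    (Set.mem_univ (2 : ℂ)) hev
  have := heq (Set.mem_univ ((s)))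
  simp only at this
  rw [← this, Complex.conj_conj]

end Pool.OMG
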